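import Pool.Agent.Helper46.RC.HdGauge
import Pool.Agent.Helper61.RC.QLoc

/-!
# Project RC, SHARP, zone I: (Q), the head certificates: data of the five nodes, window `K = 47`
-/

set_option autoImplicit false

namespace Pool.Agent.Helper46.RC.QZ

open Pool.Agent.Helper46.RC.Hd (Loc StPos)
open Pool.Agent.Helper61.RC.QC
open Pool.Agent.Helper61.RC.HdLoc (locG)

/-- all losses of the passage (interpolation, deviation of `d`, tail), per frequency -/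
def lamQ (n : ℤ) : ℚ := 1 / 900 + ((n : ℚ) + 1) ^ 2 / 50000

def gsH (n : ℤ) : ℚ := gsM n + 2 * lamQ n
def gpH (n : ℤ) : ℚ := gpM n + 6 * lamQ n
def grH (n : ℤ) : ℚ := grM n + 147 / 16 * lamQ n

/-- the local data of the heads -/
def cH : Loc := locG fQ (fun _ => 0) e2Q e3Q gsH gpH grH cQ

/-- the five certificates -/
structure Heads : Prop where
  h0 : StPos ((((-27 : ℤ) : ℤ) : ℝ) / ((50000 : ℕ) : ℝ)) (((0 : ℕ) : ℝ) / ((1 : ℕ) : ℝ)) 47 cH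
  h1 : StPos (((3 : ℤ) : ℝ) / ((50000 : ℕ) : ℝ)) (((1 : ℕ) : ℝ) / ((48 : ℕ) : ℝ)) 47 cH
  h2 : StPos (((67 : ℤ) : ℝ) / ((50000 : ℕ) : ℝ)) (((1 : ℕ) : ℝ) / ((24 : ℕ) : ℝ)) 47 cH
  h3 : StPos (((329 : ℤ) : ℝ) / ((100000 : ℕ) : ℝ)) (((1 : ℕ) : ℝ) / ((16 : ℕ) : ℝ)) 47 cH
  h4 : StPos (((59 : ℤ) : ℝ) / ((10000 : ℕ) : ℝ)) (((1 : ℕ) : ℝ) / ((12 : ℕ) : ℝ)) 47 cH

end Pool.Agent.Helper46.RC.QZ
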