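import Pool.Agent.Helper41.RC.M_INTP

/-!
# Project RC / SHARP, link (7): cross terms with frequency weights

`cross_a2`: the mixed terms between a family with the frequencies `|m| ≥ m₁` and a family with arbitrary frequencies,
after one integration by parts: the family with low frequencies pays `m² / m₁⁴` only.
`interpW`: interpolation of the mixed term with frequency weights.
-/

open MeasureTheory Set Filter intervalIntegral

namespace Pool.Agent.Helper46.RC.CW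

open Helper41.RC

/-- a shift of class `C²` -/
structure Shift2 (ψ ψ' ψ'' : ℝ → ℝ) (s q : ℝ) : Prop where
  h : Shift ψ ψ' s
  d : ∀ x, HasDerivAt ψ' (ψ'' x) x
  c : Continuous ψ''
  p : ∀ x, ψ' (x + 2 * Real.pi) = ψ' x
  q : ∀ x, |ψ'' x| ≤ q

theorem Shift2.neg {ψ ψ' ψ'' : ℝ → ℝ} {s q : ℝ} (h : Shift2 ψ ψ' ψ'' s q) :
    Shift2 (fun x => -ψ x) (fun x => -ψ' x) (fun x => -ψ'' x) s q :=
  ⟨h.h.neg, fun x => (h.d x).neg, h.c.neg, fun x => by rw [h.p], fun x => by rw [abs_neg]; exact h.q x⟩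

/-- the integrated form of the mixed term -/
theorem mixed_ibp {ψ ψ' ψ'' : ℝ → ℝ} {s q : ℝ} (h : Shift2 ψ ψ' ψ'' s q) (S T : Finset ℤ)
    (hS : ∀ m ∈ S, m ≠ 0) (a b : ℤ → ℂ) :
    ∑ m ∈ S, ∑ n ∈ T, a m * (starRingEnd ℂ) (b n) * KK ψ m n
      = -((1 / (2 * Real.pi) : ℂ) * ∫ x in (0 : ℝ)..(2 * Real.pi),
        tp S (fun m => a m / ((m : ℂ) * Complex.I) / ((m : ℂ) * Complex.I)) (x + ψ x / 2)
          * ((starRingEnd ℂ) (Complex.I * tp T (fun n => (n : ℂ) * b n) (x - ψ x / 2))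
              * (((1 - ψ' x / 2) ^ 2 / (1 + ψ' x / 2) : ℝ) : ℂ)
            - (starRingEnd ℂ) (tp T b (x - ψ x / 2)) * ((ψ'' x / (1 + ψ' x / 2) ^ 2 : ℝ) : ℂ))) := by
  have hup : ∀ x, 0 < 1 + ψ' x / 2 := by
    intro x
    have hb := abs_le.1 (h.h.b x)
    have := h.h.s1
    linarith [hb.1]
  have hψc := h.h.cont
  have hψ'c := h.h.c
  rw [mixed_eq2 h.h S T hS a b]
  set w : ℤ → ℂ := fun m => a m / ((m : ℂ) * Complex.I) with hw
  set w2 : ℤ → ℂ := fun m => a m / ((m : ℂ) * Complex.I) / ((m : ℂ) * Complex.I) with hw2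
  -- the product `f g`
  set f : ℝ → ℂ := fun x => tp S w2 (x + ψ x / 2) with hf
  set g : ℝ → ℂ := fun x => (starRingEnd ℂ) (tp T b (x - ψ x / 2)) * (((1 - ψ' x / 2) / (1 + ψ' x / 2) : ℝ) : ℂ)
    with hg
  have hfd : ∀ x, HasDerivAt f (tp S w (x + ψ x / 2) * ((1 + ψ' x / 2 : ℝ) : ℂ)) x := by
    intro x
    have e1 : HasDerivAt (fun y => y + ψ y / 2) (1 + ψ' x / 2) x :=
      (hasDerivAt_id x).add ((h.h.d x).div_const 2)
    have d1 := (tp_hasDeriv S w2 (x + ψ x / 2)).scomp x e1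
    refine d1.congr_deriv ?_
    rw [Complex.real_smul, mul_comm]
    congr 1
    unfold tp
    rw [Finset.mul_sum]
    refine Finset.sum_congr rfl fun m hm => ?_
    have hm0 : (m : ℂ) ≠ 0 := by exact_mod_cast hS m hm
    have hI := Complex.I_ne_zero
    rw [hw2, hw]
    field_simp
  have hrd : ∀ x, HasDerivAt (fun y => (1 - ψ' y / 2) / (1 + ψ' y / 2))
      (-(ψ'' x / (1 + ψ' x / 2) ^ 2)) x := by
    intro x
    have e1 : HasDerivAt (fun y => 1 - ψ' y / 2) (-(ψ'' x / 2)) x := ((h.d x).div_const 2).const_sub 1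
    have e2 : HasDerivAt (fun y => 1 + ψ' y / 2) (ψ'' x / 2) x := ((h.d x).div_const 2).const_add 1
    have e3 := e1.div e2 (hup x).ne'
    refine e3.congr_deriv ?_
    have := (hup x).ne'
    field_simp
    ring
  have hgd : ∀ x, HasDerivAt g ((starRingEnd ℂ) (Complex.I * tp T (fun n => (n : ℂ) * b n) (x - ψ x / 2))
              * (((1 - ψ' x / 2) ^ 2 / (1 + ψ' x / 2) : ℝ) : ℂ)
            - (starRingEnd ℂ) (tp T b (x - ψ x / 2)) * ((ψ'' x / (1 + ψ' x / 2) ^ 2 : ℝ) : ℂ)) x := by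
    intro x
    have e1 : HasDerivAt (fun y => y - ψ y / 2) (1 - ψ' x / 2) x :=
      (hasDerivAt_id x).sub ((h.h.d x).div_const 2)
    have d1 := ((tp_hasDeriv T b (x - ψ x / 2)).scomp x e1).star
    have d2 := d1.mul (hrd x).ofReal_comp
    refine d2.congr_deriv ?_
    simp only [Function.comp, Complex.real_smul, Complex.star_def, map_mul,
      Complex.conj_I, Complex.conj_ofReal]
    push_cast
    ring
  have cu : Continuous fun x => tp S w (x + ψ x / 2) := (tp_cont S w).comp (continuous_id.add (hψc.div_const 2))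
  have cf : Continuous f := (tp_cont S w2).comp (continuous_id.add (hψc.div_const 2))
  have cB : Continuous fun x => tp T b (x - ψ x / 2) := (tp_cont T b).comp (continuous_id.sub (hψc.div_const 2))
  have cB' : Continuous fun x => tp T (fun n => (n : ℂ) * b n) (x - ψ x / 2) :=
    (tp_cont T _).comp (continuous_id.sub (hψc.div_const 2))
  have c1 : Continuous fun x => (1 - ψ' x / 2) ^ 2 / (1 + ψ' x / 2) :=
    ((continuous_const.sub (hψ'c.div_const 2)).pow 2).div (continuous_const.add (hψ'c.div_const 2))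
      fun x => (hup x).ne'
  have c2 : Continuous fun x => ψ'' x / (1 + ψ' x / 2) ^ 2 :=
    h.c.div ((continuous_const.add (hψ'c.div_const 2)).pow 2) fun x => (pow_pos (hup x) 2).ne'
  have cg' : Continuous fun x => (starRingEnd ℂ) (Complex.I * tp T (fun n => (n : ℂ) * b n) (x - ψ x / 2))
              * (((1 - ψ' x / 2) ^ 2 / (1 + ψ' x / 2) : ℝ) : ℂ)
            - (starRingEnd ℂ) (tp T b (x - ψ x / 2)) * ((ψ'' x / (1 + ψ' x / 2) ^ 2 : ℝ) : ℂ) :=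
    ((Complex.continuous_conj.comp (continuous_const.mul cB')).mul (Complex.continuous_ofReal.comp c1)).sub
      ((Complex.continuous_conj.comp cB).mul (Complex.continuous_ofReal.comp c2))
  have hmain : ∀ x, tp S w (x + ψ x / 2) * ((1 + ψ' x / 2 : ℝ) : ℂ) * g x =
      tp S w (x + ψ x / 2) * (starRingEnd ℂ) (tp T b (x - ψ x / 2)) * ((1 - ψ' x / 2 : ℝ) : ℂ) := by
    intro x
    rw [hg]
    simp only
    have e : ((1 - ψ' x / 2 : ℝ) : ℂ) = ((1 + ψ' x / 2 : ℝ) : ℂ) * (((1 - ψ' x / 2) / (1 + ψ' x / 2) : ℝ) : ℂ) := by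
      rw [← Complex.ofReal_mul, mul_div_cancel₀ _ (hup x).ne']
    rw [e]
    ring
  have h0 : ψ (2 * Real.pi) = ψ 0 := by
    have := h.h.p 0
    rwa [zero_add] at this
  have h0' : ψ' (2 * Real.pi) = ψ' 0 := by
    have := h.p 0
    rwa [zero_add] at this
  have hz := int_zero_of_per (f := fun x => f x * g x)
    (f' := fun x => tp S w (x + ψ x / 2) * (starRingEnd ℂ) (tp T b (x - ψ x / 2)) * ((1 - ψ' x / 2 : ℝ) : ℂ)
      + f x * ((starRingEnd ℂ) (Complex.I * tp T (fun n => (n : ℂ) * b n) (x - ψ x / 2))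
              * (((1 - ψ' x / 2) ^ 2 / (1 + ψ' x / 2) : ℝ) : ℂ)
            - (starRingEnd ℂ) (tp T b (x - ψ x / 2)) * ((ψ'' x / (1 + ψ' x / 2) ^ 2 : ℝ) : ℂ)))
    (fun x => ((hfd x).mul (hgd x)).congr_deriv (by rw [hmain]))
    (((cu.mul (Complex.continuous_conj.comp cB)).mul
      (Complex.continuous_ofReal.comp (continuous_const.sub (hψ'c.div_const 2)))).add (cf.mul cg'))
    (by
      rw [hf, hg]
      simp only
      rw [h0, h0']
      have e1 := tp_per S w2 (ψ 0 / 2)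
      have e2 := tp_per T b (-(ψ 0 / 2))
      rw [show 2 * Real.pi + ψ 0 / 2 = ψ 0 / 2 + 2 * Real.pi by ring, e1,
        show 2 * Real.pi - ψ 0 / 2 = -(ψ 0 / 2) + 2 * Real.pi by ring, e2]
      rw [zero_add, zero_sub])
  rw [intervalIntegral.integral_add] at hz
  · rw [eq_neg_of_add_eq_zero_left hz]
    ring
  · exact ((cu.mul (Complex.continuous_conj.comp cB)).mul
      (Complex.continuous_ofReal.comp (continuous_const.sub (hψ'c.div_const 2)))).intervalIntegrable _ _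
  · exact (cf.mul cg').intervalIntegrable _ _

theorem sum_div2 {S : Finset ℤ} {m₁ : ℝ} (hm : 0 < m₁) (hS : ∀ m ∈ S, m₁ ≤ |(m : ℝ)|) (a : ℤ → ℂ) :
    ∑ m ∈ S, ‖a m / ((m : ℂ) * Complex.I) / ((m : ℂ) * Complex.I)‖ ^ 2 ≤ 1 / m₁ ^ 4 * ∑ m ∈ S, ‖a m‖ ^ 2 := by
  refine le_trans (sum_div hm hS _) ?_
  refine le_trans (mul_le_mul_of_nonneg_left (sum_div hm hS a) (by positivity)) (le_of_eq ?_)
  field_simp

/-- `a` has the high frequencies, one integration by parts -/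
theorem cross_a2 {ψ ψ' ψ'' : ℝ → ℝ} {s q : ℝ} (h : Shift2 ψ ψ' ψ'' s q) (S T : Finset ℤ)
    {m₁ κ c₁ c₂ θ₁ θ₂ : ℝ} (hm : 0 < m₁) (hS : ∀ m ∈ S, m₁ ≤ |(m : ℝ)|) (hκ : 0 < κ)
    (hs : 1 ≤ κ ^ 2 * (1 - s ^ 2)) (h1 : (1 + s) ^ 2 ≤ c₁ * (1 - s)) (h2 : q ≤ c₂ * (1 - s) ^ 2)
    (hθ₁ : 0 < θ₁) (hθ₂ : 0 < θ₂) (a b : ℤ → ℂ) :
    2 * ‖∑ m ∈ S, ∑ n ∈ T, a m * (starRingEnd ℂ) (b n) * KK ψ m n‖
      ≤ κ * (c₁ * θ₁ + c₂ * θ₂) / m₁ ^ 4 * ∑ m ∈ S, ‖a m‖ ^ 2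
        + ∑ n ∈ T, κ * (c₁ * (n : ℝ) ^ 2 / θ₁ + c₂ / θ₂) * ‖b n‖ ^ 2 := by
  have hpi := Real.pi_pos
  have hs0 : 0 ≤ s := by
    have := le_trans (abs_nonneg _) (h.h.b 0)
    linarith
  have hs1 := h.h.s1
  have hq0 : 0 ≤ q := le_trans (abs_nonneg _) (h.q 0)
  have hc₁ : 0 < c₁ := by
    by_contra hc
    have : c₁ * (1 - s) ≤ 0 := mul_nonpos_of_nonpos_of_nonneg (not_lt.1 hc) (by linarith)
    nlinarith
  have hc₂ : 0 ≤ c₂ := by
    by_contra hc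
    have : c₂ * (1 - s) ^ 2 < 0 := mul_neg_of_neg_of_pos (not_le.1 hc) (by nlinarith)
    linarith
  have hS0 : ∀ m ∈ S, m ≠ 0 := by
    intro m hmS h0
    have := hS m hmS
    rw [h0] at this
    simp at this
    linarith
  have hup : ∀ x, 1 - s ≤ 1 + ψ' x / 2 := by
    intro x
    have hb := abs_le.1 (h.h.b x)
    linarith [hb.1]
  have hψc := h.h.cont
  have hψ'c := h.h.c
  rw [mixed_ibp h S T hS0 a b, norm_neg, norm_mul, norm_two_pi]
  set w2 : ℤ → ℂ := fun m => a m / ((m : ℂ) * Complex.I) / ((m : ℂ) * Complex.I) with hw2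
  set nb : ℤ → ℂ := fun n => (n : ℂ) * b n with hnb
  have cf : Continuous fun x => tp S w2 (x + ψ x / 2) :=
    (tp_cont S w2).comp (continuous_id.add (hψc.div_const 2))
  have cB : Continuous fun x => tp T b (x - ψ x / 2) := (tp_cont T b).comp (continuous_id.sub (hψc.div_const 2))
  have cB' : Continuous fun x => tp T nb (x - ψ x / 2) :=
    (tp_cont T _).comp (continuous_id.sub (hψc.div_const 2))
  have hpt : ∀ x, ‖tp S w2 (x + ψ x / 2)
          * ((starRingEnd ℂ) (Complex.I * tp T nb (x - ψ x / 2))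
              * (((1 - ψ' x / 2) ^ 2 / (1 + ψ' x / 2) : ℝ) : ℂ)
            - (starRingEnd ℂ) (tp T b (x - ψ x / 2)) * ((ψ'' x / (1 + ψ' x / 2) ^ 2 : ℝ) : ℂ))‖
      ≤ c₁ * (‖tp S w2 (x + ψ x / 2)‖ * ‖tp T nb (x - ψ x / 2)‖)
        + c₂ * (‖tp S w2 (x + ψ x / 2)‖ * ‖tp T b (x - ψ x / 2)‖) := by
    intro x
    have hb := abs_le.1 (h.h.b x)
    have hu := hup x
    have hu0 : 0 < 1 + ψ' x / 2 := by linarith
    have k1 : |(1 - ψ' x / 2) ^ 2 / (1 + ψ' x / 2)| ≤ c₁ := by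
      rw [abs_of_nonneg (by positivity), div_le_iff₀ hu0]
      have e1 : (1 - ψ' x / 2) ^ 2 ≤ (1 + s) ^ 2 :=
        pow_le_pow_left₀ (by linarith [hb.2]) (by linarith [hb.1]) 2
      have e2 : c₁ * (1 - s) ≤ c₁ * (1 + ψ' x / 2) := mul_le_mul_of_nonneg_left hu hc₁.le
      linarith
    have k2 : |ψ'' x / (1 + ψ' x / 2) ^ 2| ≤ c₂ := by
      rw [abs_div, abs_of_pos (pow_pos hu0 2), div_le_iff₀ (pow_pos hu0 2)]
      have e1 : (1 - s) ^ 2 ≤ (1 + ψ' x / 2) ^ 2 := pow_le_pow_left₀ (by linarith) hu 2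
      have e2 : c₂ * (1 - s) ^ 2 ≤ c₂ * (1 + ψ' x / 2) ^ 2 := mul_le_mul_of_nonneg_left e1 hc₂
      linarith [h.q x]
    rw [norm_mul]
    have k3 : ‖(starRingEnd ℂ) (Complex.I * tp T nb (x - ψ x / 2))
              * (((1 - ψ' x / 2) ^ 2 / (1 + ψ' x / 2) : ℝ) : ℂ)
            - (starRingEnd ℂ) (tp T b (x - ψ x / 2)) * ((ψ'' x / (1 + ψ' x / 2) ^ 2 : ℝ) : ℂ)‖
        ≤ c₁ * ‖tp T nb (x - ψ x / 2)‖ + c₂ * ‖tp T b (x - ψ x / 2)‖ := by
      refine le_trans (norm_sub_le _ _) ?_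
      rw [norm_mul, norm_mul, Complex.norm_conj, Complex.norm_conj, norm_mul, Complex.norm_I, one_mul,
        Complex.norm_real, Complex.norm_real, Real.norm_eq_abs, Real.norm_eq_abs, mul_comm,
        mul_comm ‖tp T b _‖]
      exact add_le_add (mul_le_mul_of_nonneg_right k1 (norm_nonneg _))
        (mul_le_mul_of_nonneg_right k2 (norm_nonneg _))
    refine le_trans (mul_le_mul_of_nonneg_left k3 (norm_nonneg _)) (le_of_eq ?_)
    ring
  have i1 : IntervalIntegrable (fun x => ‖tp S w2 (x + ψ x / 2)‖ * ‖tp T nb (x - ψ x / 2)‖)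
      volume 0 (2 * Real.pi) := (cf.norm.mul cB'.norm).intervalIntegrable _ _
  have i2 : IntervalIntegrable (fun x => ‖tp S w2 (x + ψ x / 2)‖ * ‖tp T b (x - ψ x / 2)‖)
      volume 0 (2 * Real.pi) := (cf.norm.mul cB.norm).intervalIntegrable _ _
  have hn := intervalIntegral.norm_integral_le_of_norm_le (μ := volume) (a := 0) (b := 2 * Real.pi)
    (f := fun x => tp S w2 (x + ψ x / 2)
          * ((starRingEnd ℂ) (Complex.I * tp T nb (x - ψ x / 2))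
              * (((1 - ψ' x / 2) ^ 2 / (1 + ψ' x / 2) : ℝ) : ℂ)
            - (starRingEnd ℂ) (tp T b (x - ψ x / 2)) * ((ψ'' x / (1 + ψ' x / 2) ^ 2 : ℝ) : ℂ)))
    (g := fun x => c₁ * (‖tp S w2 (x + ψ x / 2)‖ * ‖tp T nb (x - ψ x / 2)‖)
        + c₂ * (‖tp S w2 (x + ψ x / 2)‖ * ‖tp T b (x - ψ x / 2)‖)) (by positivity)
    (ae_of_all _ fun x _ => hpt x) ((i1.const_mul _).add (i2.const_mul _))
  rw [intervalIntegral.integral_add (i1.const_mul _) (i2.const_mul _), intervalIntegral.integral_const_mul,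
    intervalIntegral.integral_const_mul] at hn
  have m1 := shift_mul h.h hκ hθ₁ hs S T w2 nb
  have m2 := shift_mul h.h hκ hθ₂ hs S T w2 b
  have hww : ∑ m ∈ S, ‖w2 m‖ ^ 2 ≤ 1 / m₁ ^ 4 * ∑ m ∈ S, ‖a m‖ ^ 2 := sum_div2 hm hS a
  have hnb2 : ∑ n ∈ T, ‖nb n‖ ^ 2 = ∑ n ∈ T, (n : ℝ) ^ 2 * ‖b n‖ ^ 2 := by
    refine Finset.sum_congr rfl fun n _ => ?_
    rw [hnb]
    simp only
    rw [norm_mul, mul_pow, ← Complex.ofReal_intCast, Complex.norm_real, Real.norm_eq_abs, sq_abs]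
  have hM := mul_le_mul_of_nonneg_left (le_trans hn (add_le_add (mul_le_mul_of_nonneg_left m1 hc₁.le)
    (mul_le_mul_of_nonneg_left m2 hc₂))) (by positivity : (0 : ℝ) ≤ 1 / (2 * Real.pi))
  have e1 : 1 / (2 * Real.pi) * (c₁ * (κ / 2 * (2 * Real.pi * (θ₁ * ∑ m ∈ S, ‖w2 m‖ ^ 2 + 1 / θ₁ * ∑ m ∈ T, ‖nb m‖ ^ 2)))
      + c₂ * (κ / 2 * (2 * Real.pi * (θ₂ * ∑ m ∈ S, ‖w2 m‖ ^ 2 + 1 / θ₂ * ∑ m ∈ T, ‖b m‖ ^ 2)))) =
      (κ * (c₁ * θ₁ + c₂ * θ₂) * ∑ m ∈ S, ‖w2 m‖ ^ 2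
        + (κ * c₁ / θ₁ * ∑ m ∈ T, ‖nb m‖ ^ 2 + κ * c₂ / θ₂ * ∑ m ∈ T, ‖b m‖ ^ 2)) / 2 := by
    field_simp
    ring
  rw [e1] at hM
  have e2 : ∑ n ∈ T, κ * (c₁ * (n : ℝ) ^ 2 / θ₁ + c₂ / θ₂) * ‖b n‖ ^ 2 =
      κ * c₁ / θ₁ * ∑ m ∈ T, ‖nb m‖ ^ 2 + κ * c₂ / θ₂ * ∑ m ∈ T, ‖b m‖ ^ 2 := by
    rw [hnb2, Finset.mul_sum, Finset.mul_sum, ← Finset.sum_add_distrib]
    refine Finset.sum_congr rfl fun n _ => ?_
    ring
  have e3 : κ * (c₁ * θ₁ + c₂ * θ₂) * ∑ m ∈ S, ‖w2 m‖ ^ 2 ≤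
      κ * (c₁ * θ₁ + c₂ * θ₂) / m₁ ^ 4 * ∑ m ∈ S, ‖a m‖ ^ 2 := by
    refine le_trans (mul_le_mul_of_nonneg_left hww (by positivity)) (le_of_eq ?_)
    ring
  rw [e2]
  linarith

/-- `b` has the high frequencies, one integration by parts -/
theorem cross_b2 {ψ ψ' ψ'' : ℝ → ℝ} {s q : ℝ} (h : Shift2 ψ ψ' ψ'' s q) (S T : Finset ℤ)
    {m₁ κ c₁ c₂ θ₁ θ₂ : ℝ} (hm : 0 < m₁) (hT : ∀ m ∈ T, m₁ ≤ |(m : ℝ)|) (hκ : 0 < κ)
    (hs : 1 ≤ κ ^ 2 * (1 - s ^ 2)) (h1 : (1 + s) ^ 2 ≤ c₁ * (1 - s)) (h2 : q ≤ c₂ * (1 - s) ^ 2)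
    (hθ₁ : 0 < θ₁) (hθ₂ : 0 < θ₂) (a b : ℤ → ℂ) :
    2 * ‖∑ m ∈ S, ∑ n ∈ T, a m * (starRingEnd ℂ) (b n) * KK ψ m n‖
      ≤ κ * (c₁ * θ₁ + c₂ * θ₂) / m₁ ^ 4 * ∑ m ∈ T, ‖b m‖ ^ 2
        + ∑ n ∈ S, κ * (c₁ * (n : ℝ) ^ 2 / θ₁ + c₂ / θ₂) * ‖a n‖ ^ 2 := by
  have h3 := cross_a2 h.neg T S hm hT hκ hs h1 h2 hθ₁ hθ₂ b a
  have h4 : ∑ m ∈ S, ∑ n ∈ T, a m * (starRingEnd ℂ) (b n) * KK ψ m n
      = -(starRingEnd ℂ) (∑ n ∈ T, ∑ m ∈ S, b n * (starRingEnd ℂ) (a m) * KK (fun x => -ψ x) n m) := by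
    rw [map_sum, Finset.sum_comm, ← Finset.sum_neg_distrib]
    refine Finset.sum_congr rfl fun n _ => ?_
    rw [map_sum, ← Finset.sum_neg_distrib]
    refine Finset.sum_congr rfl fun m _ => ?_
    rw [map_mul, map_mul, Complex.conj_conj, KK_flip ψ m n]
    ring
  rw [h4, norm_neg, Complex.norm_conj]
  exact h3

/-- INTERPOLATION of the mixed term, frequency weights -/
theorem interpW {ψ₁ ψ₁' ψ₂ ψ₂' : ℝ → ℝ} {s : ℝ} (h₁ : Shift ψ₁ ψ₁' s) (h₂ : Shift ψ₂ ψ₂' s)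
    {D κ T : ℝ} (hD : ∀ x, |ψ₁ x - ψ₂ x| ≤ D) (hκ : 0 < κ) (hs : 1 ≤ κ ^ 2 * (1 - s ^ 2))
    (S : Finset ℤ) (hT : 0 < T) (a b : ℤ → ℂ) {σ : ℝ} (h0 : 0 ≤ σ) (h1 : σ ≤ 1) :
    (1 - σ) * (-2 * (∑ m ∈ S, ∑ n ∈ S, a m * (starRingEnd ℂ) (b n) * KK ψ₂ m n).im)
      + σ * (-2 * (∑ m ∈ S, ∑ n ∈ S, a m * (starRingEnd ℂ) (b n) * KK ψ₁ m n).im)
      - κ * D ^ 2 / 16 * ∑ m ∈ S, (T + (m : ℝ) ^ 2 / T) * (‖a m‖ ^ 2 + ‖b m‖ ^ 2)
      ≤ -2 * (∑ m ∈ S, ∑ n ∈ S, a m * (starRingEnd ℂ) (b n)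
        * KK (fun x => ψ₂ x + σ * (ψ₁ x - ψ₂ x)) m n).im := by
  have hpi := Real.pi_pos
  have hc1 := h₁.cont
  have hc2 := h₂.cont
  have hD0 : 0 ≤ D := le_trans (abs_nonneg _) (hD 0)
  set P : ℝ → ℝ → ℝ := fun τ y => ψ₂ y + τ * (ψ₁ y - ψ₂ y) with hP
  set F : ℝ → ℝ → ℂ := fun τ x => ∑ m ∈ S, ∑ n ∈ S, a m * (starRingEnd ℂ) (b n) * cc (P τ) m n x with hF
  set F' : ℝ → ℝ → ℂ := fun τ x => ((ψ₁ x - ψ₂ x : ℝ) : ℂ) * (tp S a (x + P τ x / 2)
    * (starRingEnd ℂ) (tp S b (x - P τ x / 2))) with hF'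
  set ma : ℤ → ℂ := fun m => (m : ℂ) * a m with hma
  set mb : ℤ → ℂ := fun m => (m : ℂ) * b m with hmb
  set F'' : ℝ → ℝ → ℂ := fun τ x => (Complex.I * (((ψ₁ x - ψ₂ x) ^ 2 / 2 : ℝ) : ℂ)) *
    (tp S ma (x + P τ x / 2) * (starRingEnd ℂ) (tp S b (x - P τ x / 2))
      + tp S a (x + P τ x / 2) * (starRingEnd ℂ) (tp S mb (x - P τ x / 2))) with hF''
  have hPc : ∀ τ, Continuous (P τ) := fun τ => hc2.add (continuous_const.mul (hc1.sub hc2))
  have cA : ∀ (U : Finset ℤ) (c : ℤ → ℂ) (τ : ℝ), Continuous fun x : ℝ => tp U c (x + P τ x / 2) :=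
    fun U c τ => (tp_cont U c).comp (continuous_id.add ((hPc τ).div_const 2))
  have cB : ∀ (U : Finset ℤ) (c : ℤ → ℂ) (τ : ℝ), Continuous fun x : ℝ => tp U c (x - P τ x / 2) :=
    fun U c τ => (tp_cont U c).comp (continuous_id.sub ((hPc τ).div_const 2))
  have hFc : ∀ τ, Continuous (F τ) := by
    intro τ
    rw [hF]
    exact continuous_finsetSum _ fun m _ => continuous_finsetSum _ fun n _ =>
      continuous_const.mul (cc_cont (hPc τ) m n)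
  have hF'c : ∀ τ, Continuous (F' τ) := fun τ =>
    (Complex.continuous_ofReal.comp (hc1.sub hc2)).mul
      ((cA S a τ).mul (Complex.continuous_conj.comp (cB S b τ)))
  have hF''c : ∀ τ, Continuous (F'' τ) := fun τ =>
    (continuous_const.mul (Complex.continuous_ofReal.comp (((hc1.sub hc2).pow 2).div_const 2))).mul
      (((cA S ma τ).mul (Complex.continuous_conj.comp (cB S b τ))).add
        ((cA S a τ).mul (Complex.continuous_conj.comp (cB S mb τ))))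
  have hFd : ∀ x τ, HasDerivAt (fun t => F t x) (F' τ x) τ := by
    intro x τ
    have h5 : HasDerivAt (fun t => F t x) (∑ m ∈ S, ∑ n ∈ S, a m * (starRingEnd ℂ) (b n)
        * (((ψ₁ x - ψ₂ x : ℝ) : ℂ) * (ex (m * (x + (ψ₂ x + τ * (ψ₁ x - ψ₂ x)) / 2))
        * (starRingEnd ℂ) (ex (n * (x - (ψ₂ x + τ * (ψ₁ x - ψ₂ x)) / 2)))))) τ := by
      rw [hF]
      refine HasDerivAt.fun_sum fun m _ => HasDerivAt.fun_sum fun n _ => ?_
      exact (cc_deriv ψ₁ ψ₂ m n x τ).const_mul _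
    refine h5.congr_deriv ?_
    rw [hF']
    simp only
    unfold tp
    rw [map_sum, Finset.sum_mul_sum, Finset.mul_sum]
    refine Finset.sum_congr rfl fun m _ => ?_
    rw [Finset.mul_sum]
    refine Finset.sum_congr rfl fun n _ => ?_
    rw [map_mul]
    ring
  have hlP : ∀ x τ, HasDerivAt (fun t => P t x) (ψ₁ x - ψ₂ x) τ := by
    intro x τ
    have h : HasDerivAt (fun t : ℝ => t * (ψ₁ x - ψ₂ x)) (ψ₁ x - ψ₂ x) τ := by
      simpa using (hasDerivAt_id τ).mul_const (ψ₁ x - ψ₂ x)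
    exact h.const_add (ψ₂ x)
  have hF'd : ∀ x τ, HasDerivAt (fun t => F' t x) (F'' τ x) τ := by
    intro x τ
    have e1 : HasDerivAt (fun t => x + P t x / 2) ((ψ₁ x - ψ₂ x) / 2) τ :=
      ((hlP x τ).div_const 2).const_add x
    have e2 : HasDerivAt (fun t => x - P t x / 2) (-((ψ₁ x - ψ₂ x) / 2)) τ :=
      ((hlP x τ).div_const 2).const_sub x
    have d1 := (tp_hasDeriv S a (x + P τ x / 2)).scomp τ e1
    have d2 := ((tp_hasDeriv S b (x - P τ x / 2)).scomp τ e2).star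
    have d3 := (d1.mul d2).const_mul (((ψ₁ x - ψ₂ x : ℝ) : ℂ))
    refine d3.congr_deriv ?_
    rw [hF'']
    simp only [Function.comp, Complex.real_smul, Complex.star_def, map_mul,
      Complex.conj_I, Complex.conj_ofReal]
    push_cast
    ring
  -- bounds by constants
  have hbt : ∀ (U : Finset ℤ) (c : ℤ → ℂ) (x : ℝ), ‖tp U c x‖ ≤ ∑ m ∈ U, ‖c m‖ := by
    intro U c x
    unfold tp
    refine le_trans (norm_sum_le _ _) (Finset.sum_le_sum fun m _ => ?_)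
    rw [norm_mul, ex_norm, mul_one]
  have hnn : ∀ (c : ℤ → ℂ), 0 ≤ ∑ m ∈ S, ‖c m‖ := fun c => Finset.sum_nonneg fun m _ => norm_nonneg _
  set B := D * ((∑ m ∈ S, ‖a m‖) * ∑ m ∈ S, ‖b m‖) with hB
  have hF'b : ∀ τ x, ‖F' τ x‖ ≤ B := by
    intro τ x
    rw [hF', hB]
    simp only
    rw [norm_mul, norm_mul, Complex.norm_real, Real.norm_eq_abs, Complex.norm_conj]
    exact mul_le_mul (hD x) (mul_le_mul (hbt S a _) (hbt S b _) (norm_nonneg _) (hnn a)) (by positivity) hD0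
  set B2 := D ^ 2 / 2 * ((∑ m ∈ S, ‖ma m‖) * (∑ m ∈ S, ‖b m‖) + (∑ m ∈ S, ‖a m‖) * ∑ m ∈ S, ‖mb m‖) with hB2
  have hsq : ∀ x, (ψ₁ x - ψ₂ x) ^ 2 ≤ D ^ 2 := by
    intro x
    rw [← sq_abs (ψ₁ x - ψ₂ x)]
    exact pow_le_pow_left₀ (abs_nonneg _) (hD x) 2
  have hF''n : ∀ τ x, ‖F'' τ x‖ ≤ D ^ 2 / 2 * (‖tp S ma (x + P τ x / 2)‖ * ‖tp S b (x - P τ x / 2)‖
      + ‖tp S a (x + P τ x / 2)‖ * ‖tp S mb (x - P τ x / 2)‖) := by
    intro τ x
    rw [hF'']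
    simp only
    rw [norm_mul, norm_mul, Complex.norm_I, one_mul, Complex.norm_real, Real.norm_eq_abs,
      abs_of_nonneg (by positivity)]
    have h2 := norm_add_le (tp S ma (x + P τ x / 2) * (starRingEnd ℂ) (tp S b (x - P τ x / 2)))
      (tp S a (x + P τ x / 2) * (starRingEnd ℂ) (tp S mb (x - P τ x / 2)))
    rw [norm_mul, norm_mul, Complex.norm_conj, Complex.norm_conj] at h2
    exact mul_le_mul (by linarith [hsq x]) h2 (norm_nonneg _) (by positivity)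
  have hF''b : ∀ τ x, ‖F'' τ x‖ ≤ B2 := by
    intro τ x
    refine le_trans (hF''n τ x) ?_
    rw [hB2]
    refine mul_le_mul_of_nonneg_left (add_le_add ?_ ?_) (by positivity)
    · exact mul_le_mul (hbt S ma _) (hbt S b _) (norm_nonneg _) (hnn ma)
    · exact mul_le_mul (hbt S a _) (hbt S mb _) (norm_nonneg _) (hnn a)
  set G : ℝ → ℂ := fun τ => ∫ x in (0 : ℝ)..(2 * Real.pi), F τ x with hG
  set G' : ℝ → ℂ := fun τ => ∫ x in (0 : ℝ)..(2 * Real.pi), F' τ x with hG'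
  set G'' : ℝ → ℂ := fun τ => ∫ x in (0 : ℝ)..(2 * Real.pi), F'' τ x with hG''
  have hGd : ∀ τ, HasDerivAt G (G' τ) τ := by
    intro τ
    exact (intervalIntegral.hasDerivAt_integral_of_dominated_loc_of_deriv_le
      (μ := volume) (a := 0) (b := 2 * Real.pi) (F := F) (F' := F') (x₀ := τ) (s := Set.univ)
      (bound := fun _ => B) Filter.univ_mem
      (Filter.Eventually.of_forall fun t => (hFc t).aestronglyMeasurable)
      ((hFc τ).intervalIntegrable _ _) (hF'c τ).aestronglyMeasurable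
      (ae_of_all _ fun x _ t _ => hF'b t x) intervalIntegrable_const
      (ae_of_all _ fun x _ t _ => hFd x t)).2
  have hG'd : ∀ τ, HasDerivAt G' (G'' τ) τ := by
    intro τ
    exact (intervalIntegral.hasDerivAt_integral_of_dominated_loc_of_deriv_le
      (μ := volume) (a := 0) (b := 2 * Real.pi) (F := F') (F' := F'') (x₀ := τ) (s := Set.univ)
      (bound := fun _ => B2) Filter.univ_mem
      (Filter.Eventually.of_forall fun t => (hF'c t).aestronglyMeasurable)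
      ((hF'c τ).intervalIntegrable _ _) (hF''c τ).aestronglyMeasurable
      (ae_of_all _ fun x _ t _ => hF''b t x) intervalIntegrable_const
      (ae_of_all _ fun x _ t _ => hF'd x t)).2
  -- the second derivative
  set W := ∑ m ∈ S, (T + (m : ℝ) ^ 2 / T) * (‖a m‖ ^ 2 + ‖b m‖ ^ 2) with hW
  have hmm : ∀ c : ℤ → ℂ, ∑ m ∈ S, ‖(m : ℂ) * c m‖ ^ 2 = ∑ m ∈ S, (m : ℝ) ^ 2 * ‖c m‖ ^ 2 := by
    intro c
    refine Finset.sum_congr rfl fun m _ => ?_
    rw [norm_mul, mul_pow, ← Complex.ofReal_intCast, Complex.norm_real, Real.norm_eq_abs, sq_abs]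
  have hWe : W = 1 / T * ∑ m ∈ S, ‖ma m‖ ^ 2 + T * ∑ m ∈ S, ‖b m‖ ^ 2
      + (T * ∑ m ∈ S, ‖a m‖ ^ 2 + 1 / T * ∑ m ∈ S, ‖mb m‖ ^ 2) := by
    rw [hma, hmb]
    simp only
    rw [hmm a, hmm b, hW, Finset.mul_sum, Finset.mul_sum, Finset.mul_sum, Finset.mul_sum,
      ← Finset.sum_add_distrib, ← Finset.sum_add_distrib, ← Finset.sum_add_distrib]
    refine Finset.sum_congr rfl fun m _ => ?_
    ring
  have hG''n : ∀ τ, 0 ≤ τ → τ ≤ 1 → ‖G'' τ‖ ≤ κ * D ^ 2 / 4 * (2 * Real.pi * W) := by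
    intro τ h0' h1'
    have hsh := h₁.mix h₂ h0' h1'
    have m1 := shift_mul hsh hκ (θ := 1 / T) (by positivity) hs S S ma b
    have m2 := shift_mul hsh hκ (θ := T) hT hs S S a mb
    have i1 : IntervalIntegrable (fun x => ‖tp S ma (x + P τ x / 2)‖ * ‖tp S b (x - P τ x / 2)‖)
      volume 0 (2 * Real.pi) := ((cA S ma τ).norm.mul (cB S b τ).norm).intervalIntegrable _ _
    have i2 : IntervalIntegrable (fun x => ‖tp S a (x + P τ x / 2)‖ * ‖tp S mb (x - P τ x / 2)‖)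
      volume 0 (2 * Real.pi) := ((cA S a τ).norm.mul (cB S mb τ).norm).intervalIntegrable _ _
    have hn := intervalIntegral.norm_integral_le_of_norm_le (μ := volume) (a := 0) (b := 2 * Real.pi)
      (f := F'' τ) (g := fun x => D ^ 2 / 2 * (‖tp S ma (x + P τ x / 2)‖ * ‖tp S b (x - P τ x / 2)‖
        + ‖tp S a (x + P τ x / 2)‖ * ‖tp S mb (x - P τ x / 2)‖)) (by positivity)
      (ae_of_all _ fun x _ => hF''n τ x) ((i1.add i2).const_mul _)
    rw [intervalIntegral.integral_const_mul, intervalIntegral.integral_add i1 i2] at hn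
    refine le_trans hn ?_
    have hD2 : 0 ≤ D ^ 2 / 2 := by positivity
    rw [one_div_one_div] at m1
    calc _ ≤ D ^ 2 / 2 * (κ / 2 * (2 * Real.pi * (1 / T * ∑ m ∈ S, ‖ma m‖ ^ 2 + T * ∑ m ∈ S, ‖b m‖ ^ 2))
          + κ / 2 * (2 * Real.pi * (T * ∑ m ∈ S, ‖a m‖ ^ 2 + 1 / T * ∑ m ∈ S, ‖mb m‖ ^ 2))) :=
          mul_le_mul_of_nonneg_left (add_le_add m1 m2) hD2
      _ = κ * D ^ 2 / 4 * (2 * Real.pi * W) := by rw [hWe]; ring
  -- concavity
  set C := κ * D ^ 2 / 2 * W with hC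
  have hre : ∀ (g : ℝ → ℂ) (g' : ℂ) (τ : ℝ), HasDerivAt g g' τ →
      HasDerivAt (fun t => -(1 / Real.pi) * (g t).im) (-(1 / Real.pi) * g'.im) τ := by
    intro g g' τ hg
    have h2 : HasDerivAt (fun t => (g t).im) g'.im τ := by
      have h3 := (Complex.imCLM.hasFDerivAt (x := g τ)).comp_hasDerivAt τ hg
      exact h3
    exact h2.const_mul _
  set φ : ℝ → ℝ := fun τ => -(1 / Real.pi) * (G τ).im - C / 2 * τ ^ 2 with hφ
  set φ' : ℝ → ℝ := fun τ => -(1 / Real.pi) * (G' τ).im - C * τ with hφ'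
  set φ'' : ℝ → ℝ := fun τ => -(1 / Real.pi) * (G'' τ).im - C with hφ''
  have hd1 : ∀ τ, HasDerivAt φ (φ' τ) τ := by
    intro τ
    have h2 := (hre G (G' τ) τ (hGd τ)).sub (((hasDerivAt_id τ).pow 2).const_mul (C / 2))
    refine h2.congr_deriv ?_
    rw [hφ']
    simp only [id]
    push_cast
    ring
  have hd2 : ∀ τ, HasDerivAt φ' (φ'' τ) τ := by
    intro τ
    have h2 := (hre G' (G'' τ) τ (hG'd τ)).sub ((hasDerivAt_id τ).const_mul C)
    refine h2.congr_deriv ?_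
    rw [hφ'']
    ring
  have hφc : Continuous φ := continuous_iff_continuousAt.2 fun τ => (hd1 τ).continuousAt
  have hconc : ConcaveOn ℝ (Set.Icc (0 : ℝ) 1) φ := by
    refine concaveOn_of_hasDerivWithinAt2_nonpos (convex_Icc 0 1) hφc.continuousOn
      (fun τ _ => (hd1 τ).hasDerivWithinAt) (fun τ _ => (hd2 τ).hasDerivWithinAt) ?_
    intro τ hτ
    rw [interior_Icc] at hτ
    have h2 := hG''n τ hτ.1.le hτ.2.le
    have h3 := (abs_le.1 (le_trans (Complex.abs_im_le_norm (G'' τ)) h2)).1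
    rw [hφ'']
    simp only
    have h4 : -(1 / Real.pi) * (G'' τ).im ≤ 1 / Real.pi * (κ * D ^ 2 / 4 * (2 * Real.pi * W)) := by
      have h5 : -(G'' τ).im ≤ κ * D ^ 2 / 4 * (2 * Real.pi * W) := by linarith
      have h6 := mul_le_mul_of_nonneg_left h5 (by positivity : (0 : ℝ) ≤ 1 / Real.pi)
      linarith
    have h7 : 1 / Real.pi * (κ * D ^ 2 / 4 * (2 * Real.pi * W)) = C := by
      rw [hC]
      field_simp
      ring
    linarith
  have hfin := hconc.2 (Set.left_mem_Icc.2 zero_le_one) (Set.right_mem_Icc.2 zero_le_one)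
    (sub_nonneg.2 h1) h0 (by ring : 1 - σ + σ = 1)
  simp only [smul_eq_mul, mul_zero, mul_one, zero_add] at hfin
  -- the values
  have hval : ∀ τ, -2 * (∑ m ∈ S, ∑ n ∈ S, a m * (starRingEnd ℂ) (b n) * KK (P τ) m n).im
      = -(1 / Real.pi) * (G τ).im := by
    intro τ
    have e2 : ∑ m ∈ S, ∑ n ∈ S, a m * (starRingEnd ℂ) (b n) * KK (P τ) m n
        = (1 / (2 * Real.pi) : ℂ) * G τ := by
      rw [hG]
      simp only
      rw [hF]
      simp only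
      rw [intervalIntegral.integral_finsetSum, Finset.mul_sum]
      · refine Finset.sum_congr rfl fun m _ => ?_
        rw [intervalIntegral.integral_finsetSum, Finset.mul_sum]
        · refine Finset.sum_congr rfl fun n _ => ?_
          rw [intervalIntegral.integral_const_mul, KK_cc]
          ring
        · intro n _
          exact (continuous_const.mul (cc_cont (hPc τ) m n)).intervalIntegrable _ _
      · intro m _
        exact (continuous_finsetSum _ fun n _ =>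
          continuous_const.mul (cc_cont (hPc τ) m n)).intervalIntegrable _ _
    rw [e2, show (1 / (2 * Real.pi) : ℂ) = ((1 / (2 * Real.pi) : ℝ) : ℂ) by push_cast; ring,
      Complex.im_ofReal_mul]
    field_simp
  have v0 := hval 0
  have v1 := hval 1
  have vσ := hval σ
  have p0 : P 0 = ψ₂ := by
    funext y
    rw [hP]
    ring
  have p1 : P 1 = ψ₁ := by
    funext y
    rw [hP]
    ring
  rw [p0] at v0
  rw [p1] at v1
  rw [v0, v1]
  have vσ' : -2 * (∑ m ∈ S, ∑ n ∈ S, a m * (starRingEnd ℂ) (b n)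
      * KK (fun x => ψ₂ x + σ * (ψ₁ x - ψ₂ x)) m n).im = -(1 / Real.pi) * (G σ).im := vσ
  rw [vσ']
  have hW0 : 0 ≤ W := by
    rw [hW]
    exact Finset.sum_nonneg fun m _ => by positivity
  have hC0 : 0 ≤ C := by
    rw [hC]
    positivity
  have e3 : φ 0 = -(1 / Real.pi) * (G 0).im := by
    rw [hφ]
    ring
  have e4 : φ 1 = -(1 / Real.pi) * (G 1).im - C / 2 := by
    rw [hφ]
    ring
  have e5 : φ σ = -(1 / Real.pi) * (G σ).im - C / 2 * σ ^ 2 := rfl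
  rw [e3, e4, e5] at hfin
  have e6 : κ * D ^ 2 / 16 * W = C / 8 := by
    rw [hC]
    ring
  rw [e6]
  nlinarith [mul_nonneg hC0 (sq_nonneg (2 * σ - 1))]

end Pool.Agent.Helper46.RC.CW
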