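import Pool.Agent.Helper41.RC.M_RG
import Pool.Agent.Helper46.RC.CrossW

/-!
# Project RC / SHARP, link (7): passage from the head certificate to all sections with frequency weights

`rest_gen2`: as `rest_gen` of helper41; the low frequencies of the head pay `m² / K⁴` only, the extra local form of the
tail may depend on the frequency.
-/

open MeasureTheory Set Filter

namespace Pool.Agent.Helper46.RC.CW

open Helper41.RC
open Helper49.LT (ee)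
open Pool.Agent.Helper99.RC (ps NS ent)

/-- the charge of the frequency `m` of the head -/
noncomputable def om (κ c₁ c₂ θ₁ θ₂ : ℝ) (m : ℝ) : ℝ := κ * (c₁ * m ^ 2 / θ₁ + c₂ / θ₂)

/-- the charge of the tail -/
noncomputable def tt (K : ℕ) (R κ c₁ c₂ θ₁ θ₂ : ℝ) : ℝ := R / K + κ * (c₁ * θ₁ + c₂ * θ₂) / (K : ℝ) ^ 4

/-- THE PASSAGE with frequency weights: head certificate at `(d', k')` gives all sections at `(d, k)`. -/
theorem rest_gen2 {d k d' k' ph f : ℝ} {bil e2 e3 gs gp gr gs' gp' gr' ez ep er : ℤ → ℝ} {EH ES : Seq3} {K N : ℕ}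
    (hbil : ∀ n, |bil n| ≤ 1) (hK : 1 ≤ K) (hN : K + 1 ≤ N)
    (head : HeadG d' k' ph bil f e2 e3 EH gs gp gr K)
    {σ R κ D c₁ c₂ θ₁ θ₂ : ℝ} (hσ1 : σ < 1) (hk : 3 / 2 * |k| ≤ σ) (hk' : 3 / 2 * |k'| ≤ σ)
    (hR : 0 < R) (hRσ : 1 + σ ≤ R ^ 2 * (1 - σ)) (hκ : 0 < κ) (hκσ : 1 ≤ κ ^ 2 * (1 - σ ^ 2))
    (hD : |d - d'| + |k - k'| ≤ D) (hf : 0 ≤ f)
    (hc₁ : (1 + σ) ^ 2 ≤ c₁ * (1 - σ)) (hc₂ : 9 * |k| ≤ c₂ * (1 - σ) ^ 2) (hθ₁ : 0 < θ₁) (hθ₂ : 0 < θ₂)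
    (hE : ∀ p r s : ℤ → ℂ, Par p r s → EH p r s
      - ∑ n ∈ Finset.Icc (-((N : ℤ) + 1)) (N + 1), (ez n * ‖s n‖ ^ 2 + ep n * ‖p n‖ ^ 2 + er n * ‖r n‖ ^ 2)
        ≤ ES p r s)
    (hs : ∀ n : ℤ, |n| ≤ K → gs' n ≤ gs n - 2 * (D * κ + om κ c₁ c₂ θ₁ θ₂ (n + 1)) - ez n)
    (hp : ∀ n : ℤ, |n| ≤ K → gp' n ≤ gp n - 6 * (D * κ + om κ c₁ c₂ θ₁ θ₂ (n + 1)) - ep n)
    (hr : ∀ n : ℤ, |n| ≤ K → gr' n ≤ gr n - 147 / 16 * (D * κ + om κ c₁ c₂ θ₁ θ₂ (n + 1)) - er n)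
    (ts : ∀ n : ℤ, (K : ℤ) < |n| → gs' n ≤ f / 2 - 2 / K - 2 * tt K R κ c₁ c₂ θ₁ θ₂ - ez n)
    (tp' : ∀ n : ℤ, (K : ℤ) < |n| → gp' n ≤ e2 n - 18 / K - 6 * tt K R κ c₁ c₂ θ₁ θ₂ - ep n)
    (tr : ∀ n : ℤ, (K : ℤ) < |n| → gr' n ≤ e3 n - 159 / 8 / K - 147 / 16 * tt K R κ c₁ c₂ θ₁ θ₂ - er n) :
    RestG d k ph bil f e2 e3 ES gs' gp' gr' N := by
  intro p r s hP
  set H := Finset.Icc (1 - (K : ℤ)) (1 + K) with hH
  set M := Finset.Icc (-(N : ℤ)) N with hM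
  set LH := Finset.Icc (-(K : ℤ)) K with hLH
  set L := Finset.Icc (-((N : ℤ) + 1)) (N + 1) with hL
  have hHM : H ⊆ M := by
    intro m hm
    rw [hH, Finset.mem_Icc] at hm
    rw [hM, Finset.mem_Icc]
    omega
  have hLHL : LH ⊆ L := by
    intro m hm
    rw [hLH, Finset.mem_Icc] at hm
    rw [hL, Finset.mem_Icc]
    omega
  set T := M \ H with hT
  set LT := L \ LH with hLT
  have hK0 : (0 : ℝ) < K := by exact_mod_cast hK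
  have hTm : ∀ m ∈ T, (K : ℝ) ≤ |(m : ℝ)| := by
    intro m hm
    rw [hT, Finset.mem_sdiff, hH, hM, Finset.mem_Icc, Finset.mem_Icc] at hm
    have h1 : (K : ℤ) ≤ |m| := by
      rcases le_total 0 m with h0 | h0
      · rw [abs_of_nonneg h0]
        omega
      · rw [abs_of_nonpos h0]
        omega
    have h2 : ((K : ℤ) : ℝ) ≤ ((|m| : ℤ) : ℝ) := by exact_mod_cast h1
    rw [Int.cast_abs] at h2
    exact_mod_cast h2
  have hTL : ∀ g : ℤ → ℝ, (∀ n, 0 ≤ g n) → ∑ m ∈ T, g (m - 1) ≤ ∑ n ∈ LT, g n := by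
    intro g hg
    have h1 : ∑ m ∈ T, g (m - 1) = ∑ n ∈ T.image (fun m => m - 1), g n := by
      rw [Finset.sum_image]
      intro a _ b _ hab
      simpa using hab
    rw [h1]
    refine Finset.sum_le_sum_of_subset_of_nonneg ?_ fun n _ _ => hg n
    intro n hn
    rw [Finset.mem_image] at hn
    obtain ⟨m, hm, rfl⟩ := hn
    rw [hT, Finset.mem_sdiff, hH, hM, Finset.mem_Icc, Finset.mem_Icc] at hm
    rw [hLT, Finset.mem_sdiff, hL, hLH, Finset.mem_Icc, Finset.mem_Icc]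
    omega
  have hsh := Pool.Agent.Helper99.RC.ps
  -- the two shifts
  have hs0 : 0 ≤ σ := le_trans (by positivity) hk
  have eps : ∀ d k : ℝ, ps d k ph = fun x => -d + k * Real.sin (3 * x + ph) := fun d k => rfl
  have g1 := shift_sin (-d) k ph (by linarith)
  have g1' : Shift (ps d k ph) (fun x => 3 * k * Real.cos (3 * x + ph)) σ := by
    rw [eps]
    exact ⟨g1.d, g1.c, g1.p, fun x => le_trans (g1.b x) (by linarith), hσ1⟩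
  have g2 : Shift2 (ps d k ph) (fun x => 3 * k * Real.cos (3 * x + ph)) (fun x => -(9 * k * Real.sin (3 * x + ph)))
      σ (9 * |k|) := by
    refine ⟨g1', ?_, by fun_prop, ?_, ?_⟩
    · intro x
      have h1 : HasDerivAt (fun y : ℝ => 3 * y + ph) 3 x := by
        simpa using ((hasDerivAt_id x).const_mul 3).add_const ph
      have h2 := (h1.cos).const_mul (3 * k)
      refine h2.congr_deriv ?_
      ring
    · intro x
      rw [show 3 * (x + 2 * Real.pi) + ph = 3 * x + ph + (3 : ℕ) * (2 * Real.pi) by push_cast; ring,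
        Real.cos_add_nat_mul_two_pi]
    · intro x
      rw [abs_neg, abs_mul, abs_mul, abs_of_pos (by norm_num : (0 : ℝ) < 9)]
      have h1 := Real.abs_sin_le_one (3 * x + ph)
      have h2 := abs_nonneg k
      nlinarith
  set a := aw p r s with ha
  set b := bw p r s with hb
  set DS : Finset ℤ → Finset ℤ → (ℝ → ℝ) → ℂ := fun A B ψ =>
    ∑ m ∈ A, ∑ n ∈ B, a m * (starRingEnd ℂ) (b n) * KK ψ m n with hDS
  have hsplit : DS M M (ps d k ph) = DS H H (ps d' k' ph) + (DS H H (ps d k ph) - DS H H (ps d' k' ph))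
      + DS T T (ps d k ph) + DS T H (ps d k ph) + DS H T (ps d k ph) := by
    have h1 : DS M M (ps d k ph) = DS T M (ps d k ph) + DS H M (ps d k ph) := by
      rw [hDS]
      simp only
      rw [hT, Finset.sum_sdiff hHM]
    have h3 : DS T M (ps d k ph) = DS T T (ps d k ph) + DS T H (ps d k ph) := by
      rw [hDS]
      simp only
      rw [← Finset.sum_add_distrib]
      refine Finset.sum_congr rfl fun m _ => ?_
      rw [hT, Finset.sum_sdiff hHM]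
    have h2 : DS H M (ps d k ph) = DS H T (ps d k ph) + DS H H (ps d k ph) := by
      rw [hDS]
      simp only
      rw [← Finset.sum_add_distrib]
      refine Finset.sum_congr rfl fun m _ => ?_
      rw [hT, Finset.sum_sdiff hHM]
    rw [h1, h2, h3]
    ring
  -- the three estimates
  have E1 : 2 * ‖DS H H (ps d k ph) - DS H H (ps d' k' ph)‖
      ≤ D * κ * (∑ m ∈ H, ‖a m‖ ^ 2 + ∑ m ∈ H, ‖b m‖ ^ 2) := by
    have h1 := pert_sin (-d) k (-d') k' ph σ hk hk' hσ1 hκ hκσ H H a b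
    have h2 : DS H H (ps d k ph) - DS H H (ps d' k' ph)
        = ∑ m ∈ H, ∑ n ∈ H, a m * (starRingEnd ℂ) (b n) * (KK (ps d k ph) m n - KK (ps d' k' ph) m n) := by
      rw [hDS]
      simp only
      rw [← Finset.sum_sub_distrib]
      refine Finset.sum_congr rfl fun m _ => ?_
      rw [← Finset.sum_sub_distrib]
      refine Finset.sum_congr rfl fun n _ => ?_
      ring
    rw [h2]
    refine le_trans h1 ?_
    have h3 : |-d - -d'| = |d - d'| := by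
      rw [show -d - -d' = -(d - d') by ring, abs_neg]
    rw [h3]
    have h4 : 0 ≤ ∑ m ∈ H, ‖a m‖ ^ 2 + ∑ m ∈ H, ‖b m‖ ^ 2 :=
      add_nonneg (Finset.sum_nonneg fun m _ => by positivity) (Finset.sum_nonneg fun m _ => by positivity)
    exact mul_le_mul_of_nonneg_right (mul_le_mul_of_nonneg_right hD hκ.le) h4
  have E2 := cross_a g1' T T hK0 hTm hR hRσ one_pos a b
  have E2' := cross_a2 g2 T H hK0 hTm hκ hκσ hc₁ hc₂ hθ₁ hθ₂ a b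
  have E3 := cross_b2 g2 H T hK0 hTm hκ hκσ hc₁ hc₂ hθ₁ hθ₂ a b
  -- the head
  have hd := head p r s hP
  have hEE := hE p r s hP
  rw [HG_eq d' k' ph bil f e2 e3 K hK p r s] at hd
  unfold RG MG at hd
  unfold RG MG
  -- sums over M and L
  have hXM : ∑ m ∈ M, Xg bil p r s m / (m : ℝ) = ∑ m ∈ T, Xg bil p r s m / (m : ℝ)
      + ∑ m ∈ H, Xg bil p r s m / (m : ℝ) := by
    rw [hT, Finset.sum_sdiff hHM]
  have hLL : ∀ g : ℤ → ℝ, ∑ n ∈ L, g n = ∑ n ∈ LT, g n + ∑ n ∈ LH, g n := by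
    intro g
    rw [hLT, Finset.sum_sdiff hLHL]
  have hXT : -(∑ m ∈ T, (2 * ‖s (m - 1)‖ ^ 2 + 18 * ‖p (m - 1)‖ ^ 2 + 159 / 8 * ‖r (m - 1)‖ ^ 2)) / K
      ≤ ∑ m ∈ T, Xg bil p r s m / (m : ℝ) := by
    rw [neg_div, Finset.sum_div, ← Finset.sum_neg_distrib]
    refine Finset.sum_le_sum fun m hm => ?_
    have h1 := Xg_le hbil hP m
    have h2 := hTm m hm
    have h3 : |Xg bil p r s m / (m : ℝ)| ≤ (2 * ‖s (m - 1)‖ ^ 2 + 18 * ‖p (m - 1)‖ ^ 2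
        + 159 / 8 * ‖r (m - 1)‖ ^ 2) / K := by
      rw [abs_div]
      exact div_le_div₀ (by positivity) h1 hK0 h2
    exact (abs_le.1 h3).1
  have hXT2 : ∑ m ∈ T, (2 * ‖s (m - 1)‖ ^ 2 + 18 * ‖p (m - 1)‖ ^ 2 + 159 / 8 * ‖r (m - 1)‖ ^ 2)
      ≤ ∑ n ∈ LT, (2 * ‖s n‖ ^ 2 + 18 * ‖p n‖ ^ 2 + 159 / 8 * ‖r n‖ ^ 2) :=
    hTL (fun n => 2 * ‖s n‖ ^ 2 + 18 * ‖p n‖ ^ 2 + 159 / 8 * ‖r n‖ ^ 2) fun n => by positivity
  have hTl : ∑ m ∈ T, (‖a m‖ ^ 2 + ‖b m‖ ^ 2) ≤ ∑ n ∈ LT, Vw p r s n := by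
    refine le_trans (Finset.sum_le_sum fun m _ => ab_le hP m) ?_
    exact hTL (Vw p r s) fun n => by unfold Vw; positivity
  have hHV : ∑ m ∈ H, ‖a m‖ ^ 2 + ∑ m ∈ H, ‖b m‖ ^ 2 ≤ ∑ n ∈ LH, Vw p r s n := by
    rw [← Finset.sum_add_distrib]
    refine le_trans (Finset.sum_le_sum fun m _ => ab_le hP m) ?_
    rw [hH, shift_idx (K : ℤ) (Vw p r s)]
  have hom0 : ∀ m : ℝ, 0 ≤ om κ c₁ c₂ θ₁ θ₂ m := by
    intro m
    have h1 : 0 ≤ c₁ := by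
      by_contra hc
      have : c₁ * (1 - σ) ≤ 0 := mul_nonpos_of_nonpos_of_nonneg (not_le.1 hc).le (by linarith)
      nlinarith
    have h2 : 0 ≤ c₂ := by
      by_contra hc
      have : c₂ * (1 - σ) ^ 2 < 0 := mul_neg_of_neg_of_pos (not_le.1 hc) (by nlinarith)
      nlinarith [abs_nonneg k]
    unfold om
    positivity
  have hHo : ∑ m ∈ H, om κ c₁ c₂ θ₁ θ₂ m * (‖a m‖ ^ 2 + ‖b m‖ ^ 2)
      ≤ ∑ n ∈ LH, om κ c₁ c₂ θ₁ θ₂ (n + 1) * Vw p r s n := by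
    refine le_trans (Finset.sum_le_sum fun m _ => mul_le_mul_of_nonneg_left (ab_le hP m) (hom0 m)) ?_
    have h1 := shift_idx (K : ℤ) (fun n => om κ c₁ c₂ θ₁ θ₂ ((n : ℝ) + 1) * Vw p r s n)
    rw [hH, hLH, ← h1]
    refine le_of_eq (Finset.sum_congr rfl fun m _ => ?_)
    push_cast
    rw [sub_add_cancel]
  -- the local part of the tail
  have hLTs : ∑ n ∈ LT, (f / 2 * ‖s n‖ ^ 2 + e2 n * ‖p n‖ ^ 2 + e3 n * ‖r n‖ ^ 2)
      ≤ ∑ n ∈ LT, Lg f e2 e3 p r s n := by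
    have hsym : ∑ n ∈ LT, ‖s (-n)‖ ^ 2 = ∑ n ∈ LT, ‖s n‖ ^ 2 := by
      refine Finset.sum_nbij' (fun n => -n) (fun n => -n) ?_ ?_ ?_ ?_ ?_
      · intro n hn
        rw [hLT, Finset.mem_sdiff, hL, hLH, Finset.mem_Icc, Finset.mem_Icc] at hn ⊢
        omega
      · intro n hn
        rw [hLT, Finset.mem_sdiff, hL, hLH, Finset.mem_Icc, Finset.mem_Icc] at hn ⊢
        omega
      · intro n _
        ring
      · intro n _
        ring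
      · intro n _
        rfl
    have h1 : ∀ n, f * (1 / 2 * ‖s n‖ ^ 2 + 1 / 4 * (‖s n‖ ^ 2 - ‖s (-n)‖ ^ 2)) + e2 n * ‖p n‖ ^ 2
        + e3 n * ‖r n‖ ^ 2 ≤ Lg f e2 e3 p r s n := by
      intro n
      unfold Lg
      have h2 : |(s n * s (-n)).re| ≤ ‖s n‖ * ‖s (-n)‖ := by
        refine le_trans (Complex.abs_re_le_norm _) ?_
        rw [norm_mul]
      have h3 := (abs_le.1 h2).1
      have h4 : 1 / 2 * ‖s n‖ ^ 2 + 1 / 4 * (‖s n‖ ^ 2 - ‖s (-n)‖ ^ 2)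
          ≤ ‖s n‖ ^ 2 + 1 / 2 * (s n * s (-n)).re := by
        nlinarith [sq_nonneg (‖s n‖ - ‖s (-n)‖)]
      have h5 := mul_le_mul_of_nonneg_left h4 hf
      linarith
    refine le_trans (le_of_eq ?_) (Finset.sum_le_sum fun n _ => h1 n)
    have h6 : ∑ n ∈ LT, (f * (1 / 2 * ‖s n‖ ^ 2 + 1 / 4 * (‖s n‖ ^ 2 - ‖s (-n)‖ ^ 2)) + e2 n * ‖p n‖ ^ 2
        + e3 n * ‖r n‖ ^ 2) = ∑ n ∈ LT, (f / 2 * ‖s n‖ ^ 2 + e2 n * ‖p n‖ ^ 2 + e3 n * ‖r n‖ ^ 2)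
          + f / 4 * (∑ n ∈ LT, ‖s n‖ ^ 2 - ∑ n ∈ LT, ‖s (-n)‖ ^ 2) := by
      rw [← Finset.sum_sub_distrib, Finset.mul_sum, ← Finset.sum_add_distrib]
      refine Finset.sum_congr rfl fun n _ => ?_
      ring
    rw [h6, hsym, sub_self, mul_zero, add_zero]
  -- coefficientwise
  set τ := tt K R κ c₁ c₂ θ₁ θ₂ with hτ
  set w : ℝ → ℝ := om κ c₁ c₂ θ₁ θ₂ with hw
  set e : ℤ → ℝ := fun n => ez n * ‖s n‖ ^ 2 + ep n * ‖p n‖ ^ 2 + er n * ‖r n‖ ^ 2 with he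
  have F1 : ∑ n ∈ LH, (gs' n * ‖s n‖ ^ 2 + gp' n * ‖p n‖ ^ 2 + gr' n * ‖r n‖ ^ 2)
      + ∑ n ∈ LH, (D * κ + w (n + 1)) * Vw p r s n + ∑ n ∈ LH, e n
      ≤ ∑ n ∈ LH, (gs n * ‖s n‖ ^ 2 + gp n * ‖p n‖ ^ 2 + gr n * ‖r n‖ ^ 2) := by
    rw [← Finset.sum_add_distrib, ← Finset.sum_add_distrib]
    refine Finset.sum_le_sum fun n hn => ?_
    have hnK : |n| ≤ (K : ℤ) := by
      rw [hLH, Finset.mem_Icc] at hn
      exact abs_le.2 hn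
    have h1 := mul_le_mul_of_nonneg_right (hs n hnK) (sq_nonneg ‖s n‖)
    have h2 := mul_le_mul_of_nonneg_right (hp n hnK) (sq_nonneg ‖p n‖)
    have h3 := mul_le_mul_of_nonneg_right (hr n hnK) (sq_nonneg ‖r n‖)
    rw [he]
    unfold Vw
    simp only
    linarith
  have F2 : ∑ n ∈ LT, (gs' n * ‖s n‖ ^ 2 + gp' n * ‖p n‖ ^ 2 + gr' n * ‖r n‖ ^ 2)
      + τ * ∑ n ∈ LT, Vw p r s n + ∑ n ∈ LT, e n
      ≤ ∑ n ∈ LT, (f / 2 * ‖s n‖ ^ 2 + e2 n * ‖p n‖ ^ 2 + e3 n * ‖r n‖ ^ 2)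
        - (∑ n ∈ LT, (2 * ‖s n‖ ^ 2 + 18 * ‖p n‖ ^ 2 + 159 / 8 * ‖r n‖ ^ 2)) / K := by
    rw [Finset.mul_sum, Finset.sum_div, ← Finset.sum_add_distrib, ← Finset.sum_add_distrib,
      ← Finset.sum_sub_distrib]
    refine Finset.sum_le_sum fun n hn => ?_
    have hnK : (K : ℤ) < |n| := by
      rw [hLT, Finset.mem_sdiff] at hn
      by_contra h
      exact hn.2 (by rw [hLH, Finset.mem_Icc]; exact abs_le.1 (not_lt.1 h))
    have h1 := mul_le_mul_of_nonneg_right (ts n hnK) (sq_nonneg ‖s n‖)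
    have h2 := mul_le_mul_of_nonneg_right (tp' n hnK) (sq_nonneg ‖p n‖)
    have h3 := mul_le_mul_of_nonneg_right (tr n hnK) (sq_nonneg ‖r n‖)
    rw [he]
    unfold Vw
    simp only
    have h4 : (2 * ‖s n‖ ^ 2 + 18 * ‖p n‖ ^ 2 + 159 / 8 * ‖r n‖ ^ 2) / (K : ℝ)
        = 2 / K * ‖s n‖ ^ 2 + 18 / K * ‖p n‖ ^ 2 + 159 / 8 / K * ‖r n‖ ^ 2 := by
      ring
    rw [h4]
    linarith
  have ht0 : 0 ≤ τ := by
    have h1 : 0 ≤ c₁ := by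
      by_contra hc
      have : c₁ * (1 - σ) ≤ 0 := mul_nonpos_of_nonpos_of_nonneg (not_le.1 hc).le (by linarith)
      nlinarith
    have h2 : 0 ≤ c₂ := by
      by_contra hc
      have : c₂ * (1 - σ) ^ 2 < 0 := mul_neg_of_neg_of_pos (not_le.1 hc) (by nlinarith)
      nlinarith [abs_nonneg k]
    rw [hτ]
    unfold tt
    positivity
  have F4 : τ * ∑ m ∈ T, (‖a m‖ ^ 2 + ‖b m‖ ^ 2) ≤ τ * ∑ n ∈ LT, Vw p r s n :=
    mul_le_mul_of_nonneg_left hTl ht0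
  have hDκ : 0 ≤ D * κ := mul_nonneg (le_trans (by positivity) hD) hκ.le
  have F5 : (D * κ) * (∑ m ∈ H, ‖a m‖ ^ 2 + ∑ m ∈ H, ‖b m‖ ^ 2)
      + ∑ m ∈ H, w m * (‖a m‖ ^ 2 + ‖b m‖ ^ 2) ≤ ∑ n ∈ LH, (D * κ + w (n + 1)) * Vw p r s n := by
    have h1 := mul_le_mul_of_nonneg_left hHV hDκ
    have h2 : ∑ n ∈ LH, (D * κ + w (n + 1)) * Vw p r s n
        = D * κ * ∑ n ∈ LH, Vw p r s n + ∑ n ∈ LH, w (n + 1) * Vw p r s n := by
      rw [Finset.mul_sum, ← Finset.sum_add_distrib]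
      exact Finset.sum_congr rfl fun n _ => by ring
    rw [h2]
    exact add_le_add h1 hHo
  have F6 : -(∑ n ∈ LT, (2 * ‖s n‖ ^ 2 + 18 * ‖p n‖ ^ 2 + 159 / 8 * ‖r n‖ ^ 2)) / K
      ≤ ∑ m ∈ T, Xg bil p r s m / (m : ℝ) := by
    refine le_trans ?_ hXT
    rw [neg_div, neg_div, neg_le_neg_iff]
    exact div_le_div_of_nonneg_right hXT2 hK0.le
  have F7 : R / K * (1 * ∑ m ∈ T, ‖a m‖ ^ 2 + 1 / 1 * ∑ m ∈ T, ‖b m‖ ^ 2)
      + (κ * (c₁ * θ₁ + c₂ * θ₂) / (K : ℝ) ^ 4 * ∑ m ∈ T, ‖a m‖ ^ 2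
        + ∑ n ∈ H, κ * (c₁ * (n : ℝ) ^ 2 / θ₁ + c₂ / θ₂) * ‖b n‖ ^ 2)
      + (κ * (c₁ * θ₁ + c₂ * θ₂) / (K : ℝ) ^ 4 * ∑ m ∈ T, ‖b m‖ ^ 2
        + ∑ n ∈ H, κ * (c₁ * (n : ℝ) ^ 2 / θ₁ + c₂ / θ₂) * ‖a n‖ ^ 2)
      = τ * ∑ m ∈ T, (‖a m‖ ^ 2 + ‖b m‖ ^ 2) + ∑ m ∈ H, w m * (‖a m‖ ^ 2 + ‖b m‖ ^ 2) := by
    have h1 : ∑ m ∈ H, w m * (‖a m‖ ^ 2 + ‖b m‖ ^ 2) =
        ∑ n ∈ H, κ * (c₁ * (n : ℝ) ^ 2 / θ₁ + c₂ / θ₂) * ‖b n‖ ^ 2
          + ∑ n ∈ H, κ * (c₁ * (n : ℝ) ^ 2 / θ₁ + c₂ / θ₂) * ‖a n‖ ^ 2 := by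
      rw [← Finset.sum_add_distrib]
      refine Finset.sum_congr rfl fun n _ => ?_
      rw [hw]
      unfold om
      ring
    rw [h1, Finset.sum_add_distrib, hτ]
    unfold tt
    ring
  have him : 2 * (DS M M (ps d k ph)).im ≤ 2 * (DS H H (ps d' k' ph)).im
      + 2 * ‖DS H H (ps d k ph) - DS H H (ps d' k' ph)‖ + 2 * ‖DS T T (ps d k ph)‖
      + 2 * ‖DS T H (ps d k ph)‖ + 2 * ‖DS H T (ps d k ph)‖ := by
    rw [hsplit]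
    simp only [Complex.add_im]
    have h1 := (abs_le.1 (Complex.abs_im_le_norm (DS H H (ps d k ph) - DS H H (ps d' k' ph)))).2
    have h2 := (abs_le.1 (Complex.abs_im_le_norm (DS T T (ps d k ph)))).2
    have h3 := (abs_le.1 (Complex.abs_im_le_norm (DS T H (ps d k ph)))).2
    have h4 := (abs_le.1 (Complex.abs_im_le_norm (DS H T (ps d k ph)))).2
    linarith
  have eDS : ∀ (A B : Finset ℤ) (ψ : ℝ → ℝ), ∑ m ∈ A, ∑ n ∈ B, a m * (starRingEnd ℂ) (b n) * KK ψ m n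
      = DS A B ψ := fun A B ψ => rfl
  have eE : ∑ n ∈ L, (ez n * ‖s n‖ ^ 2 + ep n * ‖p n‖ ^ 2 + er n * ‖r n‖ ^ 2)
      = ∑ n ∈ LT, e n + ∑ n ∈ LH, e n := hLL e
  rw [eDS] at hd E2 E2' E3
  rw [eDS, hXM, hLL, hLL]
  rw [neg_div] at F6
  rw [eE] at hEE
  linarith

end Pool.Agent.Helper46.RC.CW
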