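import Pool.Agent.Helper31.RC.Bes2

/-!
# Kernel computable enclosures of Bessel functions (fixed point, natural numbers only)

`y = a / b`. `bJ SC a b n r = (el, eh, ol, oh, lo, hi)`: after `r` double steps `el/SC ≤ (even terms) ≤ eh/SC`,
`ol/SC ≤ (odd terms) ≤ oh/SC` of the power series of `J_n(a/b)`, `lo/SC ≤ t_{2r} ≤ hi/SC`.
-/

namespace Pool.Agent.Helper46.RC.BesK

open Helper31.Bes

/-- the (unsigned) term of the power series -/
noncomputable def tm (n m : ℕ) (y : ℝ) : ℝ :=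
  (y / 2) ^ (2 * m + n) / ((m.factorial : ℝ) * ((m + n).factorial : ℝ))

lemma tm_nonneg (n m : ℕ) (y : ℝ) (hy : 0 ≤ y) : 0 ≤ tm n m y := by
  unfold tm; positivity

lemma tm_succ (n m : ℕ) (y : ℝ) :
    tm n (m + 1) y = tm n m y * ((y ^ 2) / (4 * (((m : ℝ) + 1) * ((m : ℝ) + 1 + n)))) := by
  unfold tm
  have h1 : ((m + 1).factorial : ℝ) = ((m : ℝ) + 1) * (m.factorial : ℝ) := by
    rw [Nat.factorial_succ]; push_cast; ring
  have h2 : ((m + 1 + n).factorial : ℝ) = ((m : ℝ) + 1 + n) * ((m + n).factorial : ℝ) := by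
    rw [show m + 1 + n = (m + n) + 1 by ring, Nat.factorial_succ]; push_cast; ring
  rw [h1, h2, show 2 * (m + 1) + n = (2 * m + n) + 2 by ring, pow_add]
  have e1 : (m.factorial : ℝ) ≠ 0 := by positivity
  have e2 : ((m + n).factorial : ℝ) ≠ 0 := by positivity
  have e3 : (m : ℝ) + 1 ≠ 0 := by positivity
  have e4 : (m : ℝ) + 1 + n ≠ 0 := by positivity
  field_simp
  ring

/-- start value: `(y/2)^n/n!` by repeated rounding -/
def st (up : ℕ) (a b : ℕ) : ℕ → ℕ → ℕ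
  | 0, x => x
  | n + 1, x => st up a b n (x * a / (2 * b * (n + 1)) + up)

/-- `(y/2)^n / n!` -/
noncomputable def hp (n : ℕ) (y : ℝ) : ℝ := (y / 2) ^ n / (n.factorial : ℝ)

lemma div_lo (x c d : ℕ) (hd : 0 < d) : ((x * c / d : ℕ) : ℝ) ≤ (x : ℝ) * c / d := by
  have := Nat.div_mul_le_self (x * c) d
  rw [le_div_iff₀ (by exact_mod_cast hd)]
  exact_mod_cast this

lemma div_hi (x c d : ℕ) (hd : 0 < d) : (x : ℝ) * c / d ≤ ((x * c / d + 1 : ℕ) : ℝ) := by
  rw [div_le_iff₀ (by exact_mod_cast hd)]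
  have h := Nat.lt_div_mul_add (a := x * c) hd
  have : x * c ≤ (x * c / d + 1) * d := by
    rw [add_mul, one_mul]; exact h.le
  exact_mod_cast this

lemma st_lo (a b : ℕ) (hb : 0 < b) : ∀ n x : ℕ, ((st 0 a b n x : ℕ) : ℝ) ≤ x * hp n ((a : ℝ) / b) := by
  intro n
  induction n with
  | zero => intro x; simp [st, hp]
  | succ n ih =>
    intro x
    rw [st]
    refine (ih _).trans ?_
    have hd : 0 < 2 * b * (n + 1) := by positivity
    have h1 := div_lo x a (2 * b * (n + 1)) hd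
    have h2 : (0 : ℝ) ≤ hp n ((a : ℝ) / b) := by unfold hp; positivity
    have h3 : (x : ℝ) * hp (n + 1) ((a : ℝ) / b) = ((x : ℝ) * a / ((2 * b * (n + 1) : ℕ) : ℝ)) * hp n ((a : ℝ) / b) := by
      unfold hp
      rw [Nat.factorial_succ, pow_succ]
      push_cast
      have : (n.factorial : ℝ) ≠ 0 := by positivity
      have hb' : (b : ℝ) ≠ 0 := by positivity
      field_simp
    rw [h3, add_zero]
    exact mul_le_mul_of_nonneg_right h1 h2

lemma st_hi (a b : ℕ) (hb : 0 < b) : ∀ n x : ℕ, x * hp n ((a : ℝ) / b) ≤ ((st 1 a b n x : ℕ) : ℝ) := by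
  intro n
  induction n with
  | zero => intro x; simp [st, hp]
  | succ n ih =>
    intro x
    rw [st]
    refine le_trans ?_ (ih _)
    have hd : 0 < 2 * b * (n + 1) := by positivity
    have h1 := div_hi x a (2 * b * (n + 1)) hd
    have h2 : (0 : ℝ) ≤ hp n ((a : ℝ) / b) := by unfold hp; positivity
    have h3 : (x : ℝ) * hp (n + 1) ((a : ℝ) / b) = ((x : ℝ) * a / ((2 * b * (n + 1) : ℕ) : ℝ)) * hp n ((a : ℝ) / b) := by
      unfold hp
      rw [Nat.factorial_succ, pow_succ]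
      push_cast
      have : (n.factorial : ℝ) ≠ 0 := by positivity
      have hb' : (b : ℝ) ≠ 0 := by positivity
      field_simp
    rw [h3]
    exact mul_le_mul_of_nonneg_right h1 h2

lemma tm_zero (n : ℕ) (y : ℝ) : tm n 0 y = hp n y := by
  unfold tm hp; simp

/-- state of the summation -/
structure St where
  el : ℕ
  eh : ℕ
  ol : ℕ
  oh : ℕ
  lo : ℕ
  hi : ℕ

/-- one rounding step of the term -/
def nx (up a b n m x : ℕ) : ℕ := x * (a * a) / (4 * (b * b) * ((m + 1) * (m + 1 + n))) + up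

/-- double steps: fuel `r`, current even index `m` -/
def loop (a b n : ℕ) : ℕ → ℕ → St → St
  | 0, _, s => s
  | r + 1, m, s =>
    let lo1 := nx 0 a b n m s.lo
    let hi1 := nx 1 a b n m s.hi
    loop a b n r (m + 2)
      { el := s.el + s.lo, eh := s.eh + s.hi, ol := s.ol + lo1, oh := s.oh + hi1,
        lo := nx 0 a b n (m + 1) lo1, hi := nx 1 a b n (m + 1) hi1 }

/-- invariant -/
structure Inv (SC : ℝ) (n m : ℕ) (y : ℝ) (s : St) (e o : ℝ) : Prop where
  el : (s.el : ℝ) ≤ SC * e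
  eh : SC * e ≤ s.eh
  ol : (s.ol : ℝ) ≤ SC * o
  oh : SC * o ≤ s.oh
  lo : (s.lo : ℝ) ≤ SC * tm n m y
  hi : SC * tm n m y ≤ s.hi

lemma nx_lo (a b n m x : ℕ) (hb : 0 < b) (SC t : ℝ) (h : (x : ℝ) ≤ SC * t) :
    ((nx 0 a b n m x : ℕ) : ℝ) ≤
      SC * (t * ((((a : ℝ) / b) ^ 2) / (4 * (((m : ℝ) + 1) * ((m : ℝ) + 1 + n))))) := by
  unfold nx
  have hd : 0 < 4 * (b * b) * ((m + 1) * (m + 1 + n)) := by positivity
  have h1 := div_lo x (a * a) _ hd
  have hc : (0 : ℝ) ≤ ((a * a : ℕ) : ℝ) / ((4 * (b * b) * ((m + 1) * (m + 1 + n)) : ℕ) : ℝ) := by positivity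
  have hb' : (b : ℝ) ≠ 0 := by positivity
  have e : (((a : ℝ) / b) ^ 2) / (4 * (((m : ℝ) + 1) * ((m : ℝ) + 1 + n))) =
      ((a * a : ℕ) : ℝ) / ((4 * (b * b) * ((m + 1) * (m + 1 + n)) : ℕ) : ℝ) := by
    push_cast
    field_simp
  rw [e, add_zero, ← mul_assoc SC t]
  have h1' : ((x * (a * a) / (4 * (b * b) * ((m + 1) * (m + 1 + n))) : ℕ) : ℝ) ≤
      (x : ℝ) * (((a * a : ℕ) : ℝ) / ((4 * (b * b) * ((m + 1) * (m + 1 + n)) : ℕ) : ℝ)) := by
    rw [← mul_div_assoc]; exact h1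
  exact h1'.trans (mul_le_mul_of_nonneg_right h hc)

lemma nx_hi (a b n m x : ℕ) (hb : 0 < b) (SC t : ℝ) (h : SC * t ≤ (x : ℝ)) :
    SC * (t * ((((a : ℝ) / b) ^ 2) / (4 * (((m : ℝ) + 1) * ((m : ℝ) + 1 + n))))) ≤
      ((nx 1 a b n m x : ℕ) : ℝ) := by
  unfold nx
  have hd : 0 < 4 * (b * b) * ((m + 1) * (m + 1 + n)) := by positivity
  have h1 := div_hi x (a * a) _ hd
  have hc : (0 : ℝ) ≤ ((a * a : ℕ) : ℝ) / ((4 * (b * b) * ((m + 1) * (m + 1 + n)) : ℕ) : ℝ) := by positivity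
  have hb' : (b : ℝ) ≠ 0 := by positivity
  have e : (((a : ℝ) / b) ^ 2) / (4 * (((m : ℝ) + 1) * ((m : ℝ) + 1 + n))) =
      ((a * a : ℕ) : ℝ) / ((4 * (b * b) * ((m + 1) * (m + 1 + n)) : ℕ) : ℝ) := by
    push_cast
    field_simp
  rw [e, ← mul_assoc SC t]
  have h1' : (x : ℝ) * (((a * a : ℕ) : ℝ) / ((4 * (b * b) * ((m + 1) * (m + 1 + n)) : ℕ) : ℝ)) ≤
      ((x * (a * a) / (4 * (b * b) * ((m + 1) * (m + 1 + n))) + 1 : ℕ) : ℝ) := by
    rw [← mul_div_assoc]; exact h1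
  exact le_trans (mul_le_mul_of_nonneg_right h hc) h1'

lemma loop_inv (a b n : ℕ) (hb : 0 < b) (SC : ℝ) : ∀ (r m : ℕ) (s : St) (e o : ℝ),
    Inv SC n m ((a : ℝ) / b) s e o →
    Inv SC n (m + 2 * r) ((a : ℝ) / b) (loop a b n r m s)
      (e + ∑ i ∈ Finset.range r, tm n (m + 2 * i) ((a : ℝ) / b))
      (o + ∑ i ∈ Finset.range r, tm n (m + 2 * i + 1) ((a : ℝ) / b)) := by
  intro r
  induction r with
  | zero => intro m s e o h; simpa [loop] using h
  | succ r ih =>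
    intro m s e o h
    rw [loop]
    have hl1 := nx_lo a b n m s.lo hb SC _ h.lo
    have hh1 := nx_hi a b n m s.hi hb SC _ h.hi
    rw [← tm_succ] at hl1 hh1
    have hl2 := nx_lo a b n (m + 1) _ hb SC _ hl1
    have hh2 := nx_hi a b n (m + 1) _ hb SC _ hh1
    rw [← tm_succ] at hl2 hh2
    have key : Inv SC n (m + 2) ((a : ℝ) / b)
        { el := s.el + s.lo, eh := s.eh + s.hi, ol := s.ol + nx 0 a b n m s.lo,
          oh := s.oh + nx 1 a b n m s.hi,
          lo := nx 0 a b n (m + 1) (nx 0 a b n m s.lo), hi := nx 1 a b n (m + 1) (nx 1 a b n m s.hi) }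
        (e + tm n m ((a : ℝ) / b)) (o + tm n (m + 1) ((a : ℝ) / b)) := by
      constructor
      · push_cast; rw [mul_add]; exact add_le_add h.el h.lo
      · push_cast; rw [mul_add]; exact add_le_add h.eh h.hi
      · push_cast; rw [mul_add]; exact add_le_add h.ol hl1
      · push_cast; rw [mul_add]; exact add_le_add h.oh hh1
      · exact hl2
      · exact hh2
    have := ih (m + 2) _ _ _ key
    have e1 : m + 2 * (r + 1) = m + 2 + 2 * r := by ring
    have e2 : e + ∑ i ∈ Finset.range (r + 1), tm n (m + 2 * i) ((a : ℝ) / b) =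
        e + tm n m ((a : ℝ) / b) + ∑ i ∈ Finset.range r, tm n (m + 2 + 2 * i) ((a : ℝ) / b) := by
      rw [Finset.sum_range_succ']
      have : ∀ i, m + 2 * (i + 1) = m + 2 + 2 * i := fun i => by ring
      simp only [this, mul_zero, add_zero]
      ring
    have e3 : o + ∑ i ∈ Finset.range (r + 1), tm n (m + 2 * i + 1) ((a : ℝ) / b) =
        o + tm n (m + 1) ((a : ℝ) / b) + ∑ i ∈ Finset.range r, tm n (m + 2 + 2 * i + 1) ((a : ℝ) / b) := by
      rw [Finset.sum_range_succ']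
      have : ∀ i, m + 2 * (i + 1) = m + 2 + 2 * i := fun i => by ring
      simp only [this, mul_zero, add_zero]
      ring
    rw [e1, e2, e3]
    exact this

/-- the complete computation with `r` double steps -/
def run (SC a b n r : ℕ) : St :=
  loop a b n r 0 { el := 0, eh := 0, ol := 0, oh := 0, lo := st 0 a b n SC, hi := st 1 a b n SC }

lemma run_inv (SC a b n r : ℕ) (hb : 0 < b) :
    Inv (SC : ℝ) n (2 * r) ((a : ℝ) / b) (run SC a b n r)
      (∑ i ∈ Finset.range r, tm n (2 * i) ((a : ℝ) / b))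
      (∑ i ∈ Finset.range r, tm n (2 * i + 1) ((a : ℝ) / b)) := by
  have h0 : Inv (SC : ℝ) n 0 ((a : ℝ) / b)
      { el := 0, eh := 0, ol := 0, oh := 0, lo := st 0 a b n SC, hi := st 1 a b n SC } 0 0 := by
    constructor
    · simp
    · simp
    · simp
    · simp
    · rw [tm_zero]; exact st_lo a b hb n SC
    · rw [tm_zero]; exact st_hi a b hb n SC
  have := loop_inv a b n hb SC r 0 _ 0 0 h0
  simpa [run] using this

lemma S_eq (n r : ℕ) (y : ℝ) : S n (2 * r) y =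
    ∑ i ∈ Finset.range r, tm n (2 * i) y - ∑ i ∈ Finset.range r, tm n (2 * i + 1) y := by
  induction r with
  | zero => simp [S]
  | succ r ih =>
    rw [show 2 * (r + 1) = 2 * r + 1 + 1 by ring, Finset.sum_range_succ, Finset.sum_range_succ]
    have : S n (2 * r + 1 + 1) y = S n (2 * r) y + tm n (2 * r) y - tm n (2 * r + 1) y := by
      unfold S
      rw [Finset.sum_range_succ, Finset.sum_range_succ]
      unfold tm
      rw [pow_succ (-1 : ℝ) (2 * r), pow_mul]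
      simp only [neg_mul, even_two, Even.neg_pow, one_pow, one_mul, mul_neg, mul_one]
      ring
    rw [this, ih]
    ring

lemma S_eq' (n r : ℕ) (y : ℝ) : S n (2 * r + 1) y = S n (2 * r) y + tm n (2 * r) y := by
  unfold S
  rw [Finset.sum_range_succ]
  unfold tm
  rw [pow_mul]
  simp

/-- SOUNDNESS, upper: `J_n(a/b) ≤ (eh + hi - ol)/SC` -/
theorem upper (SC a b n r : ℕ) (hb : 0 < b) (U : ℕ)
    (hU : (run SC a b n r).eh + (run SC a b n r).hi ≤ (run SC a b n r).ol + U) :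
    (SC : ℝ) * J (n : ℤ) ((a : ℝ) / b) ≤ U := by
  have h := run_inv SC a b n r hb
  have hy : (0 : ℝ) ≤ (a : ℝ) / b := by positivity
  have hJ := J_le_S n (2 * r + 1) ⟨r, rfl⟩ _ hy
  rw [S_eq', S_eq] at hJ
  have hU' : (((run SC a b n r).eh : ℕ) : ℝ) + ((run SC a b n r).hi : ℕ) ≤ ((run SC a b n r).ol : ℕ) + (U : ℝ) := by
    exact_mod_cast hU
  have hSC : (0 : ℝ) ≤ SC := by positivity
  have := mul_le_mul_of_nonneg_left hJ hSC
  have h1 := h.eh
  have h2 := h.hi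
  have h3 := h.ol
  nlinarith

/-- SOUNDNESS, lower: `-J_n(a/b) ≤ (oh - el)/SC` -/
theorem lower (SC a b n r : ℕ) (hb : 0 < b) (hr : 1 ≤ r) (U : ℕ)
    (hU : (run SC a b n r).oh ≤ (run SC a b n r).el + U) :
    -(U : ℝ) ≤ (SC : ℝ) * J (n : ℤ) ((a : ℝ) / b) := by
  have h := run_inv SC a b n r hb
  have hy : (0 : ℝ) ≤ (a : ℝ) / b := by positivity
  have hJ := S_le_J n (2 * r) ⟨r, by ring⟩ (by omega) _ hy
  rw [S_eq] at hJ
  have hU' : (((run SC a b n r).oh : ℕ) : ℝ) ≤ ((run SC a b n r).el : ℕ) + (U : ℝ) := by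
    exact_mod_cast hU
  have hSC : (0 : ℝ) ≤ SC := by positivity
  have := mul_le_mul_of_nonneg_left hJ hSC
  have h1 := h.oh
  have h3 := h.el
  nlinarith

/-- lower bound, other sign: `L ≤ SC J` if `oh + L ≤ el` -/
theorem lower' (SC a b n r : ℕ) (hb : 0 < b) (hr : 1 ≤ r) (L : ℕ)
    (hL : (run SC a b n r).oh + L ≤ (run SC a b n r).el) :
    (L : ℝ) ≤ (SC : ℝ) * J (n : ℤ) ((a : ℝ) / b) := by
  have h := run_inv SC a b n r hb
  have hy : (0 : ℝ) ≤ (a : ℝ) / b := by positivity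
  have hJ := S_le_J n (2 * r) ⟨r, by ring⟩ (by omega) _ hy
  rw [S_eq] at hJ
  have hU' : (((run SC a b n r).oh : ℕ) : ℝ) + L ≤ ((run SC a b n r).el : ℕ) := by
    exact_mod_cast hL
  have hSC : (0 : ℝ) ≤ SC := by positivity
  have := mul_le_mul_of_nonneg_left hJ hSC
  have h1 := h.oh
  have h3 := h.el
  nlinarith

/-- SOUNDNESS, both sides -/
theorem bounds (SC a b n r : ℕ) (hb : 0 < b) (hr : 1 ≤ r) :
    ((run SC a b n r).el : ℝ) - (run SC a b n r).oh ≤ (SC : ℝ) * J (n : ℤ) ((a : ℝ) / b) ∧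
    (SC : ℝ) * J (n : ℤ) ((a : ℝ) / b) ≤ (run SC a b n r).eh + (run SC a b n r).hi - (run SC a b n r).ol := by
  have h := run_inv SC a b n r hb
  have hy : (0 : ℝ) ≤ (a : ℝ) / b := by positivity
  have hJ := S_le_J n (2 * r) ⟨r, by ring⟩ (by omega) _ hy
  have hJ' := J_le_S n (2 * r + 1) ⟨r, rfl⟩ _ hy
  rw [S_eq] at hJ
  rw [S_eq', S_eq] at hJ'
  have hSC : (0 : ℝ) ≤ SC := by positivity
  have g1 := mul_le_mul_of_nonneg_left hJ hSC
  have g2 := mul_le_mul_of_nonneg_left hJ' hSC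
  have h1 := h.oh
  have h2 := h.el
  have h3 := h.eh
  have h4 := h.hi
  have h5 := h.ol
  constructor
  · nlinarith
  · nlinarith

/-- computed upper bound of `SC |J_n(a/b)|` -/
def ab (SC a b n r : ℕ) : ℕ :=
  let s := run SC a b n r
  max (s.eh + s.hi - s.ol) (s.oh - s.el)

theorem ab_sound (SC a b n r : ℕ) (hb : 0 < b) (hr : 1 ≤ r) :
    (SC : ℝ) * |J (n : ℤ) ((a : ℝ) / b)| ≤ (ab SC a b n r : ℕ) := by
  have hSC : (0 : ℝ) ≤ SC := by positivity
  have h1 := upper SC a b n r hb (ab SC a b n r) (by unfold ab; simp only; omega)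
  have h2 := lower SC a b n r hb hr (ab SC a b n r) (by unfold ab; simp only; omega)
  have e : (SC : ℝ) * |J (n : ℤ) ((a : ℝ) / b)| = |(SC : ℝ) * J (n : ℤ) ((a : ℝ) / b)| := by
    rw [abs_mul, abs_of_nonneg hSC]
  rw [e]
  exact abs_le.2 ⟨h2, h1⟩

end Pool.Agent.Helper46.RC.BesK
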