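import Pool.Agent.Helper46.RC.HdForm
import Pool.Agent.Helper76.RC.TrigT

/-!
# Link (7), HEAD engine: the final wrapper

`StPos_of_cert`: `StPos (dn/dd) (kn/kd) K c` from the Bessel table, the trigonometric tables and three packed factors.
-/

open Finset

namespace Pool.Agent.Helper46.RC.Hd

open Helper31.Bes (J)

/-- the tables -/
theorem tab_of {kn kd dd K NJ Nc Ns Nt EJ E : ℕ} {dn : ℤ} (hk : 0 < kd)
    (hJ : chJ kn kd NJ EJ (2 * (K + 1)) (2 * (K + 1) + 1) = true)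
    (hT : Helper76.RC.TrigT.chT dn dd Nc Ns Nt (2 * (K + 1)) E = true) :
    Tab ((dn : ℝ) / dd) ((kn : ℝ) / kd) NJ Nc Nt EJ E (2 * (K + 1)) where
  j q j h hp := jOK_sound hk (chJ_sound _ hJ q (by omega) j (by omega) hp)
  c q hq := (Helper76.RC.TrigT.chT_sound dn dd Nc Ns Nt _ E hT q hq).1
  s q hq := (Helper76.RC.TrigT.chT_sound dn dd Nc Ns Nt _ E hT q hq).2

/-- the numerical condition on the slack `δ` -/
def okD (E EJ rho len : ℕ) (δ : ℚ) : Bool :=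
  decide ((((rho + (38 * E + 38 * EJ + 4)) * len : ℕ) : ℚ) ≤ δ * 2 ^ 48)

theorem okD_sound {E EJ rho len : ℕ} {δ : ℚ} (h : okD E EJ rho len δ = true) :
    ((rho : ℝ) + ((38 * E + 38 * EJ + 4 : ℕ) : ℝ)) / 2 ^ 48 * len ≤ (δ : ℝ) := by
  have h1 := of_decide_eq_true h
  have h2 : (((((rho + (38 * E + 38 * EJ + 4)) * len : ℕ) : ℚ)) : ℝ) ≤ ((δ * 2 ^ 48 : ℚ) : ℝ) := by
    exact_mod_cast h1
  push_cast at h2 ⊢
  rw [div_mul_eq_mul_div, div_le_iff₀ (by positivity)]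
  linarith

/-- **THE HEAD CERTIFICATE** -/
theorem StPos_of_cert {kn kd dd K NJ Nc Ns Nt EJ E : ℕ} {dn : ℤ} (c : Loc) (Λ δ : ℚ) (n1 n3 rho : ℕ)
    (R1 R2 R3 : List ℕ) (hk : 0 < kd)
    (hJ : chJ kn kd NJ EJ (2 * (K + 1)) (2 * (K + 1) + 1) = true)
    (hT : Helper76.RC.TrigT.chT dn dd Nc Ns Nt (2 * (K + 1)) E = true)
    (hE : E ≤ 2 ^ 20) (hEJ : EJ ≤ 2 ^ 20) (hn1 : n1 * (2 ^ 32) ^ 2 < BB) (hn3 : n3 * (2 ^ 32) ^ 2 < BB)
    (hl1 : (ixs K true).length ≤ n3) (hl3 : (ixs K false).length ≤ n3)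
    (d1 : (ixs K true).Nodup) (d3 : (ixs K false).Nodup)
    (hδ : okD E EJ rho n3 δ = true)
    (h1 : cC (enF NJ Nc Nt c Λ δ 1) n1 rho (ixs K true) R1 = true)
    (h2 : cC (enF NJ Nc Nt c Λ δ (-1)) n1 rho (ixs K true) R2 = true)
    (h3 : cC (enF NJ Nc Nt c Λ δ 1) n3 rho (ixs K false) R3 = true) :
    StPos ((dn : ℝ) / dd) ((kn : ℝ) / kd) K c := by
  have T := tab_of (K := K) hk hJ hT
  have hδ' := okD_sound hδ
  have hlen : ∀ b, (ixs K b).length ≤ n3 →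
      ((rho : ℝ) + ((38 * E + 38 * EJ + 4 : ℕ) : ℝ)) / 2 ^ 48 * (ixs K b).length ≤ (δ : ℝ) := by
    intro b hb
    refine le_trans (mul_le_mul_of_nonneg_left ?_ (by positivity)) hδ'
    exact_mod_cast hb
  exact StPos_of_blocks
    (Blk_of_cert T hE hEJ c Λ δ 1 true n1 rho hn1 R1 h1 _ (hlen true hl1))
    (Blk_of_cert T hE hEJ c Λ δ (-1) true n1 rho hn1 R2 h2 _ (hlen true hl1))
    (Blk_of_cert T hE hEJ c Λ δ 1 false n3 rho hn3 R3 h3 _ (hlen false hl3)) le_rfl d1 d3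

end Pool.Agent.Helper46.RC.Hd
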