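import Mathlib

/-!
# Kernel checked positivity of a real symmetric matrix by a rounded Cholesky factor

Rows of the factor are packed into natural numbers; all dot products are computed by ONE multiplication of
packed numbers (Kronecker substitution).
-/

open Finset

namespace Pool.Agent.Helper46.RC.Hd

/-! ### positivity -/

/-- if `A` is entrywise within `ρ` of `L Lᵀ` then the form is `≥ - ρ N |v|²` -/
theorem psd {N n : ℕ} (A : Fin N → Fin N → ℝ) (L : Fin N → ℕ → ℝ) {ρ : ℝ} (hρ : 0 ≤ ρ)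
    (h : ∀ i j, |A i j - ∑ c ∈ range n, L i c * L j c| ≤ ρ) (v : Fin N → ℝ) :
    -(ρ * N * ∑ i, v i ^ 2) ≤ ∑ i, ∑ j, A i j * (v i * v j) := by
  have e1 : ∑ i, ∑ j, (∑ c ∈ range n, L i c * L j c) * (v i * v j) =
      ∑ c ∈ range n, (∑ i, L i c * v i) ^ 2 := by
    have h1 : ∀ c, (∑ i, L i c * v i) ^ 2 = ∑ i, ∑ j, L i c * L j c * (v i * v j) := by
      intro c
      rw [sq, Finset.sum_mul_sum]
      exact Finset.sum_congr rfl fun i _ => Finset.sum_congr rfl fun j _ => by ring
    simp_rw [h1, Finset.sum_mul]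
    rw [Finset.sum_comm' (s := range n) (t := fun _ => (univ : Finset (Fin N)))
      (t' := (univ : Finset (Fin N))) (s' := fun _ => range n) (by simp)]
    refine Finset.sum_congr rfl fun i _ => ?_
    rw [Finset.sum_comm]
  have h0 : 0 ≤ ∑ c ∈ range n, (∑ i, L i c * v i) ^ 2 := Finset.sum_nonneg fun c _ => sq_nonneg _
  have e2 : ∑ i, ∑ j, A i j * (v i * v j) = ∑ c ∈ range n, (∑ i, L i c * v i) ^ 2 +
      ∑ i, ∑ j, (A i j - ∑ c ∈ range n, L i c * L j c) * (v i * v j) := by
    rw [← e1, ← Finset.sum_add_distrib]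
    refine Finset.sum_congr rfl fun i _ => ?_
    rw [← Finset.sum_add_distrib]
    refine Finset.sum_congr rfl fun j _ => ?_
    ring
  have e3 : -(ρ * ∑ i, ∑ j, |v i| * |v j|) ≤
      ∑ i, ∑ j, (A i j - ∑ c ∈ range n, L i c * L j c) * (v i * v j) := by
    rw [Finset.mul_sum, ← Finset.sum_neg_distrib]
    refine Finset.sum_le_sum fun i _ => ?_
    rw [Finset.mul_sum, ← Finset.sum_neg_distrib]
    refine Finset.sum_le_sum fun j _ => ?_
    have h1 := h i j
    have h2 : |(A i j - ∑ c ∈ range n, L i c * L j c) * (v i * v j)| ≤ ρ * (|v i| * |v j|) := by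
      rw [abs_mul, abs_mul]
      exact mul_le_mul_of_nonneg_right h1 (by positivity)
    linarith [neg_abs_le ((A i j - ∑ c ∈ range n, L i c * L j c) * (v i * v j))]
  have e4 : ∑ i, ∑ j, |v i| * |v j| ≤ N * ∑ i, v i ^ 2 := by
    have h1 : ∑ i, ∑ j, |v i| * |v j| = (∑ i, |v i|) ^ 2 := by
      rw [sq, Finset.sum_mul_sum]
    rw [h1]
    have := sq_sum_le_card_mul_sum_sq (s := (Finset.univ : Finset (Fin N))) (f := fun i => |v i|)
    simpa [sq_abs] using this
  rw [e2]
  nlinarith [mul_le_mul_of_nonneg_left e4 hρ]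

/-! ### packed dot products -/

/-- the base -/
abbrev BB : ℕ := 2 ^ 80

/-- forward packing -/
def pF : List ℕ → ℕ
  | [] => 0
  | x :: l => x + BB * pF l

/-- reversed packing with accumulator -/
def pR : List ℕ → ℕ → ℕ
  | [], a => a
  | x :: l, a => pR l (a * BB + x)

/-- dot product -/
def dt : List ℕ → List ℕ → ℕ
  | x :: l, y :: m => x * y + dt l m
  | _, _ => 0

theorem pR_eq (l : List ℕ) : ∀ a, pR l a = a * BB ^ l.length + pR l 0 := by
  induction l with
  | nil => intro a; simp [pR]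
  | cons x l ih =>
    intro a
    rw [pR, ih, pR, ih (0 * BB + x), List.length_cons, pow_succ]
    ring

theorem pR_cons (x : ℕ) (l : List ℕ) : pR (x :: l) 0 = x * BB ^ l.length + pR l 0 := by
  rw [pR, pR_eq]
  simp

/-- `BB - 1` -/
abbrev B1 : ℕ := 2 ^ 80 - 1

theorem BB_eq : BB = B1 + 1 := by norm_num [BB, B1]

theorem pow_pos' (n : ℕ) : 1 ≤ BB ^ n := Nat.one_le_pow _ _ (by norm_num)

theorem pR_bd {D : ℕ} : ∀ l : List ℕ, (∀ x ∈ l, x ≤ D) → B1 * pR l 0 + D ≤ D * BB ^ l.length := by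
  intro l
  induction l with
  | nil => intro _; simp [pR]
  | cons x l ih =>
    intro h
    have h1 : x ≤ D := h x (by simp)
    have h2 := ih fun y hy => h y (by simp [hy])
    rw [pR_cons, List.length_cons, pow_succ]
    have h3 : B1 * (x * BB ^ l.length) ≤ B1 * (D * BB ^ l.length) :=
      Nat.mul_le_mul_left _ (Nat.mul_le_mul_right _ h1)
    have h4 : D * (BB ^ l.length * BB) = D * BB ^ l.length + B1 * (D * BB ^ l.length) := by
      rw [BB_eq]; ring
    rw [h4]
    linarith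

/-- the product of a forward and a reversed packing: low part, dot product, high part -/
theorem conv {D : ℕ} : ∀ l m : List ℕ, l.length = m.length → (∀ x ∈ l, x ≤ D) → (∀ x ∈ m, x ≤ D) →
    ∃ lo hi : ℕ, BB * (pF l * pR m 0) = lo + dt l m * BB ^ l.length + hi * BB ^ (l.length + 1) ∧
      B1 * lo + l.length * D ^ 2 ≤ l.length * D ^ 2 * BB ^ l.length ∧ dt l m ≤ l.length * D ^ 2 := by
  intro l
  induction l with
  | nil =>
    intro m hm _ _
    exact ⟨0, 0, by simp [pF, dt], by simp, by simp [dt]⟩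
  | cons x l ih =>
    intro m hm hl hmd
    cases m with
    | nil => simp at hm
    | cons y m =>
      have hlen : l.length = m.length := by simpa using hm
      obtain ⟨lo, hi, e, h1, h2⟩ := ih m hlen (fun z hz => hl z (by simp [hz])) (fun z hz => hmd z (by simp [hz]))
      have hx : x ≤ D := hl x (by simp)
      have hy : y ≤ D := hmd y (by simp)
      have hR := pR_bd (D := D) m (fun z hz => hmd z (by simp [hz]))
      rw [← hlen] at hR
      refine ⟨BB * (x * pR m 0 + lo), y * pF l + hi, ?_, ?_, ?_⟩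
      · rw [pF, pR_cons, dt, List.length_cons, ← hlen]
        have : BB * ((x + BB * pF l) * (y * BB ^ l.length + pR m 0)) =
            BB * (x * pR m 0) + BB * (x * y * BB ^ l.length) + BB * BB * (y * pF l * BB ^ l.length)
              + BB * (BB * (pF l * pR m 0)) := by ring
        rw [this, e]
        ring
      · rw [List.length_cons]
        have hxR : B1 * (x * pR m 0) + x * D ≤ x * (D * BB ^ l.length) := by
          have := Nat.mul_le_mul_left x hR
          nlinarith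
        have hxD : x * (D * BB ^ l.length) - x * D ≤ D * (D * BB ^ l.length) - D * D := by
          have h5 : D ≤ D * BB ^ l.length := Nat.le_mul_of_pos_right _ (pow_pos' _)
          have h6 : x * (D * BB ^ l.length) - x * D = x * (D * BB ^ l.length - D) := by
            rw [Nat.mul_sub]
          have h7 : D * (D * BB ^ l.length) - D * D = D * (D * BB ^ l.length - D) := by
            rw [Nat.mul_sub]
          rw [h6, h7]
          exact Nat.mul_le_mul_right _ hx
        have h8 : D * D ≤ D * (D * BB ^ l.length) := Nat.mul_le_mul_left _ (Nat.le_mul_of_pos_right _ (pow_pos' _))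
        have h9 : B1 * (x * pR m 0) + D * D ≤ D * (D * BB ^ l.length) := by omega
        have h10 : B1 * (BB * (x * pR m 0 + lo)) = BB * (B1 * (x * pR m 0) + B1 * lo) := by ring
        have h11 : BB * (B1 * (x * pR m 0) + B1 * lo) + BB * ((l.length + 1) * D ^ 2) ≤
            BB * ((l.length + 1) * D ^ 2 * BB ^ l.length) := by
          rw [← Nat.mul_add]
          apply Nat.mul_le_mul_left
          calc B1 * (x * pR m 0) + B1 * lo + (l.length + 1) * D ^ 2
              = (B1 * (x * pR m 0) + D * D) + (B1 * lo + l.length * D ^ 2) := by ring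
            _ ≤ D * (D * BB ^ l.length) + l.length * D ^ 2 * BB ^ l.length := Nat.add_le_add h9 h1
            _ = (l.length + 1) * D ^ 2 * BB ^ l.length := by ring
        have h12 : (l.length + 1) * D ^ 2 ≤ BB * ((l.length + 1) * D ^ 2) :=
          Nat.le_mul_of_pos_left _ (by norm_num)
        rw [h10, pow_succ]
        calc BB * (B1 * (x * pR m 0) + B1 * lo) + (l.length + 1) * D ^ 2
            ≤ BB * (B1 * (x * pR m 0) + B1 * lo) + BB * ((l.length + 1) * D ^ 2) := Nat.add_le_add_left h12 _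
          _ ≤ BB * ((l.length + 1) * D ^ 2 * BB ^ l.length) := h11
          _ = (l.length + 1) * D ^ 2 * (BB ^ l.length * BB) := by ring
      · rw [dt, List.length_cons]
        have : x * y ≤ D * D := Nat.mul_le_mul hx hy
        nlinarith

/-- the dot product by one multiplication -/
def kd (n A R : ℕ) : ℕ := BB * (A * R) / BB ^ n % BB

theorem kd_eq {D : ℕ} (l m : List ℕ) (n : ℕ) (hl : l.length = n) (hm : m.length = n)
    (h1 : ∀ x ∈ l, x ≤ D) (h2 : ∀ x ∈ m, x ≤ D) (hD : n * D ^ 2 < BB) :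
    kd n (pF l) (pR m 0) = dt l m := by
  obtain ⟨lo, hi, e, h3, h4⟩ := conv (D := D) l m (hl.trans hm.symm) h1 h2
  rw [hl] at e h3 h4
  have hlo : lo < BB ^ n := by
    by_contra hc
    have hc' : BB ^ n ≤ lo := not_lt.1 hc
    have h5 : B1 * BB ^ n ≤ B1 * lo := Nat.mul_le_mul_left _ hc'
    have h6 : n * D ^ 2 ≤ B1 := by
      have := BB_eq
      omega
    have h7 : n * D ^ 2 * BB ^ n ≤ B1 * BB ^ n := Nat.mul_le_mul_right _ h6
    rcases Nat.eq_zero_or_pos (n * D ^ 2) with h0 | h0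
    · rw [h0] at h3
      have h8 : B1 * lo = 0 := by omega
      have h9 : 0 < B1 := by norm_num [B1]
      have h10 : lo = 0 := by
        rcases Nat.mul_eq_zero.1 h8 with h | h
        · omega
        · exact h
      have := pow_pos' n
      omega
    · omega
  unfold kd
  rw [e]
  have hp : 0 < BB ^ n := pow_pos' n
  have e2 : lo + dt l m * BB ^ n + hi * BB ^ (n + 1) = lo + (dt l m + hi * BB) * BB ^ n := by
    rw [pow_succ]; ring
  rw [e2, Nat.add_mul_div_right _ _ hp, Nat.div_eq_of_lt hlo, Nat.zero_add, Nat.add_mul_mod_self_right]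
  exact Nat.mod_eq_of_lt (lt_of_le_of_lt h4 hD)

/-! ### digit lists -/

/-- sum of the digits -/
def sm : List ℕ → ℕ
  | [] => 0
  | x :: l => x + sm l

/-- decoding a packed row, digits in base `2 ^ 32` -/
def dec : ℕ → ℕ → List ℕ
  | 0, _ => []
  | n + 1, N => (N % 2 ^ 32) :: dec n (N / 2 ^ 32)

theorem dec_len : ∀ n N, (dec n N).length = n := by
  intro n
  induction n with
  | zero => intro N; rfl
  | succ n ih => intro N; rw [dec, List.length_cons, ih]

theorem dec_bd : ∀ n N, ∀ x ∈ dec n N, x ≤ 2 ^ 32 := by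
  intro n
  induction n with
  | zero => intro N x hx; simp [dec] at hx
  | succ n ih =>
    intro N x hx
    rw [dec, List.mem_cons] at hx
    rcases hx with h | h
    · rw [h]; exact (Nat.mod_lt _ (by norm_num)).le
    · exact ih _ x h

theorem dt_sum : ∀ l m : List ℕ, l.length = m.length →
    ((dt l m : ℕ) : ℝ) = ∑ c ∈ range l.length, (l.getD c 0 : ℝ) * (m.getD c 0 : ℝ) := by
  intro l
  induction l with
  | nil => intro m _; simp [dt]
  | cons x l ih =>
    intro m h
    cases m with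
    | nil => simp at h
    | cons y m =>
      rw [dt, List.length_cons, Finset.sum_range_succ']
      simp only [List.getD_cons_succ, List.getD_cons_zero]
      rw [← ih m (by simpa using h)]
      push_cast
      ring

theorem sm_sum : ∀ l : List ℕ, ((sm l : ℕ) : ℝ) = ∑ c ∈ range l.length, (l.getD c 0 : ℝ) := by
  intro l
  induction l with
  | nil => simp [sm]
  | cons x l ih =>
    rw [sm, List.length_cons, Finset.sum_range_succ']
    simp only [List.getD_cons_succ, List.getD_cons_zero]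
    rw [← ih]
    push_cast
    ring

/-- the digit offset -/
abbrev off : ℕ := 2 ^ 31

/-- the real entries of a row -/
noncomputable def Lr (l : List ℕ) (c : ℕ) : ℝ := ((l.getD c 0 : ℝ) - off) / 2 ^ 24

theorem Lr_dot (l m : List ℕ) (n : ℕ) (hl : l.length = n) (hm : m.length = n) :
    (2 : ℝ) ^ 48 * ∑ c ∈ range n, Lr l c * Lr m c =
      (dt l m : ℝ) - off * ((sm l : ℝ) + (sm m : ℝ)) + n * (off : ℝ) ^ 2 := by
  have h1 := dt_sum l m (hl.trans hm.symm)
  have h2 := sm_sum l
  have h3 := sm_sum m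
  rw [hl] at h1 h2
  rw [hm] at h3
  rw [h1, h2, h3, Finset.mul_sum, ← Finset.sum_add_distrib, Finset.mul_sum, ← Finset.sum_sub_distrib]
  have h4 : (n : ℝ) * (off : ℝ) ^ 2 = ∑ c ∈ range n, (off : ℝ) ^ 2 := by simp
  rw [h4, ← Finset.sum_add_distrib]
  refine Finset.sum_congr rfl fun c _ => ?_
  unfold Lr
  have : (2 : ℝ) ^ 48 = 2 ^ 24 * 2 ^ 24 := by norm_num
  rw [this]
  field_simp
  ring

/-! ### the check -/

/-- a row: index, packed digits, reversed packed digits, digit sum -/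
structure Row (ι : Type) where
  x : ι
  A : ℕ
  R : ℕ
  s : ℕ

variable {ι : Type}

/-- `2 ^ 48` times the dot product of two rows -/
def sdt (n : ℕ) (a b : Row ι) : ℤ :=
  (kd n a.A b.R : ℤ) - (off : ℤ) * ((a.s : ℤ) + (b.s : ℤ)) + (n : ℤ) * (off : ℤ) ^ 2

/-- one row against the rest -/
def cR (en : ι → ι → ℤ) (n rho : ℕ) (a : Row ι) : List (Row ι) → Bool
  | [] => true
  | b :: r => Nat.ble (en a.x b.x - sdt n a b).natAbs rho && cR en n rho a r

/-- all unordered pairs -/
def cA (en : ι → ι → ℤ) (n rho : ℕ) : List (Row ι) → Bool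
  | [] => true
  | a :: r => cR en n rho a (a :: r) && cA en n rho r

/-- the row of an index and a digit list -/
def mk (p : ι × List ℕ) : Row ι := { x := p.1, A := pF p.2, R := pR p.2 0, s := sm p.2 }

theorem cR_mem (en : ι → ι → ℤ) (n rho : ℕ) (a : Row ι) : ∀ l : List (Row ι), cR en n rho a l = true →
    ∀ b ∈ l, (en a.x b.x - sdt n a b).natAbs ≤ rho := by
  intro l
  induction l with
  | nil => intro _ b hb; simp at hb
  | cons c l ih =>
    intro h b hb
    rw [cR, Bool.and_eq_true] at h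
    rcases List.mem_cons.1 hb with e | hb
    · rw [e]; exact Nat.le_of_ble_eq_true h.1
    · exact ih h.2 b hb

/-- SOUNDNESS -/
theorem cA_sound (F : ι → ι → ℝ) (hF : ∀ x y, F x y = F y x) (en : ι → ι → ℤ) (n rho e : ℕ)
    (hn : n * (2 ^ 32) ^ 2 < BB) :
    ∀ l : List (ι × List ℕ), (∀ p ∈ l, p.2.length = n ∧ ∀ x ∈ p.2, x ≤ 2 ^ 32) →
      (∀ p ∈ l, ∀ q ∈ l, |(2 : ℝ) ^ 48 * F p.1 q.1 - (en p.1 q.1 : ℝ)| ≤ e) →
      cA en n rho (l.map mk) = true →
      ∀ p ∈ l, ∀ q ∈ l, |F p.1 q.1 - ∑ c ∈ range n, Lr p.2 c * Lr q.2 c| ≤ ((rho : ℝ) + e) / 2 ^ 48 := by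
  have key : ∀ p q : ι × List ℕ, (p.2.length = n ∧ ∀ x ∈ p.2, x ≤ 2 ^ 32) →
      (q.2.length = n ∧ ∀ x ∈ q.2, x ≤ 2 ^ 32) →
      |(2 : ℝ) ^ 48 * F p.1 q.1 - (en p.1 q.1 : ℝ)| ≤ e →
      (en p.1 q.1 - sdt n (mk p) (mk q)).natAbs ≤ rho →
      |F p.1 q.1 - ∑ c ∈ range n, Lr p.2 c * Lr q.2 c| ≤ ((rho : ℝ) + e) / 2 ^ 48 := by
    intro p q hp hq h4 h
    have h1 : sdt n (mk p) (mk q) = (dt p.2 q.2 : ℤ) - (off : ℤ) * ((sm p.2 : ℤ) + (sm q.2 : ℤ))
        + (n : ℤ) * (off : ℤ) ^ 2 := by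
      unfold sdt mk
      simp only
      rw [kd_eq p.2 q.2 n hp.1 hq.1 hp.2 hq.2 hn]
    have h2 : ((sdt n (mk p) (mk q) : ℤ) : ℝ) = (2 : ℝ) ^ 48 * ∑ c ∈ range n, Lr p.2 c * Lr q.2 c := by
      rw [Lr_dot p.2 q.2 n hp.1 hq.1, h1]
      push_cast
      ring
    have h3 : |((en p.1 q.1 : ℤ) : ℝ) - ((sdt n (mk p) (mk q) : ℤ) : ℝ)| ≤ rho := by
      rw [← Int.cast_sub, ← Int.cast_abs, Int.abs_eq_natAbs]
      exact_mod_cast h
    rw [h2] at h3
    rw [le_div_iff₀ (by positivity)]
    have h5 : |F p.1 q.1 - ∑ c ∈ range n, Lr p.2 c * Lr q.2 c| * 2 ^ 48 =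
        |(2 : ℝ) ^ 48 * F p.1 q.1 - (2 : ℝ) ^ 48 * ∑ c ∈ range n, Lr p.2 c * Lr q.2 c| := by
      rw [← mul_sub, abs_mul, abs_of_pos (by positivity : (0:ℝ) < 2 ^ 48)]
      ring
    rw [h5]
    have h6 : (2 : ℝ) ^ 48 * F p.1 q.1 - (2 : ℝ) ^ 48 * ∑ c ∈ range n, Lr p.2 c * Lr q.2 c =
        (((en p.1 q.1 : ℤ) : ℝ) - (2 : ℝ) ^ 48 * ∑ c ∈ range n, Lr p.2 c * Lr q.2 c)
        + ((2 : ℝ) ^ 48 * F p.1 q.1 - (en p.1 q.1 : ℝ)) := by ring
    rw [h6]
    exact (abs_add_le _ _).trans (add_le_add h3 h4)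
  have symm : ∀ p q : ι × List ℕ,
      |F p.1 q.1 - ∑ c ∈ range n, Lr p.2 c * Lr q.2 c| ≤ ((rho : ℝ) + e) / 2 ^ 48 →
      |F q.1 p.1 - ∑ c ∈ range n, Lr q.2 c * Lr p.2 c| ≤ ((rho : ℝ) + e) / 2 ^ 48 := by
    intro p q h
    rw [hF]
    have : ∑ c ∈ range n, Lr q.2 c * Lr p.2 c = ∑ c ∈ range n, Lr p.2 c * Lr q.2 c :=
      Finset.sum_congr rfl fun c _ => mul_comm _ _
    rw [this]
    exact h
  intro l
  induction l with
  | nil => intro _ _ _ p hp; simp at hp
  | cons a l ih =>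
    intro hl hen h p hp q hq
    rw [List.map_cons, cA, Bool.and_eq_true] at h
    have hl' : ∀ p ∈ l, p.2.length = n ∧ ∀ x ∈ p.2, x ≤ 2 ^ 32 := fun p hp => hl p (by simp [hp])
    have h1 := cR_mem en n rho (mk a) _ h.1
    have ha : ∀ q ∈ a :: l, |F a.1 q.1 - ∑ c ∈ range n, Lr a.2 c * Lr q.2 c| ≤ ((rho : ℝ) + e) / 2 ^ 48 := by
      intro q hq
      refine key a q (hl a (by simp)) (hl q hq) (hen a (by simp) q hq) (h1 (mk q) ?_)
      rcases List.mem_cons.1 hq with e' | hq
      · rw [e']; simp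
      · exact List.mem_cons_of_mem _ (List.mem_map_of_mem hq)
    rcases List.mem_cons.1 hp with e1 | hp
    · rw [e1]; exact ha q hq
    · rcases List.mem_cons.1 hq with e2 | hq
      · rw [e2]
        exact symm a p (ha p (by simp [hp]))
      · exact ih hl' (fun p hp q hq => hen p (by simp [hp]) q (by simp [hq])) h.2 p hp q hq

/-- positivity over a list of indices -/
theorem psd_list (F : ι → ι → ℝ) (hF : ∀ x y, F x y = F y x) (en : ι → ι → ℤ) (n rho e : ℕ)
    (hn : n * (2 ^ 32) ^ 2 < BB) (l : List (ι × List ℕ)) (hd : ∀ p ∈ l, p.2.length = n ∧ ∀ x ∈ p.2, x ≤ 2 ^ 32)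
    (hen : ∀ p ∈ l, ∀ q ∈ l, |(2 : ℝ) ^ 48 * F p.1 q.1 - (en p.1 q.1 : ℝ)| ≤ e)
    (h : cA en n rho (l.map mk) = true) (v : ι → ℝ) :
    -(((rho : ℝ) + e) / 2 ^ 48 * l.length * ((l.map Prod.fst).map fun x => v x ^ 2).sum) ≤
      ((l.map Prod.fst).map fun x => ((l.map Prod.fst).map fun y => F x y * (v x * v y)).sum).sum := by
  have hs := cA_sound F hF en n rho e hn l hd hen h
  have hp := psd (N := l.length) (n := n) (fun i j => F (l[i].1) (l[j].1)) (fun i => Lr (l[i].2))
    (ρ := ((rho : ℝ) + e) / 2 ^ 48) (by positivity)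
    (fun i j => hs _ (List.getElem_mem _) _ (List.getElem_mem _)) (fun i => v (l[i].1))
  have hsum : ∀ g : ι → ℝ, ((l.map Prod.fst).map g).sum = ∑ i : Fin l.length, g (l[i].1) := by
    intro g
    rw [List.map_map]
    have := Fin.sum_univ_getElem (l.map (g ∘ Prod.fst))
    rw [← this]
    have e1 : (l.map (g ∘ Prod.fst)).length = l.length := by simp
    refine Fintype.sum_equiv (finCongr e1) _ _ fun i => ?_
    simp
  rw [hsum]
  have e2 : ((l.map Prod.fst).map fun x => ((l.map Prod.fst).map fun y => F x y * (v x * v y)).sum).sum =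
      ∑ i : Fin l.length, ∑ j : Fin l.length, F (l[i].1) (l[j].1) * (v (l[i].1) * v (l[j].1)) := by
    rw [hsum]
    exact Finset.sum_congr rfl fun i _ => hsum _
  rw [e2]
  exact hp

/-- the certificate check: indices, packed rows -/
def cC (en : ι → ι → ℤ) (n rho : ℕ) (ix : List ι) (rows : List ℕ) : Bool :=
  Nat.ble ix.length rows.length && cA en n rho ((ix.zip (rows.map (dec n))).map mk)

theorem psd_cert (F : ι → ι → ℝ) (hF : ∀ x y, F x y = F y x) (en : ι → ι → ℤ) (n rho e : ℕ)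
    (hn : n * (2 ^ 32) ^ 2 < BB) (ix : List ι) (rows : List ℕ)
    (hen : ∀ x ∈ ix, ∀ y ∈ ix, |(2 : ℝ) ^ 48 * F x y - (en x y : ℝ)| ≤ e)
    (h : cC en n rho ix rows = true) (v : ι → ℝ) :
    -(((rho : ℝ) + e) / 2 ^ 48 * ix.length * (ix.map fun x => v x ^ 2).sum) ≤
      (ix.map fun x => (ix.map fun y => F x y * (v x * v y)).sum).sum := by
  rw [cC, Bool.and_eq_true] at h
  have hlen : ix.length ≤ rows.length := Nat.le_of_ble_eq_true h.1
  have hix : (ix.zip (rows.map (dec n))).map Prod.fst = ix := List.map_fst_zip (by simpa using hlen)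
  have hm : ∀ p ∈ ix.zip (rows.map (dec n)), p.1 ∈ ix := fun p hp => (List.of_mem_zip hp).1
  have := psd_list F hF en n rho e hn (ix.zip (rows.map (dec n))) (by
    intro p hp
    have h1 := (List.of_mem_zip (a := p.1) (b := p.2) (by simpa using hp)).2
    obtain ⟨N, _, hN⟩ := List.mem_map.1 h1
    rw [← hN]
    exact ⟨dec_len n N, dec_bd n N⟩) (fun p hp q hq => hen _ (hm p hp) _ (hm q hq)) h.2 v
  have hl2 : (ix.zip (rows.map (dec n))).length = ix.length := by
    rw [← List.length_map (f := Prod.fst), hix]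
  rw [hix, hl2] at this
  exact this

end Pool.Agent.Helper46.RC.Hd
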