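import Pool.Agent.Helper61.RC.NSR
import Pool.Agent.Helper41.RC.StRest

/-!
# Project RC / SHARP, link (7): the HEAD certificates, statements

`QR` (helper61) is the exact real form of link 3 in one sector. `Loc` = rational coefficients of everything else
(frequency `m`, content index `m - 1`).
-/

open Finset

namespace Pool.Agent.Helper46.RC.Hd

open Pool.Agent.Helper61.RC (QR)

/-- local data: coefficients of `s², p², u², 2 p u` at the frequency `m` and of `sg * s (m-1) * s (1-m)` -/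
structure Loc where
  z : ℤ → ℚ
  p : ℤ → ℚ
  r : ℤ → ℚ
  x : ℤ → ℚ
  f2 : ℚ

/-- the local form -/
noncomputable def LF (c : Loc) (sg : ℝ) (S : Finset ℤ) (p u s : ℤ → ℝ) : ℝ :=
  ∑ m ∈ S, ((c.z m : ℝ) * s (m - 1) ^ 2 + (c.p m : ℝ) * p (m - 1) ^ 2 + (c.r m : ℝ) * u (m - 1) ^ 2
    + 2 * (c.x m : ℝ) * (p (m - 1) * u (m - 1)) + sg * (c.f2 : ℝ) * (s (m - 1) * s (1 - m)))

/-- parities and symmetries of a sector: `(p, u, s) = (Re p, Im r, Re s)` for `sg = 1`,
`(Im p, - Re r, Im s)` for `sg = -1` -/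
structure Sec (sg : ℝ) (p u s : ℤ → ℝ) : Prop where
  po : ∀ n, ¬ Even n → p n = 0
  uo : ∀ n, ¬ Even n → u n = 0
  se : ∀ n, Even n → s n = 0
  pm : ∀ n, p (-n) = sg * p n
  um : ∀ n, u (-n) = -sg * u n

/-- THE FINITE CERTIFICATE (helper46): positivity in both sectors, `ph = π` -/
def StPos (d k : ℝ) (K : ℕ) (c : Loc) : Prop :=
  ∀ sg : ℝ, (sg = 1 ∨ sg = -1) → ∀ p u s : ℤ → ℝ, Sec sg p u s →
    0 ≤ QR d k (-1) 2 (Icc (1 - (K : ℤ)) (1 + K)) p u s + LF c sg (Icc (1 - (K : ℤ)) (1 + K)) p u s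

/-! ### the table of cosines -/

/-- entry `q` of a packed table of signed numbers, base `2^64`, offset `2^62` -/
def gT (N q : ℕ) : ℤ := ((Nat.shiftRight N (64 * q) % 2 ^ 64 : ℕ) : ℤ) - 2 ^ 62

end Pool.Agent.Helper46.RC.Hd
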