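import Pool.Agent.Helper46.RC.BesK
import Pool.Agent.Helper46.RC.HdPsd
import Pool.Agent.Helper46.RC.StHd

/-!
# Link (7), HEAD engine: the entries of the form in fixed point arithmetic
-/

open Finset

namespace Pool.Agent.Helper46.RC.Hd

open Helper31.Bes (J J_neg_ord J_neg_arg abs_J_le_one)
open Pool.Agent.Helper46.RC.BesK (run)
open Helper49.LT (ee ee_re ee_im)
open Helper95.RC (kq)
open Pool.Agent.Helper61.RC (xx)

/-! ### the table of Bessel functions -/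

/-- the table value of `J_j(q k/2)` is correct up to `EJ` -/
def jOK (kn kd NJ EJ q j : ℕ) : Bool :=
  let s := run (2 ^ 48) (q * kn) (2 * kd) j (4 + 2 * (q * kn) / (5 * kd))
  Nat.ble ((gT NJ (64 * q + j) - (s.el : ℤ) + (s.oh : ℤ)).natAbs + (s.eh + s.hi + s.oh - (s.ol + s.el))) EJ

theorem jOK_sound {kn kd NJ EJ q j : ℕ} (hk : 0 < kd) (h : jOK kn kd NJ EJ q j = true) :
    |(2 : ℝ) ^ 48 * J (j : ℤ) ((q : ℝ) * ((kn : ℝ) / kd) / 2) - (gT NJ (64 * q + j) : ℝ)| ≤ EJ := by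
  unfold jOK at h
  have h0 := Nat.le_of_ble_eq_true h
  set s := run (2 ^ 48) (q * kn) (2 * kd) j (4 + 2 * (q * kn) / (5 * kd)) with hs
  obtain ⟨h1, h2⟩ := BesK.bounds (2 ^ 48) (q * kn) (2 * kd) j (4 + 2 * (q * kn) / (5 * kd))
    (by positivity) (le_trans (by norm_num : 1 ≤ 4) (Nat.le_add_right _ _))
  rw [← hs] at h1 h2
  have ey : ((q * kn : ℕ) : ℝ) / ((2 * kd : ℕ) : ℝ) = (q : ℝ) * ((kn : ℝ) / kd) / 2 := by
    have : (kd : ℝ) ≠ 0 := by positivity
    push_cast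
    field_simp
  rw [ey] at h1 h2
  have e48 : (((2 ^ 48 : ℕ) : ℕ) : ℝ) = (2 : ℝ) ^ 48 := by norm_num
  rw [e48] at h1 h2
  set v := gT NJ (64 * q + j) with hv
  set x := (2 : ℝ) ^ 48 * J (j : ℤ) ((q : ℝ) * ((kn : ℝ) / kd) / 2) with hx
  set A : ℕ := (v - (s.el : ℤ) + (s.oh : ℤ)).natAbs with hA
  have hA' : |(v : ℝ) - s.el + s.oh| = A := by
    rw [hA, Nat.cast_natAbs]
    push_cast
    rfl
  have hB : ((s.eh : ℝ) + s.hi + s.oh) - (s.ol + s.el) ≤
      ((s.eh + s.hi + s.oh - (s.ol + s.el) : ℕ) : ℝ) := by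
    have : s.eh + s.hi + s.oh ≤ (s.eh + s.hi + s.oh - (s.ol + s.el)) + (s.ol + s.el) := by omega
    have h3 : (((s.eh + s.hi + s.oh : ℕ)) : ℝ) ≤
        (((s.eh + s.hi + s.oh - (s.ol + s.el)) + (s.ol + s.el) : ℕ) : ℝ) := by exact_mod_cast this
    push_cast at h3 ⊢
    linarith
  have h0' : (A : ℝ) + ((s.eh + s.hi + s.oh - (s.ol + s.el) : ℕ) : ℝ) ≤ EJ := by exact_mod_cast h0
  have hB0 : (0 : ℝ) ≤ ((s.eh + s.hi + s.oh - (s.ol + s.el) : ℕ) : ℝ) := by positivity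
  have hAle := abs_le.1 hA'.le
  rw [abs_le]
  constructor
  · linarith [hAle.1, hAle.2]
  · linarith [hAle.1, hAle.2]

/-- `j = n-1, .., 0` -/
def chJ1 (kn kd NJ EJ q : ℕ) : ℕ → Bool
  | 0 => true
  | j + 1 => (if (q + j) % 2 = 0 then jOK kn kd NJ EJ q j else true) && chJ1 kn kd NJ EJ q j

/-- all `q < n`, `3 j ≤ Q - q` -/
def chJ (kn kd NJ EJ Q : ℕ) : ℕ → Bool
  | 0 => true
  | q + 1 => chJ1 kn kd NJ EJ q ((Q - q) / 3 + 1) && chJ kn kd NJ EJ Q q

theorem chJ1_sound {kn kd NJ EJ q : ℕ} : ∀ n, chJ1 kn kd NJ EJ q n = true →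
    ∀ j < n, (q + j) % 2 = 0 → jOK kn kd NJ EJ q j = true := by
  intro n
  induction n with
  | zero => intro _ j hj; omega
  | succ n ih =>
    intro h j hj hp
    rw [chJ1, Bool.and_eq_true] at h
    rcases Nat.lt_succ_iff_lt_or_eq.1 hj with hj | hj
    · exact ih h.2 j hj hp
    · subst hj
      have := h.1
      rwa [if_pos hp] at this

theorem chJ_sound {kn kd NJ EJ Q : ℕ} : ∀ n, chJ kn kd NJ EJ Q n = true →
    ∀ q < n, ∀ j, 3 * j ≤ Q - q → (q + j) % 2 = 0 → jOK kn kd NJ EJ q j = true := by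
  intro n
  induction n with
  | zero => intro _ q hq; omega
  | succ n ih =>
    intro h q hq j hj hp
    rw [chJ, Bool.and_eq_true] at h
    rcases Nat.lt_succ_iff_lt_or_eq.1 hq with hq | hq
    · exact ih h.2 q hq j hj hp
    · subst hq
      exact chJ1_sound _ h.1 j (by omega) hp

/-! ### the trigonometric coefficients -/

/-- `cos (π r/3) = X/2`, `sin (π r/3) = √3 Y/2` -/
def xt : ℕ → ℤ × ℤ
  | 0 => (2, 0)
  | 1 => (1, 1)
  | 2 => (-1, 1)
  | 3 => (-2, 0)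
  | 4 => (-1, -1)
  | _ => (1, -1)

/-- `16 θ = A + i √3 B` -/
def th : ℕ → ℕ → ℤ × ℤ
  | 0, 0 => (-16, 0)
  | 0, 1 => (-8, 8)
  | 1, 0 => (-8, 8)
  | 0, 2 => (4, -16)
  | 2, 0 => (4, -16)
  | 1, 1 => (8, 8)
  | 2, 2 => (47, 8)
  | 1, 2 => (-22, -10)
  | 2, 1 => (-22, -10)
  | _, _ => (0, 0)

/-- the trigonometric factor of the pair of types `t, u` -/
noncomputable def tau (t u : ℕ) (x : ℝ) : ℝ :=
  ((th t u).1 * Real.cos x - (th t u).2 * (Real.sqrt 3 * Real.sin x)) / 16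

theorem xt_cos (m : ℤ) : Real.cos ((m : ℝ) * (Real.pi / 3)) = ((xt (m % 6).toNat).1 : ℝ) / 2 ∧
    Real.sin ((m : ℝ) * (Real.pi / 3)) = Real.sqrt 3 * ((xt (m % 6).toNat).2 : ℝ) / 2 := by
  obtain ⟨r, k, hr, hm⟩ : ∃ r k : ℤ, (r = 0 ∨ r = 1 ∨ r = 2 ∨ r = 3 ∨ r = 4 ∨ r = 5) ∧ m = r + 6 * k :=
    ⟨m % 6, m / 6, by omega, by omega⟩
  have e : (m : ℝ) * (Real.pi / 3) = (r : ℝ) * (Real.pi / 3) + k * (2 * Real.pi) := by
    rw [hm]; push_cast; ring
  have e6 : m % 6 = r := by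
    rcases hr with h | h | h | h | h | h <;> omega
  rw [e, Real.cos_add_int_mul_two_pi, Real.sin_add_int_mul_two_pi, e6]
  have c1 := Real.cos_pi_div_three
  have s1 := Real.sin_pi_div_three
  rcases hr with h | h | h | h | h | h <;> subst h
  · simp [xt]
  · simp [xt, c1, s1]
  · have e2 : ((2 : ℤ) : ℝ) * (Real.pi / 3) = Real.pi - Real.pi / 3 := by push_cast; ring
    rw [e2, Real.cos_pi_sub, Real.sin_pi_sub, c1, s1]
    constructor
    · show _ = ((-1 : ℤ) : ℝ) / 2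
      push_cast; ring
    · show _ = Real.sqrt 3 * ((1 : ℤ) : ℝ) / 2
      push_cast; ring
  · have e2 : ((3 : ℤ) : ℝ) * (Real.pi / 3) = Real.pi := by push_cast; ring
    rw [e2, Real.cos_pi, Real.sin_pi]
    constructor
    · show _ = ((-2 : ℤ) : ℝ) / 2
      push_cast; ring
    · show _ = Real.sqrt 3 * ((0 : ℤ) : ℝ) / 2
      push_cast; ring
  · have e2 : ((4 : ℤ) : ℝ) * (Real.pi / 3) = Real.pi / 3 + Real.pi := by push_cast; ring
    rw [e2, Real.cos_add_pi, Real.sin_add_pi, c1, s1]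
    constructor
    · show _ = ((-1 : ℤ) : ℝ) / 2
      push_cast; ring
    · show _ = Real.sqrt 3 * ((-1 : ℤ) : ℝ) / 2
      push_cast; ring
  · have e2 : ((5 : ℤ) : ℝ) * (Real.pi / 3) = -(Real.pi / 3) + 2 * Real.pi := by push_cast; ring
    rw [e2, Real.cos_add_two_pi, Real.sin_add_two_pi, Real.cos_neg, Real.sin_neg, c1, s1]
    constructor
    · show _ = ((1 : ℤ) : ℝ) / 2
      push_cast; ring
    · show _ = Real.sqrt 3 * ((-1 : ℤ) : ℝ) / 2
      push_cast; ring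

/-- the integer coefficients of `cos`, `√3 sin` at the frequency `m` -/
def cA' (t u : ℕ) (m : ℤ) : ℤ :=
  (th t u).1 * (xt (m % 6).toNat).1 - 3 * (th t u).2 * (xt (m % 6).toNat).2
def cB' (t u : ℕ) (m : ℤ) : ℤ :=
  (th t u).2 * (xt (m % 6).toNat).1 + (th t u).1 * (xt (m % 6).toNat).2

theorem tau_eq (t u : ℕ) (m : ℤ) (y : ℝ) : tau t u ((m : ℝ) * (Real.pi / 3) - y) =
    ((cA' t u m : ℝ) * Real.cos y + (cB' t u m : ℝ) * (Real.sqrt 3 * Real.sin y)) / 32 := by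
  obtain ⟨h1, h2⟩ := xt_cos m
  have h3 : Real.sqrt 3 * Real.sqrt 3 = 3 := Real.mul_self_sqrt (by norm_num)
  unfold tau cA' cB'
  rw [Real.cos_sub, Real.sin_sub, h1, h2]
  push_cast
  linear_combination (-(((th t u).2 : ℝ) * ((xt (m % 6).toNat).2 : ℝ) * Real.cos y) / 32) * h3

theorem th_bd (t u : ℕ) : |(th t u).1| ≤ 47 ∧ |(th t u).2| ≤ 16 := by
  unfold th
  split <;> exact ⟨by decide, by decide⟩

theorem xt_bd (r : ℕ) : |(xt r).1| ≤ 2 ∧ |(xt r).2| ≤ 1 := by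
  unfold xt
  split <;> exact ⟨by decide, by decide⟩

theorem cA_bd (t u : ℕ) (m : ℤ) : |cA' t u m| ≤ 142 ∧ |cB' t u m| ≤ 79 := by
  obtain ⟨h1, h2⟩ := th_bd t u
  obtain ⟨h3, h4⟩ := xt_bd (m % 6).toNat
  unfold cA' cB'
  have g1 : |(th t u).1 * (xt (m % 6).toNat).1| ≤ 47 * 2 := by
    rw [abs_mul]; exact mul_le_mul h1 h3 (abs_nonneg _) (by norm_num)
  have g2 : |(th t u).2 * (xt (m % 6).toNat).2| ≤ 16 * 1 := by
    rw [abs_mul]; exact mul_le_mul h2 h4 (abs_nonneg _) (by norm_num)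
  have g3 : |(th t u).2 * (xt (m % 6).toNat).1| ≤ 16 * 2 := by
    rw [abs_mul]; exact mul_le_mul h2 h3 (abs_nonneg _) (by norm_num)
  have g4 : |(th t u).1 * (xt (m % 6).toNat).2| ≤ 47 * 1 := by
    rw [abs_mul]; exact mul_le_mul h1 h4 (abs_nonneg _) (by norm_num)
  rw [abs_le] at g1 g2 g3 g4
  constructor
  · rw [abs_le]
    constructor <;> nlinarith [g1.1, g1.2, g2.1, g2.2]
  · rw [abs_le]
    constructor <;> nlinarith [g3.1, g3.2, g4.1, g4.2]

/-! ### the entries of the nonlocal part -/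

/-- the real entry -/
noncomputable def Cc (d k : ℝ) (t : ℕ) (m : ℤ) (u : ℕ) (n : ℤ) : ℝ :=
  if (3 : ℤ) ∣ n - m then
    4 / ((m + n : ℤ) : ℝ) * J ((n - m) / 3) (((m + n : ℤ) : ℝ) * k / 2) *
      ((-1 : ℝ) ^ ((n - m) / 3) * tau t u (xx d m n))
  else 0

/-- integer division of reals -/
theorem div_err (a b : ℤ) : |(a : ℝ) / b - ((a / b : ℤ) : ℝ)| ≤ 1 := by
  rcases eq_or_ne b 0 with h | h
  · rw [h]; simp
  · have h1 := Int.emod_add_mul_ediv a b
    have h2 : (a : ℝ) = ((a % b : ℤ) : ℝ) + (b : ℝ) * ((a / b : ℤ) : ℝ) := by exact_mod_cast h1.symm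
    have hb : (b : ℝ) ≠ 0 := by exact_mod_cast h
    have h3 : (a : ℝ) / b - ((a / b : ℤ) : ℝ) = ((a % b : ℤ) : ℝ) / b := by
      rw [h2]; field_simp; ring
    rw [h3, abs_div]
    have h4 : 0 ≤ a % b := Int.emod_nonneg a h
    have h5 : a % b < |b| := Int.emod_lt_abs a h
    rw [div_le_one (abs_pos.2 hb), ← Int.cast_abs, ← Int.cast_abs, abs_of_nonneg h4]
    exact_mod_cast h5.le

/-- the integer entry -/
def enC (NJ Nc Nt : ℕ) (t : ℕ) (m : ℤ) (u : ℕ) (n : ℤ) : ℤ :=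
  if (n - m) % 3 = 0 then
    let P := m + n
    let j := (n - m) / 3
    let G := cA' t u m * gT Nc P.natAbs + (if 0 ≤ P then cB' t u m else -cB' t u m) * gT Nt P.natAbs
    let v := gT NJ (64 * P.natAbs + j.natAbs)
    let w := if (decide (j < 0)) == (decide (P < 0)) then (if j.natAbs % 2 = 0 then v else -v) else v
    w * G / (8 * P * 2 ^ 48)
  else 0

/-- the sign rule -/
theorem J_sign (j P : ℤ) (k : ℝ) : (-1 : ℝ) ^ j * J j ((P : ℝ) * k / 2) =
    (if (decide (j < 0)) == (decide (P < 0)) then (if j.natAbs % 2 = 0 then 1 else -1) else 1 : ℝ) *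
      J (j.natAbs : ℤ) ((P.natAbs : ℝ) * k / 2) := by
  have hpar : (-1 : ℝ) ^ j = if j.natAbs % 2 = 0 then 1 else -1 := by
    rcases Int.even_or_odd j with h | h
    · have : j.natAbs % 2 = 0 := by
        obtain ⟨r, hr⟩ := h; omega
      rw [h.neg_one_zpow, if_pos this]
    · have : ¬ j.natAbs % 2 = 0 := by
        obtain ⟨r, hr⟩ := h; omega
      rw [h.neg_one_zpow, if_neg this]
  have hsq : (-1 : ℝ) ^ j * (-1 : ℝ) ^ j = 1 := by
    rw [← mul_zpow]; norm_num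
  rcases lt_or_ge j 0 with hj | hj <;> rcases lt_or_ge P 0 with hP | hP
  · -- both negative
    have e1 : (j.natAbs : ℤ) = -j := by omega
    have e2 : ((P.natAbs : ℕ) : ℝ) = -(P : ℝ) := by
      rw [Nat.cast_natAbs, abs_of_neg hP]; push_cast; ring
    have e3 : (decide (j < 0)) == (decide (P < 0)) := by simp [hj, hP]
    rw [if_pos e3, ← hpar, e1, e2]
    congr 1
    rw [show (-(P : ℝ)) * k / 2 = -((P : ℝ) * k / 2) by ring, J_neg_arg, neg_neg]
  · have e1 : (j.natAbs : ℤ) = -j := by omega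
    have e2 : ((P.natAbs : ℕ) : ℝ) = (P : ℝ) := by
      rw [Nat.cast_natAbs, abs_of_nonneg hP]
    have e3 : ¬ ((decide (j < 0)) == (decide (P < 0))) := by simp [hj, hP]
    rw [if_neg e3, e1, e2, one_mul, J_neg_ord]
  · have e1 : (j.natAbs : ℤ) = j := by omega
    have e2 : ((P.natAbs : ℕ) : ℝ) = -(P : ℝ) := by
      rw [Nat.cast_natAbs, abs_of_neg hP]; push_cast; ring
    have e3 : ¬ ((decide (j < 0)) == (decide (P < 0))) := by simp [hj, hP]
    rw [if_neg e3, e1, e2, one_mul, show (-(P : ℝ)) * k / 2 = -((P : ℝ) * k / 2) by ring, J_neg_arg,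
      J_neg_ord]
  · have e1 : (j.natAbs : ℤ) = j := by omega
    have e2 : ((P.natAbs : ℕ) : ℝ) = (P : ℝ) := by
      rw [Nat.cast_natAbs, abs_of_nonneg hP]
    have e3 : (decide (j < 0)) == (decide (P < 0)) := by simp [not_lt.2 hj, not_lt.2 hP]
    rw [if_pos e3, ← hpar, e1, e2]

/-- tables correct: `NJ` for `q + 3 j ≤ Q`, `Nc, Nt` for `q ≤ Q` -/
structure Tab (d k : ℝ) (NJ Nc Nt EJ E Q : ℕ) : Prop where
  j : ∀ q j : ℕ, q + 3 * j ≤ Q → (q + j) % 2 = 0 →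
    |(2 : ℝ) ^ 48 * J (j : ℤ) ((q : ℝ) * k / 2) - (gT NJ (64 * q + j) : ℝ)| ≤ EJ
  c : ∀ q ≤ Q, |(2 : ℝ) ^ 48 * Real.cos ((q : ℝ) * (d / 2)) - (gT Nc q : ℝ)| ≤ E
  s : ∀ q ≤ Q, |(2 : ℝ) ^ 48 * (Real.sqrt 3 * Real.sin ((q : ℝ) * (d / 2))) - (gT Nt q : ℝ)| ≤ E

/-- abstract error propagation -/
theorem prod_err {a a' b b' P : ℝ} {E EJ : ℝ} (hP : 1 ≤ |P|) (ha : |a| ≤ 2 ^ 48) (haa : |a - a'| ≤ EJ)
    (hb : |b| ≤ 300 * 2 ^ 48) (hbb : |b - b'| ≤ 300 * E) (hE : 0 ≤ E) (hEJ : 0 ≤ EJ) (h1 : E ≤ 2 ^ 20)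
    (h2 : EJ ≤ 2 ^ 20) :
    |a * b / (8 * P * 2 ^ 48) - a' * b' / (8 * P * 2 ^ 48)| ≤ 38 * E + 38 * EJ + 1 := by
  have e1 : a * b - a' * b' = a * (b - b') + b * (a - a') - (a - a') * (b - b') := by ring
  have e2 : |a * b - a' * b'| ≤ 2 ^ 48 * (300 * E) + 300 * 2 ^ 48 * EJ + EJ * (300 * E) := by
    rw [e1]
    have g1 : |a * (b - b')| ≤ 2 ^ 48 * (300 * E) := by
      rw [abs_mul]; exact mul_le_mul ha hbb (abs_nonneg _) (by positivity)
    have g2 : |b * (a - a')| ≤ 300 * 2 ^ 48 * EJ := by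
      rw [abs_mul]; exact mul_le_mul hb haa (abs_nonneg _) (by positivity)
    have g3 : |(a - a') * (b - b')| ≤ EJ * (300 * E) := by
      rw [abs_mul]; exact mul_le_mul haa hbb (abs_nonneg _) hEJ
    rw [abs_le] at g1 g2 g3 ⊢
    constructor <;> linarith [g1.1, g1.2, g2.1, g2.2, g3.1, g3.2]
  have hPp : 0 < |P| := by linarith
  rw [← sub_div, abs_div]
  have e3 : |8 * P * 2 ^ 48| = 8 * |P| * 2 ^ 48 := by
    rw [abs_mul, abs_mul]; norm_num
  rw [e3, div_le_iff₀ (by positivity)]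
  have e4 : EJ * (300 * E) ≤ 8 * 2 ^ 48 := by nlinarith
  have e5 : (38 * E + 38 * EJ + 1) * (8 * 1 * 2 ^ 48) ≤ (38 * E + 38 * EJ + 1) * (8 * |P| * 2 ^ 48) := by
    apply mul_le_mul_of_nonneg_left _ (by positivity)
    nlinarith
  nlinarith

theorem enC_sound {d k : ℝ} {NJ Nc Nt EJ E Q : ℕ} (T : Tab d k NJ Nc Nt EJ E Q) (hE : E ≤ 2 ^ 20)
    (hEJ : EJ ≤ 2 ^ 20) (t u : ℕ) (m n : ℤ) (hm : 2 * m.natAbs ≤ Q) (hn : 2 * n.natAbs ≤ Q) :
    |(2 : ℝ) ^ 48 * Cc d k t m u n - (enC NJ Nc Nt t m u n : ℝ)| ≤ 38 * E + 38 * EJ + 2 := by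
  unfold Cc enC
  by_cases h3 : (3 : ℤ) ∣ n - m
  · rw [if_pos h3, if_pos (Int.emod_eq_zero_of_dvd h3)]
    simp only
    set P := m + n with hP
    set j := (n - m) / 3 with hj
    have hj3 : n - m = 3 * j := by omega
    rcases eq_or_ne P 0 with h0 | h0
    · rw [h0]
      simp only [Int.cast_zero, div_zero, zero_mul, mul_zero, Int.ediv_zero, sub_zero, abs_zero]
      positivity
    · have hq : P.natAbs ≤ Q := by omega
      have hqj : P.natAbs + 3 * j.natAbs ≤ Q := by omega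
      have hpar : (P.natAbs + j.natAbs) % 2 = 0 := by omega
      have hc := T.c _ hq
      have hs := T.s _ hq
      have hJ := T.j _ _ hqj hpar
      set q := P.natAbs with hqd
      -- the real quantities
      set σ : ℤ := if 0 ≤ P then 1 else -1 with hσ
      have hPσ : (P : ℝ) = (σ : ℝ) * (q : ℝ) := by
        rw [hσ, hqd, Nat.cast_natAbs]
        by_cases h : 0 ≤ P
        · rw [if_pos h, abs_of_nonneg h]; push_cast; ring
        · rw [if_neg h, abs_of_neg (not_le.1 h)]; push_cast; ring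
      have hσ2 : (σ = 1 ∨ σ = -1) := by
        rw [hσ]; by_cases h : 0 ≤ P <;> simp [h]
      have hx : xx d m n = (m : ℝ) * (Real.pi / 3) - (σ : ℝ) * ((q : ℝ) * (d / 2)) := by
        unfold xx
        rw [← hP, hPσ]
        ring
      set y := (q : ℝ) * (d / 2) with hy
      have htau : tau t u (xx d m n) =
          ((cA' t u m : ℝ) * Real.cos y + ((σ : ℝ) * (cB' t u m : ℝ)) * (Real.sqrt 3 * Real.sin y)) / 32 := by
        rw [hx, tau_eq]
        rcases hσ2 with h | h <;> rw [h]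
        · push_cast; rw [one_mul]; ring
        · push_cast; rw [show (-1 : ℝ) * y = -y by ring, Real.cos_neg, Real.sin_neg]; ring
      set ε : ℤ := if (decide (j < 0)) == (decide (P < 0)) then (if j.natAbs % 2 = 0 then 1 else -1) else 1
        with hε
      have hJs := J_sign j P k
      rw [← hqd] at hJs
      have hεr : ((if (decide (j < 0)) == (decide (P < 0)) then (if j.natAbs % 2 = 0 then 1 else -1) else 1 : ℝ))
          = (ε : ℝ) := by
        rw [hε]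
        split_ifs <;> push_cast <;> rfl
      rw [hεr] at hJs
      have hε2 : (ε = 1 ∨ ε = -1) := by
        rw [hε]; split_ifs <;> simp
      set v := gT NJ (64 * q + j.natAbs) with hv
      have hw : (if (decide (j < 0)) == (decide (P < 0)) then (if j.natAbs % 2 = 0 then v else -v) else v)
          = ε * v := by
        rw [hε]
        split_ifs <;> ring
      have hG : (if 0 ≤ P then cB' t u m else -cB' t u m) = σ * cB' t u m := by
        rw [hσ]
        split_ifs <;> ring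
      rw [hw, hG]
      set A := cA' t u m with hA
      set B := σ * cB' t u m with hB
      have hAb := (cA_bd t u m).1
      have hBb : |B| ≤ 79 := by
        rw [hB, abs_mul]
        have := (cA_bd t u m).2
        rcases hσ2 with h | h <;> rw [h] <;> simpa using this
      set G : ℤ := A * gT Nc q + B * gT Nt q with hGd
      set a : ℝ := (ε : ℝ) * ((2 : ℝ) ^ 48 * J (j.natAbs : ℤ) ((q : ℝ) * k / 2)) with ha
      set b : ℝ := (2 : ℝ) ^ 48 * ((A : ℝ) * Real.cos y + (B : ℝ) * (Real.sqrt 3 * Real.sin y)) with hb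
      have hreal : (2 : ℝ) ^ 48 * (4 / (P : ℝ) * J j ((P : ℝ) * k / 2) * ((-1 : ℝ) ^ j * tau t u (xx d m n))) =
          a * b / (8 * P * 2 ^ 48) := by
        have hPr : (P : ℝ) ≠ 0 := by exact_mod_cast h0
        have e1 : (2 : ℝ) ^ 48 * (4 / (P : ℝ) * J j ((P : ℝ) * k / 2) * ((-1 : ℝ) ^ j * tau t u (xx d m n))) =
            (2 : ℝ) ^ 48 * (4 / (P : ℝ) * ((-1 : ℝ) ^ j * J j ((P : ℝ) * k / 2)) * tau t u (xx d m n)) := by
          ring
        rw [e1, hJs, htau, ha, hb, hB]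
        push_cast
        field_simp
        ring
      rw [hreal]
      have habsa : |a| ≤ 2 ^ 48 := by
        rw [ha, abs_mul, abs_mul]
        have h5 : |(ε : ℝ)| = 1 := by rcases hε2 with h | h <;> rw [h] <;> simp
        have h6 := abs_J_le_one (j.natAbs : ℤ) ((q : ℝ) * k / 2)
        rw [h5, one_mul, abs_of_pos (by positivity : (0 : ℝ) < 2 ^ 48)]
        nlinarith
      have haa : |a - ((ε * v : ℤ) : ℝ)| ≤ EJ := by
        rw [ha, Int.cast_mul]
        rw [← mul_sub, abs_mul]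
        have h5 : |(ε : ℝ)| = 1 := by rcases hε2 with h | h <;> rw [h] <;> simp
        rw [h5, one_mul]
        exact hJ
      have hAr : |(A : ℝ)| ≤ 142 := by rw [← Int.cast_abs]; exact_mod_cast hAb
      have hBr : |(B : ℝ)| ≤ 79 := by rw [← Int.cast_abs]; exact_mod_cast hBb
      have hs3 : Real.sqrt 3 ≤ 2 := by
        rw [Real.sqrt_le_left (by norm_num)]; norm_num
      have hs30 : 0 ≤ Real.sqrt 3 := Real.sqrt_nonneg _
      have habsb : |b| ≤ 300 * 2 ^ 48 := by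
        have g1 : |(A : ℝ) * Real.cos y| ≤ 142 * 1 := by
          rw [abs_mul]; exact mul_le_mul hAr (Real.abs_cos_le_one _) (abs_nonneg _) (by norm_num)
        have g2 : |Real.sqrt 3 * Real.sin y| ≤ 2 * 1 := by
          rw [abs_mul, abs_of_nonneg hs30]
          exact mul_le_mul hs3 (Real.abs_sin_le_one _) (abs_nonneg _) (by norm_num)
        have g3 : |(B : ℝ) * (Real.sqrt 3 * Real.sin y)| ≤ 79 * (2 * 1) := by
          rw [abs_mul]; exact mul_le_mul hBr g2 (abs_nonneg _) (by norm_num)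
        rw [hb, abs_mul, abs_of_pos (by positivity : (0 : ℝ) < 2 ^ 48), mul_comm]
        apply mul_le_mul_of_nonneg_right _ (by positivity)
        exact (abs_add_le _ _).trans (by linarith)
      have hbb : |b - ((G : ℤ) : ℝ)| ≤ 300 * E := by
        have e2 : b - ((G : ℤ) : ℝ) = (A : ℝ) * ((2 : ℝ) ^ 48 * Real.cos y - (gT Nc q : ℝ))
            + (B : ℝ) * ((2 : ℝ) ^ 48 * (Real.sqrt 3 * Real.sin y) - (gT Nt q : ℝ)) := by
          rw [hb, hGd]; push_cast; ring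
        rw [e2]
        have g1 : |(A : ℝ) * ((2 : ℝ) ^ 48 * Real.cos y - (gT Nc q : ℝ))| ≤ 142 * E := by
          rw [abs_mul]; exact mul_le_mul hAr hc (abs_nonneg _) (by norm_num)
        have g2 : |(B : ℝ) * ((2 : ℝ) ^ 48 * (Real.sqrt 3 * Real.sin y) - (gT Nt q : ℝ))| ≤ 79 * E := by
          rw [abs_mul]; exact mul_le_mul hBr hs (abs_nonneg _) (by norm_num)
        refine (abs_add_le _ _).trans ?_
        have : (0 : ℝ) ≤ E := by positivity
        linarith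
      have hP1 : 1 ≤ |(P : ℝ)| := by
        rw [← Int.cast_abs]
        exact_mod_cast Int.one_le_abs h0
      have key := prod_err hP1 habsa haa habsb hbb (by positivity) (by positivity)
        (by exact_mod_cast hE) (by exact_mod_cast hEJ)
      have hdiv := div_err (ε * v * G) (8 * P * 2 ^ 48)
      have e3 : ((ε * v * G : ℤ) : ℝ) / ((8 * P * 2 ^ 48 : ℤ) : ℝ) =
          ((ε * v : ℤ) : ℝ) * ((G : ℤ) : ℝ) / (8 * (P : ℝ) * 2 ^ 48) := by
        push_cast; ring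
      rw [e3] at hdiv
      have e4 := abs_sub_le (a * b / (8 * (P : ℝ) * 2 ^ 48))
        (((ε * v : ℤ) : ℝ) * ((G : ℤ) : ℝ) / (8 * (P : ℝ) * 2 ^ 48))
        (((ε * v * G / (8 * P * 2 ^ 48) : ℤ)) : ℝ)
      linarith
  · have h3' : ¬ (n - m) % 3 = 0 := by omega
    rw [if_neg h3, if_neg h3']
    simp
    positivity

end Pool.Agent.Helper46.RC.Hd
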