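import Pool.Agent.Helper46.RC.HdEnt

/-!
# Link (7), HEAD engine: the matrix of the form, the main theorem
-/

open Finset

namespace Pool.Agent.Helper46.RC.Hd

open Helper31.Bes (J J_neg_ord J_neg_arg abs_J_le_one)
open Helper49.LT (ee ee_re ee_im ee_add)
open Helper95.RC (kq)
open Pool.Agent.Helper61.RC (xx QR entR dgR BrR)

/-! ### symmetry of the entries -/

theorem th_symm (t u : ℕ) : th t u = th u t := by
  rcases t with _ | _ | _ | t <;> rcases u with _ | _ | _ | u <;> rfl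

theorem tau_symm (t u : ℕ) (x : ℝ) : tau t u x = tau u t x := by
  unfold tau; rw [th_symm]

theorem tau_shift (t u : ℕ) (x : ℝ) (j : ℤ) : tau t u (x + j * Real.pi) = (-1 : ℝ) ^ j * tau t u x := by
  unfold tau
  rw [Real.cos_add_int_mul_pi, Real.sin_add_int_mul_pi]
  ring

theorem Cc_symm (d k : ℝ) (t : ℕ) (m : ℤ) (u : ℕ) (n : ℤ) : Cc d k t m u n = Cc d k u n t m := by
  unfold Cc
  by_cases h : (3 : ℤ) ∣ n - m
  · have h' : (3 : ℤ) ∣ m - n := by
      have := (dvd_neg (a := (3 : ℤ))).2 h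
      rwa [neg_sub] at this
    rw [if_pos h, if_pos h']
    obtain ⟨j, hj⟩ := h
    have e1 : (n - m) / 3 = j := by omega
    have e2 : (m - n) / 3 = -j := by omega
    have hn : n = m + 3 * j := by omega
    rw [e1, e2, add_comm n m, J_neg_ord]
    have e3 : xx d n m = xx d m n + j * Real.pi := by
      unfold xx
      rw [add_comm n m, hn]
      push_cast
      ring
    rw [e3, tau_shift, tau_symm u t]
    have e4 : (-1 : ℝ) ^ (-j) = (-1 : ℝ) ^ j := by
      rw [zpow_neg, ← inv_zpow]; norm_num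
    have e5 : (-1 : ℝ) ^ j * (-1 : ℝ) ^ j = 1 := by rw [← mul_zpow]; norm_num
    rw [e4]
    linear_combination (-(4 / ((m + n : ℤ) : ℝ) * J j (((m + n : ℤ) : ℝ) * k / 2) * (-1 : ℝ) ^ j *
      tau t u (xx d m n))) * e5
  · have h' : ¬ (3 : ℤ) ∣ m - n := by
      intro hc
      apply h
      have := (dvd_neg (a := (3 : ℤ))).2 hc
      rwa [neg_sub] at this
    rw [if_neg h, if_neg h']

/-! ### the bracket -/

/-- the content of type `t` at the frequency `m` -/
def VV (p u s : ℤ → ℝ) (x : ℕ × ℤ) : ℝ :=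
  match x.1 with
  | 0 => s (x.2 - 1)
  | 1 => p (x.2 - 1)
  | 2 => u (x.2 - 1)
  | _ => 0

theorem kq_re : (kq 2).re = Real.sqrt 3 := by
  unfold kq
  simp only [Complex.add_re, Complex.ofReal_re, Complex.mul_re, Complex.I_re, Complex.I_im,
    Complex.ofReal_im]
  ring

theorem kq_im : (kq 2).im = 1 / 4 := by
  unfold kq
  simp only [Complex.add_im, Complex.ofReal_re, Complex.mul_im, Complex.I_re, Complex.I_im,
    Complex.ofReal_im]
  ring

theorem kx_im (x : ℝ) : (kq 2 * ee x).im = tau 0 2 x := by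
  rw [Complex.mul_im, ee_re, ee_im, kq_re, kq_im]
  show _ = (((4 : ℤ) : ℝ) * Real.cos x - ((-16 : ℤ) : ℝ) * (Real.sqrt 3 * Real.sin x)) / 16
  push_cast
  ring

theorem k2_re (x : ℝ) : (kq 2 ^ 2 * ee x).re = tau 2 2 x := by
  have h3 : Real.sqrt 3 * Real.sqrt 3 = 3 := Real.mul_self_sqrt (by norm_num)
  rw [sq, Complex.mul_re, Complex.mul_re, Complex.mul_im, ee_re, ee_im, kq_re, kq_im]
  show _ = (((47 : ℤ) : ℝ) * Real.cos x - ((8 : ℤ) : ℝ) * (Real.sqrt 3 * Real.sin x)) / 16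
  push_cast
  linear_combination (Real.cos x) * h3

theorem k6_re (x : ℝ) : (kq 2 * ee (x + Real.pi / 6)).re = -tau 1 2 x := by
  have h3 : Real.sqrt 3 * Real.sqrt 3 = 3 := Real.mul_self_sqrt (by norm_num)
  rw [Complex.mul_re, ee_re, ee_im, kq_re, kq_im, Real.cos_add, Real.sin_add, Real.cos_pi_div_six,
    Real.sin_pi_div_six]
  show _ = -((((-22 : ℤ) : ℝ) * Real.cos x - ((-10 : ℤ) : ℝ) * (Real.sqrt 3 * Real.sin x)) / 16)
  push_cast
  linear_combination (Real.cos x / 2) * h3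

theorem c3_re (x : ℝ) : Real.cos (x + Real.pi / 3) = tau 1 1 x := by
  rw [Real.cos_add, Real.cos_pi_div_three, Real.sin_pi_div_three]
  show _ = (((8 : ℤ) : ℝ) * Real.cos x - ((8 : ℤ) : ℝ) * (Real.sqrt 3 * Real.sin x)) / 16
  push_cast
  ring

theorem s6_re (x : ℝ) : Real.sin (x + Real.pi / 6) = -tau 0 1 x := by
  rw [Real.sin_add, Real.cos_pi_div_six, Real.sin_pi_div_six]
  show _ = -((((-8 : ℤ) : ℝ) * Real.cos x - ((8 : ℤ) : ℝ) * (Real.sqrt 3 * Real.sin x)) / 16)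
  push_cast
  ring

theorem c0_re (x : ℝ) : Real.cos x = -tau 0 0 x := by
  show _ = -((((-16 : ℤ) : ℝ) * Real.cos x - ((0 : ℤ) : ℝ) * (Real.sqrt 3 * Real.sin x)) / 16)
  push_cast
  ring

theorem BrR_eq (x : ℝ) (p u s : ℤ → ℝ) (m n : ℤ) :
    BrR (kq 2) x (p (m - 1)) (u (m - 1)) (s (m - 1)) (p (n - 1)) (u (n - 1)) (s (n - 1)) =
      ∑ t ∈ range 3, ∑ w ∈ range 3, tau t w x * (VV p u s (t, m) * VV p u s (w, n)) := by
  unfold BrR
  rw [kx_im, k2_re, k6_re, c3_re, s6_re, c0_re]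
  simp only [Finset.sum_range_succ, Finset.sum_range_zero, zero_add]
  rw [tau_symm 1 0, tau_symm 2 0, tau_symm 2 1]
  simp only [VV]
  ring

/-! ### the matrix -/

/-- the rational local data of the pair of types `t, u` -/
def dlq (c : Loc) (Λ δ : ℚ) (t u : ℕ) (m : ℤ) : ℚ :=
  match t, u with
  | 0, 0 => 2 / m + c.z m - δ
  | 1, 1 => 2 / m + c.p m + Λ - δ
  | 2, 2 => 49 / (8 * m) + c.r m + Λ - δ
  | 1, 2 => -13 / (4 * m) + c.x m
  | 2, 1 => -13 / (4 * m) + c.x m
  | _, _ => 0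

/-- the mirror entries -/
def mir (c : Loc) (Λ : ℚ) (sg : ℤ) (t : ℕ) : ℚ :=
  match t with
  | 0 => sg * c.f2
  | 1 => -sg * Λ
  | 2 => sg * Λ
  | _ => 0

/-- the matrix -/
noncomputable def FF (d k : ℝ) (c : Loc) (Λ δ : ℚ) (sg : ℤ) (x y : ℕ × ℤ) : ℝ :=
  Cc d k x.1 x.2 y.1 y.2 + (if x.2 = y.2 then (dlq c Λ δ x.1 y.1 x.2 : ℝ) else 0)
    + (if x.2 + y.2 = 2 ∧ x.1 = y.1 then (mir c Λ sg x.1 : ℝ) else 0)

theorem dlq_symm (c : Loc) (Λ δ : ℚ) (t u : ℕ) (m : ℤ) : dlq c Λ δ t u m = dlq c Λ δ u t m := by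
  rcases t with _ | _ | _ | t <;> rcases u with _ | _ | _ | u <;> rfl

theorem FF_symm (d k : ℝ) (c : Loc) (Λ δ : ℚ) (sg : ℤ) (x y : ℕ × ℤ) :
    FF d k c Λ δ sg x y = FF d k c Λ δ sg y x := by
  unfold FF
  rw [Cc_symm]
  congr 1
  · congr 1
    by_cases h : x.2 = y.2
    · rw [if_pos h, if_pos h.symm, h, dlq_symm]
    · rw [if_neg h, if_neg (fun h' => h h'.symm)]
  · by_cases h : x.2 + y.2 = 2 ∧ x.1 = y.1
    · rw [if_pos h, if_pos ⟨by rw [add_comm]; exact h.1, h.2.symm⟩, h.2]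
    · rw [if_neg h, if_neg (fun h' => h ⟨by rw [add_comm]; exact h'.1, h'.2.symm⟩)]

/-- rational to integer -/
def flq (r : ℚ) : ℤ := r.num * 2 ^ 48 / r.den

theorem flq_err (r : ℚ) : |(2 : ℝ) ^ 48 * (r : ℝ) - (flq r : ℝ)| ≤ 1 := by
  have h := div_err (r.num * 2 ^ 48) r.den
  unfold flq
  have e : ((r.num * 2 ^ 48 : ℤ) : ℝ) / ((r.den : ℤ) : ℝ) = (2 : ℝ) ^ 48 * (r : ℝ) := by
    rw [Rat.cast_def]
    push_cast
    ring
  rw [e] at h
  exact h

/-- the integer matrix -/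
def enF (NJ Nc Nt : ℕ) (c : Loc) (Λ δ : ℚ) (sg : ℤ) (x y : ℕ × ℤ) : ℤ :=
  enC NJ Nc Nt x.1 x.2 y.1 y.2 + (if x.2 = y.2 then flq (dlq c Λ δ x.1 y.1 x.2) else 0)
    + (if x.2 + y.2 = 2 ∧ x.1 = y.1 then flq (mir c Λ sg x.1) else 0)

theorem enF_sound {d k : ℝ} {NJ Nc Nt EJ E Q : ℕ} (T : Tab d k NJ Nc Nt EJ E Q) (hE : E ≤ 2 ^ 20)
    (hEJ : EJ ≤ 2 ^ 20) (c : Loc) (Λ δ : ℚ) (sg : ℤ) (x y : ℕ × ℤ) (hm : 2 * x.2.natAbs ≤ Q)
    (hn : 2 * y.2.natAbs ≤ Q) :
    |(2 : ℝ) ^ 48 * FF d k c Λ δ sg x y - (enF NJ Nc Nt c Λ δ sg x y : ℝ)| ≤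
      ((38 * E + 38 * EJ + 4 : ℕ) : ℝ) := by
  have h1 := enC_sound T hE hEJ x.1 y.1 x.2 y.2 hm hn
  have h2 : |(2 : ℝ) ^ 48 * (if x.2 = y.2 then (dlq c Λ δ x.1 y.1 x.2 : ℝ) else 0)
      - ((if x.2 = y.2 then flq (dlq c Λ δ x.1 y.1 x.2) else 0 : ℤ) : ℝ)| ≤ 1 := by
    split_ifs
    · exact flq_err _
    · simp
  have h3 : |(2 : ℝ) ^ 48 * (if x.2 + y.2 = 2 ∧ x.1 = y.1 then (mir c Λ sg x.1 : ℝ) else 0)
      - ((if x.2 + y.2 = 2 ∧ x.1 = y.1 then flq (mir c Λ sg x.1) else 0 : ℤ) : ℝ)| ≤ 1 := by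
    split_ifs
    · exact flq_err _
    · simp
  unfold FF enF
  rw [abs_le] at h1 h2 h3 ⊢
  push_cast
  push_cast at h2 h3
  constructor <;> linarith [h1.1, h1.2, h2.1, h2.2, h3.1, h3.2]

/-! ### the index lists -/

/-- the variables of the frequency `m` -/
def ixm (m : ℤ) : List (ℕ × ℤ) := if m % 2 = 0 then [(0, m)] else [(1, m), (2, m)]

/-- the class of the frequency -/
def cl (m : ℤ) : Bool := decide (m % 3 = 1)

/-- the variables of the class `b` -/
def ixs (K : ℕ) (b : Bool) : List (ℕ × ℤ) :=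
  (List.range (2 * K + 1)).flatMap fun i : ℕ =>
    if cl ((i : ℤ) + 1 - K) = b then ixm ((i : ℤ) + 1 - K) else []

/-- admissible variables -/
def Ok (x : ℕ × ℤ) : Prop := (x.1 = 0 ∧ x.2 % 2 = 0) ∨ ((x.1 = 1 ∨ x.1 = 2) ∧ x.2 % 2 = 1)

theorem mem_ixm (m : ℤ) (x : ℕ × ℤ) : x ∈ ixm m ↔ x.2 = m ∧ Ok x := by
  unfold ixm Ok
  obtain ⟨t, n⟩ := x
  by_cases h : m % 2 = 0
  · rw [if_pos h]
    simp only [List.mem_cons, List.not_mem_nil, or_false, Prod.mk.injEq]
    constructor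
    · rintro ⟨h1, h2⟩
      exact ⟨h2, Or.inl ⟨h1, by rw [h2]; exact h⟩⟩
    · rintro ⟨h1, h2⟩
      rw [h1] at h2
      rcases h2 with h2 | h2
      · exact ⟨h2.1, h1⟩
      · omega
  · rw [if_neg h]
    simp only [List.mem_cons, List.not_mem_nil, or_false, Prod.mk.injEq]
    constructor
    · rintro (⟨h1, h2⟩ | ⟨h1, h2⟩)
      · exact ⟨h2, Or.inr ⟨Or.inl h1, by omega⟩⟩
      · exact ⟨h2, Or.inr ⟨Or.inr h1, by omega⟩⟩
    · rintro ⟨h1, h2⟩
      rw [h1] at h2
      rcases h2 with h2 | h2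
      · omega
      · rcases h2.1 with h3 | h3
        · exact Or.inl ⟨h3, h1⟩
        · exact Or.inr ⟨h3, h1⟩

theorem mem_ixs (K : ℕ) (b : Bool) (x : ℕ × ℤ) :
    x ∈ ixs K b ↔ x.2 ∈ Icc (1 - (K : ℤ)) (1 + K) ∧ cl x.2 = b ∧ Ok x := by
  unfold ixs
  rw [List.mem_flatMap]
  constructor
  · rintro ⟨i, hi, hx⟩
    rw [List.mem_range] at hi
    by_cases h : cl ((i : ℤ) + 1 - K) = b
    · rw [if_pos h, mem_ixm] at hx
      refine ⟨?_, by rw [hx.1]; exact h, hx.2⟩
      rw [mem_Icc, hx.1]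
      omega
    · rw [if_neg h] at hx
      simp at hx
  · rintro ⟨h1, h2, h3⟩
    rw [mem_Icc] at h1
    refine ⟨(x.2 - 1 + K).toNat, ?_, ?_⟩
    · rw [List.mem_range]; omega
    · have e : (((x.2 - 1 + K).toNat : ℕ) : ℤ) + 1 - K = x.2 := by omega
      rw [e, if_pos h2, mem_ixm]
      exact ⟨rfl, h3⟩

variable {p u s : ℤ → ℝ}

/-- vanishing contents -/
theorem VV_zero {sg : ℝ} (hS : Sec sg p u s) {t : ℕ} {m : ℤ} (h : ¬ Ok (t, m)) (ht : t < 3) :
    VV p u s (t, m) = 0 := by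
  unfold Ok at h
  simp only [not_or, not_and] at h
  interval_cases t
  · have h1 := h.1 rfl
    show s (m - 1) = 0
    apply hS.se
    rw [Int.even_iff]
    omega
  · have h1 := h.2 (by simp)
    show p (m - 1) = 0
    apply hS.po
    rw [Int.even_iff]
    omega
  · have h1 := h.2 (by simp)
    show u (m - 1) = 0
    apply hS.uo
    rw [Int.even_iff]
    omega

/-- sums over all variables -/
theorem sum_split {K : ℕ} (g : ℕ × ℤ → ℝ) (hg : ∀ x : ℕ × ℤ, x.1 < 3 → ¬ Ok x → g x = 0)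
    (h1 : (ixs K true).Nodup) (h2 : (ixs K false).Nodup) :
    ∑ m ∈ Icc (1 - (K : ℤ)) (1 + K), ∑ t ∈ range 3, g (t, m) =
      ((ixs K true).map g).sum + ((ixs K false).map g).sum := by
  classical
  rw [← List.sum_toFinset g h1, ← List.sum_toFinset g h2]
  have hd : Disjoint (ixs K true).toFinset (ixs K false).toFinset := by
    rw [Finset.disjoint_left]
    intro x hx hy
    rw [List.mem_toFinset, mem_ixs] at hx hy
    rw [hx.2.1] at hy
    simp at hy
  rw [← Finset.sum_union hd, Finset.sum_comm, ← Finset.sum_product']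
  symm
  apply Finset.sum_subset
  · intro x hx
    rw [Finset.mem_union, List.mem_toFinset, List.mem_toFinset, mem_ixs, mem_ixs] at hx
    rw [Finset.mem_product, Finset.mem_range]
    rcases hx with hx | hx
    · refine ⟨?_, hx.1⟩
      rcases hx.2.2 with h | h
      · omega
      · omega
    · refine ⟨?_, hx.1⟩
      rcases hx.2.2 with h | h
      · omega
      · omega
  · intro x hx hn
    rw [Finset.mem_product, Finset.mem_range] at hx
    apply hg x hx.1
    intro hc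
    apply hn
    rw [Finset.mem_union, List.mem_toFinset, List.mem_toFinset, mem_ixs, mem_ixs]
    cases hcl : cl x.2
    · exact Or.inr ⟨hx.2, rfl, hc⟩
    · exact Or.inl ⟨hx.2, rfl, hc⟩

/-- the two classes do not interact -/
theorem FF_cross (d k : ℝ) (c : Loc) (Λ δ : ℚ) (sg : ℤ) (x y : ℕ × ℤ) (h : cl x.2 ≠ cl y.2) :
    FF d k c Λ δ sg x y = 0 := by
  have h3 : ¬ (3 : ℤ) ∣ y.2 - x.2 := by
    intro hc
    apply h
    unfold cl
    rw [decide_eq_decide]
    omega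
  have h4 : x.2 ≠ y.2 := fun hc => h (by rw [hc])
  have h5 : ¬ (x.2 + y.2 = 2 ∧ x.1 = y.1) := by
    rintro ⟨h6, _⟩
    apply h
    unfold cl
    rw [decide_eq_decide]
    omega
  unfold FF Cc
  rw [if_neg h3, if_neg h4, if_neg h5]
  simp

/-- the form as a matrix form -/
theorem form_eq (d k : ℝ) (c : Loc) (Λ δ : ℚ) (sg : ℤ) (hsg : sg = 1 ∨ sg = -1) (K : ℕ)
    (hS : Sec (sg : ℝ) p u s) :
    QR d k (-1) 2 (Icc (1 - (K : ℤ)) (1 + K)) p u s + LF c sg (Icc (1 - (K : ℤ)) (1 + K)) p u s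
      - δ * ∑ m ∈ Icc (1 - (K : ℤ)) (1 + K), ∑ t ∈ range 3, VV p u s (t, m) ^ 2 =
    ∑ m ∈ Icc (1 - (K : ℤ)) (1 + K), ∑ t ∈ range 3, ∑ n ∈ Icc (1 - (K : ℤ)) (1 + K), ∑ w ∈ range 3,
      FF d k c Λ δ sg (t, m) (w, n) * (VV p u s (t, m) * VV p u s (w, n)) := by
  set S := Icc (1 - (K : ℤ)) (1 + K) with hSd
  have hmir : ∀ m ∈ S, 2 - m ∈ S := by
    intro m hm
    rw [hSd, mem_Icc] at hm ⊢
    omega
  -- one row
  have row : ∀ m ∈ S, ∑ t ∈ range 3, ∑ n ∈ S, ∑ w ∈ range 3,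
      FF d k c Λ δ sg (t, m) (w, n) * (VV p u s (t, m) * VV p u s (w, n)) =
      (∑ n ∈ S, entR d k (-1) 2 p u s m n) + dgR 2 p u s m
        + ((c.z m : ℝ) * s (m - 1) ^ 2 + (c.p m : ℝ) * p (m - 1) ^ 2 + (c.r m : ℝ) * u (m - 1) ^ 2
          + 2 * (c.x m : ℝ) * (p (m - 1) * u (m - 1)) + sg * (c.f2 : ℝ) * (s (m - 1) * s (1 - m)))
        - δ * ∑ t ∈ range 3, VV p u s (t, m) ^ 2 := by
    intro m hm
    have e0 : ∀ t ∈ range 3, ∑ n ∈ S, ∑ w ∈ range 3,
        FF d k c Λ δ sg (t, m) (w, n) * (VV p u s (t, m) * VV p u s (w, n)) =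
        (∑ n ∈ S, ∑ w ∈ range 3, Cc d k t m w n * (VV p u s (t, m) * VV p u s (w, n)))
        + (∑ w ∈ range 3, (dlq c Λ δ t w m : ℝ) * (VV p u s (t, m) * VV p u s (w, m)))
        + (mir c Λ sg t : ℝ) * (VV p u s (t, m) * VV p u s (t, 2 - m)) := by
      intro t ht
      have e1 : ∀ n ∈ S, ∑ w ∈ range 3,
          FF d k c Λ δ sg (t, m) (w, n) * (VV p u s (t, m) * VV p u s (w, n)) =
          (∑ w ∈ range 3, Cc d k t m w n * (VV p u s (t, m) * VV p u s (w, n)))
          + (if n = m then (∑ w ∈ range 3, (dlq c Λ δ t w m : ℝ) * (VV p u s (t, m) * VV p u s (w, m))) else 0)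
          + (if n = 2 - m then (mir c Λ sg t : ℝ) * (VV p u s (t, m) * VV p u s (t, 2 - m)) else 0) := by
        intro n _
        have e2 : (if n = 2 - m then (mir c Λ sg t : ℝ) * (VV p u s (t, m) * VV p u s (t, 2 - m)) else 0) =
            ∑ w ∈ range 3, if t = w then (if n = 2 - m then
              (mir c Λ sg t : ℝ) * (VV p u s (t, m) * VV p u s (w, n)) else 0) else 0 := by
          rw [Finset.sum_ite_eq]
          rw [if_pos ht]
          by_cases hn : n = 2 - m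
          · rw [if_pos hn, if_pos hn, hn]
          · rw [if_neg hn, if_neg hn]
        have e3 : (if n = m then (∑ w ∈ range 3, (dlq c Λ δ t w m : ℝ) *
            (VV p u s (t, m) * VV p u s (w, m))) else 0) =
            ∑ w ∈ range 3, if n = m then (dlq c Λ δ t w m : ℝ) * (VV p u s (t, m) * VV p u s (w, n)) else 0 := by
          by_cases hn : n = m
          · rw [if_pos hn]
            exact Finset.sum_congr rfl fun w _ => by rw [if_pos hn, hn]
          · simp only [if_neg hn, Finset.sum_const_zero]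
        rw [e2, e3, ← Finset.sum_add_distrib, ← Finset.sum_add_distrib]
        refine Finset.sum_congr rfl fun w _ => ?_
        unfold FF
        simp only
        have c1 : (if m = n then (dlq c Λ δ t w m : ℝ) else 0) = if n = m then (dlq c Λ δ t w m : ℝ) else 0 := by
          by_cases h : n = m
          · rw [if_pos h, if_pos h.symm]
          · rw [if_neg h, if_neg (Ne.symm h)]
        have c2 : (if m + n = 2 ∧ t = w then (mir c Λ sg t : ℝ) else 0) =
            if t = w then (if n = 2 - m then (mir c Λ sg t : ℝ) else 0) else 0 := by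
          by_cases h : t = w
          · by_cases h' : n = 2 - m
            · rw [if_pos h, if_pos h', if_pos ⟨by omega, h⟩]
            · rw [if_pos h, if_neg h', if_neg (fun hc => h' (by omega))]
          · rw [if_neg h, if_neg (fun hc => h hc.2)]
        rw [c1, c2]
        split_ifs <;> ring
      rw [Finset.sum_congr rfl e1, Finset.sum_add_distrib, Finset.sum_add_distrib,
        Finset.sum_ite_eq' S m, if_pos hm, Finset.sum_ite_eq' S (2 - m), if_pos (hmir m hm)]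
    rw [Finset.sum_congr rfl e0, Finset.sum_add_distrib, Finset.sum_add_distrib]
    -- the nonlocal part
    have e4 : ∑ t ∈ range 3, ∑ n ∈ S, ∑ w ∈ range 3,
        Cc d k t m w n * (VV p u s (t, m) * VV p u s (w, n)) = ∑ n ∈ S, entR d k (-1) 2 p u s m n := by
      rw [Finset.sum_comm]
      refine Finset.sum_congr rfl fun n _ => ?_
      unfold entR Cc
      by_cases h : (3 : ℤ) ∣ n - m
      · simp only [if_pos h]
        rw [BrR_eq, Finset.mul_sum, Finset.mul_sum]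
        refine Finset.sum_congr rfl fun t _ => ?_
        rw [Finset.mul_sum, Finset.mul_sum]
        refine Finset.sum_congr rfl fun w _ => ?_
        ring
      · simp only [if_neg h, zero_mul, Finset.sum_const_zero]
    rw [e4]
    -- the local part
    have hpm : p (1 - m) = sg * p (m - 1) := by
      rw [← hS.pm]; congr 1; ring
    have hum : u (1 - m) = -sg * u (m - 1) := by
      rw [← hS.um]; congr 1; ring
    have hsg2 : (sg : ℝ) * sg = 1 := by
      rcases hsg with h | h <;> rw [h] <;> norm_num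
    have hk2 : ‖kq 2‖ ^ 2 = 49 / 16 := by
      rw [← Complex.normSq_eq_norm_sq, Complex.normSq_apply, kq_re, kq_im,
        Real.mul_self_sqrt (by norm_num)]
      norm_num
    have hk6 : (ee (-(Real.pi / 6)) * kq 2).re = 13 / 8 := by
      have h3 : Real.sqrt 3 * Real.sqrt 3 = 3 := Real.mul_self_sqrt (by norm_num)
      rw [Complex.mul_re, ee_re, ee_im, kq_re, kq_im, Real.cos_neg, Real.sin_neg, Real.cos_pi_div_six,
        Real.sin_pi_div_six]
      linear_combination (1 / 2 : ℝ) * h3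
    have e5 : 2 - m - 1 = 1 - m := by ring
    unfold dgR
    rw [hk2, hk6]
    simp only [Finset.sum_range_succ, Finset.sum_range_zero, zero_add, VV, dlq, mir, e5, hpm, hum]
    push_cast
    linear_combination (-(Λ : ℝ) * p (m - 1) ^ 2 - (Λ : ℝ) * u (m - 1) ^ 2) * hsg2
  rw [Finset.sum_congr rfl row]
  unfold QR LF
  simp only [Finset.sum_sub_distrib, Finset.sum_add_distrib, Finset.mul_sum]
  ring

/-- the sign flip which exchanges the sectors in the second class -/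
def fl (m : ℤ) : ℤ := if m % 3 = 2 then -1 else 1

theorem fl_sq (m : ℤ) : fl m * fl m = 1 := by
  unfold fl; split_ifs <;> norm_num

theorem FF_flip (d k : ℝ) (c : Loc) (Λ δ : ℚ) (x y : ℕ × ℤ) (hx : cl x.2 = false) (hy : cl y.2 = false) :
    FF d k c Λ δ (-1) x y = (fl x.2 : ℝ) * (fl y.2 : ℝ) * FF d k c Λ δ 1 x y := by
  unfold cl at hx hy
  rw [decide_eq_false_iff_not] at hx hy
  unfold FF
  have hm : ∀ t, mir c Λ (-1) t = -mir c Λ 1 t := by
    intro t
    rcases t with _ | _ | _ | t <;> simp [mir]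
  by_cases h : x.2 + y.2 = 2 ∧ x.1 = y.1
  · -- mirror pair: different residues
    have h3 : ¬ (3 : ℤ) ∣ y.2 - x.2 := by omega
    have h4 : x.2 ≠ y.2 := by omega
    have h5 : (fl x.2 : ℝ) * (fl y.2 : ℝ) = -1 := by
      unfold fl
      have := h.1
      by_cases h6 : x.2 % 3 = 2
      · have h7 : ¬ y.2 % 3 = 2 := by omega
        rw [if_pos h6, if_neg h7]; norm_num
      · have h7 : y.2 % 3 = 2 := by omega
        rw [if_neg h6, if_pos h7]; norm_num
    unfold Cc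
    rw [if_neg h3, if_neg h4, if_pos h, if_pos h, h5, hm]
    push_cast
    ring
  · rw [if_neg h, if_neg h]
    by_cases h3 : (3 : ℤ) ∣ y.2 - x.2
    · have h5 : (fl x.2 : ℝ) * (fl y.2 : ℝ) = 1 := by
        have h8 : fl x.2 = fl y.2 := by
          unfold fl
          have h9 : x.2 % 3 = 2 ↔ y.2 % 3 = 2 := by omega
          by_cases h6 : x.2 % 3 = 2
          · rw [if_pos h6, if_pos (h9.1 h6)]
          · rw [if_neg h6, if_neg (fun h => h6 (h9.2 h))]
        rw [h8]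
        exact_mod_cast fl_sq _
      rw [h5, one_mul]
    · have h4 : x.2 ≠ y.2 := fun hc => h3 (by rw [hc]; simp)
      unfold Cc
      rw [if_neg h3, if_neg h4]
      simp

/-- a certified block -/
def Blk (d k : ℝ) (c : Loc) (Λ δ : ℚ) (sg : ℤ) (K : ℕ) (b : Bool) (ε : ℝ) : Prop :=
  ∀ v : ℕ × ℤ → ℝ, -(ε * ((ixs K b).map fun x => v x ^ 2).sum) ≤
    ((ixs K b).map fun x => ((ixs K b).map fun y => FF d k c Λ δ sg x y * (v x * v y)).sum).sum

theorem Blk_flip {d k : ℝ} {c : Loc} {Λ δ : ℚ} {K : ℕ} {ε : ℝ} (h : Blk d k c Λ δ 1 K false ε) :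
    Blk d k c Λ δ (-1) K false ε := by
  intro v
  have h1 := h fun x => (fl x.2 : ℝ) * v x
  have e1 : ((ixs K false).map fun x => ((fl x.2 : ℝ) * v x) ^ 2) = (ixs K false).map fun x => v x ^ 2 := by
    apply List.map_congr_left
    intro x _
    have := fl_sq x.2
    have h2 : (fl x.2 : ℝ) * (fl x.2 : ℝ) = 1 := by exact_mod_cast this
    linear_combination (v x ^ 2) * h2
  have e2 : ((ixs K false).map fun x => ((ixs K false).map fun y =>
      FF d k c Λ δ 1 x y * (((fl x.2 : ℝ) * v x) * ((fl y.2 : ℝ) * v y))).sum) =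
      (ixs K false).map fun x => ((ixs K false).map fun y => FF d k c Λ δ (-1) x y * (v x * v y)).sum := by
    apply List.map_congr_left
    intro x hx
    congr 1
    apply List.map_congr_left
    intro y hy
    rw [FF_flip d k c Λ δ x y ((mem_ixs K false x).1 hx).2.1 ((mem_ixs K false y).1 hy).2.1]
    ring
  rw [e1, e2] at h1
  exact h1

theorem list_sum_comm_zero {ι : Type} (l1 l2 : List ι) (g : ι → ι → ℝ) (h : ∀ x ∈ l1, ∀ y ∈ l2, g x y = 0) :
    (l1.map fun x => (l2.map fun y => g x y).sum).sum = 0 := by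
  apply List.sum_eq_zero
  intro a ha
  obtain ⟨x, hx, rfl⟩ := List.mem_map.1 ha
  apply List.sum_eq_zero
  intro b hb
  obtain ⟨y, hy, rfl⟩ := List.mem_map.1 hb
  exact h x hx y hy

theorem map_sum_add {ι : Type} (l : List ι) (f g : ι → ℝ) :
    (l.map fun x => f x + g x).sum = (l.map f).sum + (l.map g).sum := by
  induction l with
  | nil => simp
  | cons a l ih => simp only [List.map_cons, List.sum_cons, ih]; ring

theorem map_sum_mul {ι : Type} (l : List ι) (a : ℝ) (g : ι → ℝ) :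
    (l.map fun x => a * g x).sum = a * (l.map g).sum := by
  induction l with
  | nil => simp
  | cons b l ih => simp only [List.map_cons, List.sum_cons, ih]; ring

/-- positivity of a sector from its two blocks -/
theorem sector {d k : ℝ} {c : Loc} {Λ δ : ℚ} {sg : ℤ} (hsg : sg = 1 ∨ sg = -1) {K : ℕ} {ε : ℝ}
    (h1 : Blk d k c Λ δ sg K true ε) (h2 : Blk d k c Λ δ sg K false ε) (hε : ε ≤ (δ : ℝ))
    (n1 : (ixs K true).Nodup) (n2 : (ixs K false).Nodup) (hS : Sec (sg : ℝ) p u s) :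
    0 ≤ QR d k (-1) 2 (Icc (1 - (K : ℤ)) (1 + K)) p u s + LF c sg (Icc (1 - (K : ℤ)) (1 + K)) p u s := by
  have e := form_eq d k c Λ δ sg hsg K hS
  set v := VV p u s with hv
  have hz : ∀ x : ℕ × ℤ, x.1 < 3 → ¬ Ok x → v x = 0 := fun x h3 hx => VV_zero hS hx h3
  have e1 : ∑ m ∈ Icc (1 - (K : ℤ)) (1 + K), ∑ t ∈ range 3, v (t, m) ^ 2 =
      ((ixs K true).map fun x => v x ^ 2).sum + ((ixs K false).map fun x => v x ^ 2).sum :=
    sum_split (fun x => v x ^ 2) (fun x h3 hx => by simp [hz x h3 hx]) n1 n2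
  have e2 : ∑ m ∈ Icc (1 - (K : ℤ)) (1 + K), ∑ t ∈ range 3, ∑ n ∈ Icc (1 - (K : ℤ)) (1 + K), ∑ w ∈ range 3,
      FF d k c Λ δ sg (t, m) (w, n) * (v (t, m) * v (w, n)) =
      ((ixs K true).map fun x => ((ixs K true).map fun y => FF d k c Λ δ sg x y * (v x * v y)).sum).sum
      + ((ixs K false).map fun x => ((ixs K false).map fun y => FF d k c Λ δ sg x y * (v x * v y)).sum).sum := by
    have g1 : ∀ x : ℕ × ℤ, ∑ n ∈ Icc (1 - (K : ℤ)) (1 + K), ∑ w ∈ range 3,
        FF d k c Λ δ sg x (w, n) * (v x * v (w, n)) =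
        ((ixs K true).map fun y => FF d k c Λ δ sg x y * (v x * v y)).sum
        + ((ixs K false).map fun y => FF d k c Λ δ sg x y * (v x * v y)).sum := fun x =>
      sum_split (fun y => FF d k c Λ δ sg x y * (v x * v y)) (fun y h3 hy => by simp [hz y h3 hy]) n1 n2
    have g2 := sum_split (K := K) (fun x => ((ixs K true).map fun y => FF d k c Λ δ sg x y * (v x * v y)).sum
        + ((ixs K false).map fun y => FF d k c Λ δ sg x y * (v x * v y)).sum) (fun x h3 hx => by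
          have : ∀ l : List (ℕ × ℤ), (l.map fun y => FF d k c Λ δ sg x y * (v x * v y)).sum = 0 := by
            intro l
            apply List.sum_eq_zero
            intro a ha
            obtain ⟨y, _, rfl⟩ := List.mem_map.1 ha
            rw [hz x h3 hx]; ring
          rw [this, this, add_zero]) n1 n2
    simp only [g1]
    rw [g2, map_sum_add, map_sum_add]
    rw [list_sum_comm_zero (ixs K true) (ixs K false), list_sum_comm_zero (ixs K false) (ixs K true)]
    · ring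
    · intro x hx y hy
      have h3 := ((mem_ixs K false x).1 hx).2.1
      have h4 := ((mem_ixs K true y).1 hy).2.1
      rw [FF_cross d k c Λ δ sg x y (by rw [h3, h4]; simp), zero_mul]
    · intro x hx y hy
      have h3 := ((mem_ixs K true x).1 hx).2.1
      have h4 := ((mem_ixs K false y).1 hy).2.1
      rw [FF_cross d k c Λ δ sg x y (by rw [h3, h4]; simp), zero_mul]
  rw [e1, e2] at e
  have f1 := h1 v
  have f2 := h2 v
  have p1 : 0 ≤ ((ixs K true).map fun x => v x ^ 2).sum := List.sum_nonneg (by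
    intro a ha
    obtain ⟨y, _, rfl⟩ := List.mem_map.1 ha
    positivity)
  have p2 : 0 ≤ ((ixs K false).map fun x => v x ^ 2).sum := List.sum_nonneg (by
    intro a ha
    obtain ⟨y, _, rfl⟩ := List.mem_map.1 ha
    positivity)
  have q1 := mul_le_mul_of_nonneg_right hε p1
  have q2 := mul_le_mul_of_nonneg_right hε p2
  nlinarith

/-- **HEAD from three certified blocks** -/
theorem StPos_of_blocks {d k : ℝ} {c : Loc} {Λ δ : ℚ} {K : ℕ} {ε : ℝ}
    (h1 : Blk d k c Λ δ 1 K true ε) (h2 : Blk d k c Λ δ (-1) K true ε) (h3 : Blk d k c Λ δ 1 K false ε)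
    (hε : ε ≤ (δ : ℝ)) (n1 : (ixs K true).Nodup) (n2 : (ixs K false).Nodup) : StPos d k K c := by
  intro sg hsg p u s hS
  rcases hsg with h | h
  · subst h
    have := sector (sg := 1) (Or.inl rfl) h1 h3 hε n1 n2 (by simpa using hS)
    simpa using this
  · subst h
    have := sector (sg := -1) (Or.inr rfl) h2 (Blk_flip h3) hε n1 n2 (by simpa using hS)
    simpa using this

/-- a block from a certificate -/
theorem Blk_of_cert {d k : ℝ} {NJ Nc Nt EJ E K : ℕ} (T : Tab d k NJ Nc Nt EJ E (2 * (K + 1)))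
    (hE : E ≤ 2 ^ 20) (hEJ : EJ ≤ 2 ^ 20) (c : Loc) (Λ δ : ℚ) (sg : ℤ) (b : Bool) (n rho : ℕ)
    (hn : n * (2 ^ 32) ^ 2 < BB) (rows : List ℕ)
    (h : cC (enF NJ Nc Nt c Λ δ sg) n rho (ixs K b) rows = true) (ε : ℝ)
    (hε : ((rho : ℝ) + ((38 * E + 38 * EJ + 4 : ℕ) : ℝ)) / 2 ^ 48 * (ixs K b).length ≤ ε) :
    Blk d k c Λ δ sg K b ε := by
  intro v
  have key := psd_cert (FF d k c Λ δ sg) (FF_symm d k c Λ δ sg) (enF NJ Nc Nt c Λ δ sg) n rho
    (38 * E + 38 * EJ + 4) hn (ixs K b) rows (by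
      intro x hx y hy
      have hx' := Finset.mem_Icc.1 ((mem_ixs K b x).1 hx).1
      have hy' := Finset.mem_Icc.1 ((mem_ixs K b y).1 hy).1
      exact enF_sound T hE hEJ c Λ δ sg x y (by omega) (by omega)) h v
  have p1 : 0 ≤ ((ixs K b).map fun x => v x ^ 2).sum := List.sum_nonneg (by
    intro a ha
    obtain ⟨y, _, rfl⟩ := List.mem_map.1 ha
    positivity)
  have := mul_le_mul_of_nonneg_right hε p1
  linarith

end Pool.Agent.Helper46.RC.Hd
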