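import Pool.Agent.Helper46.RC.HdCert

/-!
# Link (7), HEAD engine: the gauge

On a sector `p (-n) = ± p n`, `u (-n) = ∓ u n`: diagonal terms may be moved between `n` and `-n`. `gau c` has almost
symmetric diagonals, so that a moderate penalty `Λ` suffices.
-/

open Finset

namespace Pool.Agent.Helper46.RC.Hd

/-- the gauge `g` added to `c` -/
def gau (c g : Loc) : Loc where
  z := c.z
  p m := c.p m + (g.p m - g.p (2 - m))
  r m := c.r m + (g.r m - g.r (2 - m))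
  x m := c.x m + (g.x m + g.x (2 - m))
  f2 := c.f2

theorem sum_flip (K : ℕ) (g : ℤ → ℝ) :
    ∑ m ∈ Icc (1 - (K : ℤ)) (1 + K), g (2 - m) = ∑ m ∈ Icc (1 - (K : ℤ)) (1 + K), g m := by
  refine Finset.sum_nbij' (fun m => 2 - m) (fun m => 2 - m) ?_ ?_ ?_ ?_ ?_
  · intro m hm
    rw [Finset.mem_Icc] at hm ⊢
    omega
  · intro m hm
    rw [Finset.mem_Icc] at hm ⊢
    omega
  · intro m _
    ring
  · intro m _
    ring
  · intro m _
    rfl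

theorem LF_gau (c g : Loc) {sg : ℝ} (hsg : sg = 1 ∨ sg = -1) (K : ℕ) {p u s : ℤ → ℝ} (h : Sec sg p u s) :
    LF (gau c g) sg (Icc (1 - (K : ℤ)) (1 + K)) p u s = LF c sg (Icc (1 - (K : ℤ)) (1 + K)) p u s := by
  have h2 : sg ^ 2 = 1 := by rcases hsg with h | h <;> rw [h] <;> norm_num
  have ep : ∀ n, p (-n) ^ 2 = p n ^ 2 := fun n => by rw [h.pm, mul_pow, h2, one_mul]
  have eu : ∀ n, u (-n) ^ 2 = u n ^ 2 := fun n => by rw [h.um, mul_pow, neg_sq, h2, one_mul]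
  have ex : ∀ n, p (-n) * u (-n) = -(p n * u n) := fun n => by
    rw [h.pm, h.um]
    linear_combination (-(p n * u n)) * h2
  have e1 : ∀ m : ℤ, (2 - m) - 1 = -(m - 1) := fun m => by ring
  have s1 := sum_flip K (fun m => (g.p m : ℝ) * p (m - 1) ^ 2)
  have s2 := sum_flip K (fun m => (g.r m : ℝ) * u (m - 1) ^ 2)
  have s3 := sum_flip K (fun m => 2 * (g.x m : ℝ) * (p (m - 1) * u (m - 1)))
  simp only [e1, ep, eu, ex] at s1 s2 s3
  have e2 : LF (gau c g) sg (Icc (1 - (K : ℤ)) (1 + K)) p u s =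
      LF c sg (Icc (1 - (K : ℤ)) (1 + K)) p u s
      + (∑ m ∈ Icc (1 - (K : ℤ)) (1 + K), (g.p m : ℝ) * p (m - 1) ^ 2
        - ∑ m ∈ Icc (1 - (K : ℤ)) (1 + K), (g.p (2 - m) : ℝ) * p (m - 1) ^ 2)
      + (∑ m ∈ Icc (1 - (K : ℤ)) (1 + K), (g.r m : ℝ) * u (m - 1) ^ 2
        - ∑ m ∈ Icc (1 - (K : ℤ)) (1 + K), (g.r (2 - m) : ℝ) * u (m - 1) ^ 2)
      + (∑ m ∈ Icc (1 - (K : ℤ)) (1 + K), 2 * (g.x m : ℝ) * (p (m - 1) * u (m - 1))
        - ∑ m ∈ Icc (1 - (K : ℤ)) (1 + K), 2 * (g.x (2 - m) : ℝ) * -(p (m - 1) * u (m - 1))) := by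
    unfold LF gau
    rw [← Finset.sum_sub_distrib, ← Finset.sum_sub_distrib, ← Finset.sum_sub_distrib,
      ← Finset.sum_add_distrib, ← Finset.sum_add_distrib, ← Finset.sum_add_distrib]
    refine Finset.sum_congr rfl fun m _ => ?_
    push_cast
    ring
  rw [e2, s1, s2, s3]
  ring

theorem StPos_gau {d k : ℝ} {K : ℕ} {c g : Loc} (h : StPos d k K (gau c g)) : StPos d k K c := by
  intro sg hsg p u s hS
  have h1 := h sg hsg p u s hS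
  rwa [LF_gau c g hsg K hS] at h1

/-- the gauge: minus half of the value at `k = d = 0` of the nonlocal diagonal -/
def g0 : Loc where
  z _ := 0
  p m := -((3 + (cA' 1 1 m : ℚ) / 16) / (2 * m))
  r m := -((51 / 8 + (cA' 2 2 m : ℚ) / 16) / (2 * m))
  x m := -((-15 / 4 + (cA' 1 2 m : ℚ) / 16) / (2 * m))
  f2 := 0

/-- **THE HEAD CERTIFICATE** with gauge -/
theorem StPos_of_certG {kn kd dd K NJ Nc Ns Nt EJ E : ℕ} {dn : ℤ} (c : Loc) (Λ δ : ℚ) (n1 n3 rho : ℕ)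
    (R1 R2 R3 : List ℕ) (hk : 0 < kd)
    (hJ : chJ kn kd NJ EJ (2 * (K + 1)) (2 * (K + 1) + 1) = true)
    (hT : Helper76.RC.TrigT.chT dn dd Nc Ns Nt (2 * (K + 1)) E = true)
    (hE : E ≤ 2 ^ 20) (hEJ : EJ ≤ 2 ^ 20) (hn1 : n1 * (2 ^ 32) ^ 2 < BB) (hn3 : n3 * (2 ^ 32) ^ 2 < BB)
    (hl1 : (ixs K true).length ≤ n3) (hl3 : (ixs K false).length ≤ n3)
    (d1 : (ixs K true).Nodup) (d3 : (ixs K false).Nodup)
    (hδ : okD E EJ rho n3 δ = true)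
    (h1 : cC (enF NJ Nc Nt (gau c g0) Λ δ 1) n1 rho (ixs K true) R1 = true)
    (h2 : cC (enF NJ Nc Nt (gau c g0) Λ δ (-1)) n1 rho (ixs K true) R2 = true)
    (h3 : cC (enF NJ Nc Nt (gau c g0) Λ δ 1) n3 rho (ixs K false) R3 = true) :
    StPos ((dn : ℝ) / dd) ((kn : ℝ) / kd) K c :=
  StPos_gau (StPos_of_cert (gau c g0) Λ δ n1 n3 rho R1 R2 R3 hk hJ hT hE hEJ hn1 hn3 hl1 hl3 d1 d3 hδ h1 h2 h3)

end Pool.Agent.Helper46.RC.Hd
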