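import Pool.Agent.Helper46.RC.QHead
import Pool.Agent.Helper46.RC.RG2
import Pool.Agent.Helper72.SH.Interp2
import Pool.Agent.Helper61.RC.QC5

/-!
# Project RC, SHARP, zone I: (Q), from the five head certificates to all sections in the whole zone
-/

set_option autoImplicit false

open MeasureTheory Set Filter Topology

namespace Pool.Agent.Helper46.RC.QZ

open Pool.Agent.Helper46.RC.Hd (Loc StPos)
open Pool.Agent.Helper61.RC.QC
open Pool.Agent.Helper61.RC.HdLoc (locG LC headG_of_pos sum_shift)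
open Pool.Agent.Helper46.RC.CW
open Helper41.RC
open Pool.Agent.Helper33.SH (dI)

/-! ### constants -/

/-- charge of the tail -/
def ttQ : ℚ := 127 / 112 / 47 + 127 / 126 * (29 / 20 * 110000 + 49 / 50 * 20000) / 47 ^ 4

theorem tt_eq : tt 47 (127 / 112) (127 / 126) (29 / 20) (49 / 50) 110000 20000 = ((ttQ : ℚ) : ℝ) := by
  unfold tt ttQ
  push_cast
  ring

/-- losses of the passage -/
noncomputable def lamP (n : ℤ) : ℝ := 63 / 100000 * (127 / 126)
  + om (127 / 126) (29 / 20) (49 / 50) 110000 20000 ((n : ℝ) + 1)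

theorem lam_le (n : ℤ) : lamP n + 127 / 126 * (47 / 2000) ^ 2 / 16 * (10 + ((n : ℝ) + 1) ^ 2 / 10)
    ≤ ((lamQ n : ℚ) : ℝ) := by
  unfold lamP om lamQ
  push_cast
  nlinarith [sq_nonneg ((n : ℝ) + 1)]

/-! ### the head -/

/-- the extra form of the heads -/
noncomputable def EH : Seq3 := fun p r s => LC cQ (Finset.Icc (1 - ((47 : ℕ) : ℤ)) (1 + ((47 : ℕ) : ℤ))) p r s

theorem headH {d k : ℝ} (h : StPos d k 47 cH) :
    HeadG d k Real.pi (fun _ => 0) (fQ : ℝ) (e2T 47) (e3T 47) EH (fun n => (gsH n : ℝ)) (fun n => (gpH n : ℝ))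
      (fun n => (grH n : ℝ)) 47 := by
  have h1 := headG_of_pos d k 47 fQ (fun _ => 0) e2Q e3Q gsH gpH grH cQ EH (fun p r s _ => le_rfl) h
  intro p r s hP
  have h2 := h1 p r s hP
  have e1 : (fun n : ℤ => (((fun _ : ℤ => (0 : ℚ)) n : ℚ) : ℝ)) = fun _ => 0 := by
    funext n
    exact Rat.cast_zero
  rw [e1] at h2
  have e2 : HG d k Real.pi (fun _ => 0) (fQ : ℝ) (fun n => (e2Q n : ℝ)) (fun n => (e3Q n : ℝ)) 47 p r s =
      HG d k Real.pi (fun _ => 0) (fQ : ℝ) (e2T 47) (e3T 47) 47 p r s := by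
    unfold HG
    congr 1
    refine Finset.sum_congr rfl fun n hn => ?_
    rw [Finset.mem_Icc] at hn
    have hn' : |n| ≤ ((47 : ℕ) : ℤ) := abs_le.2 hn
    unfold Lg e2T e3T
    rw [if_pos hn', sub_zero, sub_zero]
  rwa [e2] at h2

/-! ### the tail -/

theorem big {n : ℤ} (hn : (47 : ℤ) < |n|) : (2304 : ℚ) ≤ (n : ℚ) ^ 2 ∧ (2209 : ℚ) ≤ ((n : ℚ) + 1) ^ 2 ∧
    ((n : ℚ) / ((n : ℚ) + 1)) ^ 2 ≤ 2304 / 2209 := by
  have h1 : (48 : ℚ) ≤ |(n : ℚ)| := by
    rw [← Int.cast_abs]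
    exact_mod_cast (by omega : (48 : ℤ) ≤ |n|)
  have h2 : |(n : ℚ)| ≤ |(n : ℚ) + 1| + 1 := by
    have := abs_sub_abs_le_abs_sub (n : ℚ) (-1)
    have e : (n : ℚ) - -1 = (n : ℚ) + 1 := by ring
    rw [e, abs_neg, abs_one] at this
    linarith
  have h3 : (47 : ℚ) ≤ |(n : ℚ) + 1| := by linarith
  have h4 : (2304 : ℚ) ≤ (n : ℚ) ^ 2 := by
    rw [← sq_abs]
    nlinarith
  have h5 : (2209 : ℚ) ≤ ((n : ℚ) + 1) ^ 2 := by
    rw [← sq_abs]
    nlinarith
  refine ⟨h4, h5, ?_⟩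
  rw [div_pow, div_le_div_iff₀ (by linarith) (by norm_num), ← sq_abs (n : ℚ), ← sq_abs ((n : ℚ) + 1)]
  nlinarith

theorem z_tail {n : ℤ} (hn : (47 : ℤ) < |n|) :
    gsM n ≤ fQ / 2 - 2 / 47 - 2 * ttQ - -(zQ n) := by
  obtain ⟨h1, h2, h3⟩ := big hn
  have hn' : n < -47 ∨ 47 < n := by
    rcases le_or_gt 0 n with h | h
    · right; rwa [abs_of_nonneg h] at hn
    · left; rw [abs_of_neg h] at hn; omega
  have k1 : 15 / 8 / ((n : ℚ) + 1) ^ 2 ≤ 15 / 8 / 2209 := by gcongr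
  have k2 : wQ / 2 / ((n : ℚ) ^ 2 - 1) ≤ wQ / 2 / 2303 := by
    have : (2303 : ℚ) ≤ (n : ℚ) ^ 2 - 1 := by linarith
    have hw : (0 : ℚ) ≤ wQ / 2 := by unfold wQ thQ; norm_num
    gcongr
  unfold gsM zQ z2Q unQ
  rw [if_neg (by omega), if_neg (by omega), if_neg (by omega), if_neg (by omega), if_neg (by omega),
    if_neg (by omega), if_neg (by omega), if_neg (by omega), if_neg (by omega), if_neg (by omega),
    if_neg (by omega)]
  unfold fQ wQ thQ ttQ at *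
  linarith

theorem big2 {n : ℤ} (hn : (47 : ℤ) < |n|) : 0 ≤ L2Q n ∧ L2Q n ≤ 2304 / 2303 ∧ |L1Q n| ≤ 48 / 2303 := by
  obtain ⟨h1, h2, h3⟩ := big hn
  have h4 : (48 : ℚ) ≤ |(n : ℚ)| := by
    rw [← Int.cast_abs]
    exact_mod_cast (by omega : (48 : ℤ) ≤ |n|)
  have h5 : (0 : ℚ) < (n : ℚ) ^ 2 - 1 := by linarith
  refine ⟨div_nonneg (by positivity) h5.le, ?_, ?_⟩
  · unfold L2Q
    rw [div_le_div_iff₀ h5 (by norm_num)]
    linarith
  · unfold L1Q
    rw [abs_div, abs_of_pos h5, div_le_div_iff₀ h5 (by norm_num), ← sq_abs]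
    nlinarith

theorem x_tail {n : ℤ} (hn : (47 : ℤ) < |n|) : |xQ n| ≤ (91 / 800 * (13 / 4) * (2304 / 2303) + 39 / 4) * (48 / 2303) := by
  obtain ⟨h1, h2, h3⟩ := big2 hn
  have hn' : n < -47 ∨ 47 < n := by
    rcases le_or_gt 0 n with h | h
    · right; rwa [abs_of_nonneg h] at hn
    · left; rw [abs_of_neg h] at hn; omega
  have e : xQ n = -((wQ * (13 / 4) * L2Q n + 39 / 4) * L1Q n) := by
    unfold xQ x2Q
    rw [if_neg (by omega), if_neg (by omega), if_neg (by omega), if_neg (by omega)]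
    ring
  have hw : (0 : ℚ) ≤ wQ := by unfold wQ thQ; norm_num
  have hw' : wQ ≤ 91 / 800 := by unfold wQ thQ; norm_num
  have h4 : 0 ≤ wQ * (13 / 4) * L2Q n + 39 / 4 := by positivity
  rw [e, abs_neg, abs_mul, abs_of_nonneg h4]
  refine mul_le_mul ?_ h3 (abs_nonneg _) (by norm_num)
  have h5 : wQ * (13 / 4) * L2Q n ≤ 91 / 800 * (13 / 4) * (2304 / 2303) :=
    mul_le_mul (by linarith) h2 h1 (by norm_num)
  linarith

theorem r_tail {n : ℤ} (hn : (47 : ℤ) < |n|) :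
    grM n ≤ (e3Q n - |xQ n|) - 159 / 8 / 47 - 147 / 16 * ttQ := by
  obtain ⟨g1, g2, g3⟩ := big hn
  obtain ⟨h1, h2, h3⟩ := big2 hn
  have hx := x_tail hn
  have hn' : n < -47 ∨ 47 < n := by
    rcases le_or_gt 0 n with h | h
    · right; rwa [abs_of_nonneg h] at hn
    · left; rw [abs_of_neg h] at hn; omega
  have k1 : 9 / 2 / ((n : ℚ) + 1) ^ 2 ≤ 9 / 2 / 2209 := by gcongr
  have k2 : L2Q n ^ 2 ≤ (2304 / 2303) ^ 2 := pow_le_pow_left₀ h1 h2 2
  have k3 : L1Q n ^ 2 ≤ (48 / 2303) ^ 2 := by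
    rw [← sq_abs]
    exact pow_le_pow_left₀ (abs_nonneg _) h3 2
  have k4 : r2Q n ≤ 121 / 32 * (2304 / 2303) ^ 2 + 75 / 32 * (48 / 2303) ^ 2 + 131 / 50 + 9 / 2 / 2209 := by
    unfold r2Q
    rw [if_neg (by omega)]
    linarith
  have hw : (0 : ℚ) ≤ wQ := by unfold wQ thQ; norm_num
  have hw' : wQ = 91 / 800 := by unfold wQ thQ; norm_num
  have k5 := mul_le_mul_of_nonneg_left k4 hw
  have e : e3Q n = 739 / 100 - 7 / 3000 - wQ * r2Q n - 39 / 8 * L2Q n := by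
    unfold e3Q
    rw [if_neg (by omega), if_neg (by omega)]
    ring
  have e2 : grM n = 3 / 10 := by
    unfold grM
    rw [if_neg (by omega), if_neg (by omega), if_neg (by omega), if_neg (by omega), if_neg (by omega)]
  rw [e, e2]
  rw [hw'] at k5 ⊢
  unfold ttQ
  linarith

theorem p_tail {n : ℤ} (hn : (47 : ℤ) < |n|) :
    gpM n ≤ (e2Q n - |xQ n|) - 18 / 47 - 6 * ttQ := by
  obtain ⟨g1, g2, g3⟩ := big hn
  obtain ⟨h1, h2, h3⟩ := big2 hn
  have hx := x_tail hn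
  have hn' : n < -47 ∨ 47 < n := by
    rcases le_or_gt 0 n with h | h
    · right; rwa [abs_of_nonneg h] at hn
    · left; rw [abs_of_neg h] at hn; omega
  have k1 : 5 / 2 / ((n : ℚ) + 1) ^ 2 ≤ 5 / 2 / 2209 := by gcongr
  have k2 : L2Q n ^ 2 ≤ (2304 / 2303) ^ 2 := pow_le_pow_left₀ h1 h2 2
  have k3 : L1Q n ^ 2 ≤ (48 / 2303) ^ 2 := by
    rw [← sq_abs]
    exact pow_le_pow_left₀ (abs_nonneg _) h3 2
  have k4 : p2Q n ≤ 3 / 2 * (2304 / 2303) ^ 2 + 1 / 2 * (48 / 2303) ^ 2 + 179 / 100 + 5 / 2 / 2209 := by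
    unfold p2Q
    rw [if_neg (by omega)]
    linarith
  have k6 : 39 / 2 / ((n : ℚ) ^ 2 - 1) ≤ 39 / 2 / 2303 := by
    have : (2303 : ℚ) ≤ (n : ℚ) ^ 2 - 1 := by linarith
    gcongr
  have hw : (0 : ℚ) ≤ wQ := by unfold wQ thQ; norm_num
  have hw' : wQ = 91 / 800 := by unfold wQ thQ; norm_num
  have k5 := mul_le_mul_of_nonneg_left k4 hw
  have e : e2Q n = 391 / 50 - 7 / 3000 - wQ * p2Q n - 39 / 2 / ((n : ℚ) ^ 2 - 1) := by
    unfold e2Q
    rw [if_neg (by omega), if_neg (by omega)]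
    ring
  have e2 : gpM n = 1 / 5 := by
    unfold gpM
    rw [if_neg (by omega), if_neg (by omega)]
  rw [e, e2]
  rw [hw'] at k5 ⊢
  unfold ttQ
  linarith

/-! ### one interval -/

/-- price of `s` in the tail -/
noncomputable def ezQ (n : ℤ) : ℝ := if |n| ≤ 47 then 0 else -((zQ n : ℚ) : ℝ)

theorem ES_eq (N : ℕ) (hN : 47 ≤ N) (p r s : ℤ → ℂ) :
    EH p r s - ∑ n ∈ Finset.Icc (-((N : ℤ) + 1)) (N + 1), (ezQ n * ‖s n‖ ^ 2 + 0 * ‖p n‖ ^ 2 + 0 * ‖r n‖ ^ 2)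
      = ES 47 (N + 1) p r s := by
  have e1 : EH p r s = ∑ n ∈ Finset.Icc (-((47 : ℕ) : ℤ)) ((47 : ℕ) : ℤ), ((zQ n : ℝ) * ‖s n‖ ^ 2
      + 2 * (xQ n : ℝ) * (r n * (starRingEnd ℂ) (p n)).im) := by
    rw [← sum_shift 47 (fun n => (zQ n : ℝ) * ‖s n‖ ^ 2
      + 2 * (xQ n : ℝ) * (r n * (starRingEnd ℂ) (p n)).im)]
    unfold EH LC cQ
    refine Finset.sum_congr rfl fun m _ => ?_
    simp only [Rat.cast_zero]
    ring
  have e2 : EH p r s = ∑ n ∈ Finset.Icc (-((N : ℤ) + 1)) (N + 1), (if |n| ≤ 47 then ((zQ n : ℝ) * ‖s n‖ ^ 2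
      + 2 * (xQ n : ℝ) * (r n * (starRingEnd ℂ) (p n)).im) else 0) := by
    rw [e1, ← Finset.sum_filter]
    refine Finset.sum_congr ?_ fun _ _ => rfl
    ext n
    rw [Finset.mem_filter, Finset.mem_Icc, Finset.mem_Icc, abs_le]
    push_cast
    omega
  rw [e2, ← Finset.sum_sub_distrib]
  unfold ES ezQ
  push_cast
  refine Finset.sum_congr rfl fun n _ => ?_
  by_cases h : |n| ≤ 47
  · rw [if_pos h, if_pos h, if_pos h]
    ring
  · rw [if_neg h, if_neg h, if_neg h]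
    ring

theorem piece {d₀ k₀ d₁ k₁ d k t : ℝ} (H0 : StPos d₀ k₀ 47 cH) (H1 : StPos d₁ k₁ 47 cH)
    (a0 : |k₀| ≤ 1 / 12) (a1 : |k₁| ≤ 1 / 12) (ak : |k| ≤ 1 / 12) (hD : |d₀ - d₁| + |k₀ - k₁| ≤ 47 / 2000)
    (t0 : 0 ≤ t) (t1 : t ≤ 1) (hk : k = (1 - t) * k₀ + t * k₁)
    (hd : |d - ((1 - t) * d₀ + t * d₁)| ≤ 63 / 100000) {N : ℕ} (hN : 48 ≤ N) :
    RestG d k Real.pi (fun _ => 0) (fQ : ℝ) (e2T 47) (e3T 47) (ES 47 (N + 1)) (fun n => (gsM n : ℝ))
      (fun n => (gpM n : ℝ)) (fun n => (grM n : ℝ)) N := by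
  have hi := Helper72.SH.headG_interp2 (K := 47) (by norm_num) (headH H0) (headH H1) (σ := 1 / 8) (D := 47 / 2000)
    (κ := 127 / 126) (T := 10) (gs' := fun n => (gsM n : ℝ) + 2 * lamP n) (gp' := fun n => (gpM n : ℝ) + 6 * lamP n)
    (gr' := fun n => (grM n : ℝ) + 147 / 16 * lamP n) (by norm_num) (by linarith) (by linarith) (by norm_num)
    (by norm_num) (by norm_num) hD
    (fun n _ => by
      have := lam_le n
      unfold gsH
      push_cast
      linarith)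
    (fun n _ => by
      have := lam_le n
      unfold gpH
      push_cast
      linarith)
    (fun n _ => by
      have := lam_le n
      unfold grH
      push_cast
      linarith) t0 t1
  rw [← hk] at hi
  have ef : (0 : ℝ) ≤ (fQ : ℝ) := by
    have : (0 : ℚ) ≤ fQ := by unfold fQ wQ thQ; norm_num
    exact_mod_cast this
  refine rest_gen2 (K := 47) (ez := ezQ) (ep := fun _ => 0) (er := fun _ => 0) (EH := EH) (σ := 1 / 8)
    (R := 127 / 112) (κ := 127 / 126) (D := 63 / 100000) (c₁ := 29 / 20) (c₂ := 49 / 50) (θ₁ := 110000)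
    (θ₂ := 20000) (fun n => by norm_num) (by norm_num) (by omega) hi (by norm_num) (by linarith) (by linarith)
    (by norm_num) (by norm_num) (by norm_num) (by norm_num) (by rw [sub_self, abs_zero, add_zero]; exact hd) ef
    (by norm_num) (by nlinarith) (by norm_num) (by norm_num)
    (fun p r s _ => le_of_eq (ES_eq N (by omega) p r s)) ?_ ?_ ?_ ?_ ?_ ?_
  · intro n hn
    have hn' : |n| ≤ 47 := by exact_mod_cast hn
    unfold ezQ lamP
    rw [if_pos hn']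
    linarith
  · intro n hn
    unfold lamP
    linarith
  · intro n hn
    unfold lamP
    linarith
  · intro n hn
    have hn' : 47 < |n| := by exact_mod_cast hn
    have h1 := z_tail hn'
    have h2 : ((gsM n : ℚ) : ℝ) ≤ ((fQ / 2 - 2 / 47 - 2 * ttQ - -(zQ n) : ℚ) : ℝ) := by exact_mod_cast h1
    unfold ezQ
    rw [if_neg (by omega), tt_eq]
    push_cast at h2 ⊢
    exact h2
  · intro n hn
    have hn' : 47 < |n| := by exact_mod_cast hn
    have h1 := p_tail hn'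
    have h2 : ((gpM n : ℚ) : ℝ) ≤ (((e2Q n - |xQ n|) - 18 / 47 - 6 * ttQ : ℚ) : ℝ) := by exact_mod_cast h1
    unfold e2T
    rw [if_neg (by push_cast; omega), tt_eq]
    push_cast at h2 ⊢
    linarith
  · intro n hn
    have hn' : 47 < |n| := by exact_mod_cast hn
    have h1 := r_tail hn'
    have h2 : ((grM n : ℚ) : ℝ) ≤ (((e3Q n - |xQ n|) - 159 / 8 / 47 - 147 / 16 * ttQ : ℚ) : ℝ) := by
      exact_mod_cast h1
    unfold e3T
    rw [if_neg (by push_cast; omega), tt_eq]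
    push_cast at h2 ⊢
    linarith

/-- **(Q), ALL SECTIONS IN THE WHOLE ZONE** from the five head certificates -/
theorem zone_rest (H : Heads) {A : ℝ} {B : ℂ} (hA : 0 ≤ A) (hz : A + 8 / 5 * ‖B‖ ≤ 1 / 12) {N : ℕ} (hN : 48 ≤ N) :
    RestG (dI A B) A Real.pi (fun _ => 0) (fQ : ℝ) (e2T 47) (e3T 47) (ES 47 (N + 1)) (fun n => (gsM n : ℝ))
      (fun n => (gpM n : ℝ)) (fun n => (grM n : ℝ)) N := by
  obtain ⟨h0, h1, h2, h3, h4⟩ := H
  push_cast at h0 h1 h2 h3 h4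
  have hB := norm_nonneg B
  have hA1 : A ≤ 1 / 12 := by linarith
  have hB1 : ‖B‖ ≤ 5 / 8 * (1 / 12 - A) := by linarith
  have hB2 : ‖B‖ ^ 2 ≤ (5 / 8 * (1 / 12 - A)) ^ 2 := pow_le_pow_left₀ hB hB1 2
  have hB3 : 0 ≤ ‖B‖ ^ 2 := sq_nonneg _
  have ak : |A| ≤ 1 / 12 := by rw [abs_of_nonneg hA]; exact hA1
  unfold dI
  rcases le_or_gt A (1 / 48) with c1 | c1
  · refine piece h0 h1 (by norm_num) (by norm_num) ak (by norm_num [abs_of_nonpos, abs_of_nonneg]) (t := 48 * A)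
      (by linarith) (by linarith) (by ring) ?_ hN
    rw [abs_le]
    constructor <;> nlinarith
  rcases le_or_gt A (1 / 24) with c2 | c2
  · refine piece h1 h2 (by norm_num [abs_of_nonneg]) (by norm_num [abs_of_nonneg]) ak
      (by norm_num [abs_of_nonpos, abs_of_nonneg]) (t := 48 * A - 1) (by linarith) (by linarith) (by ring) ?_ hN
    rw [abs_le]
    constructor <;> nlinarith
  rcases le_or_gt A (1 / 16) with c3 | c3
  · refine piece h2 h3 (by norm_num [abs_of_nonneg]) (by norm_num [abs_of_nonneg]) ak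
      (by norm_num [abs_of_nonpos, abs_of_nonneg]) (t := 48 * A - 2) (by linarith) (by linarith) (by ring) ?_ hN
    rw [abs_le]
    constructor <;> nlinarith
  · refine piece h3 h4 (by norm_num [abs_of_nonneg]) (by norm_num [abs_of_nonneg]) ak
      (by norm_num [abs_of_nonpos, abs_of_nonneg]) (t := 48 * A - 3) (by linarith) (by linarith) (by ring) ?_ hN
    rw [abs_le]
    constructor <;> nlinarith

end Pool.Agent.Helper46.RC.QZ
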