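import Mathlib

/-!
# General Schur tests (link (7) of the sharp inequality, rest form)

All statements are about nonnegative kernels `c i j` with positive weights `p i`:
`∑ c i j y i y j ≤ ∑ r i y i ^ 2` if `∑_j c i j p j ≤ r i p i` for all `i`.
Finite, `ENNReal` and real (summable) versions, and the version for complex sequences.
-/

namespace Pool.Agent.Helper46.RC.Schur

open scoped BigOperators ENNReal

/-- Pointwise Young inequality with weights. -/
lemma young (p q a b : ℝ) (hp : 0 < p) (hq : 0 < q) :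
    a * b ≤ (q / p * a ^ 2 + p / q * b ^ 2) / 2 := by
  have h : 0 ≤ (q * a - p * b) ^ 2 / (p * q) := by positivity
  have e : (q * a - p * b) ^ 2 / (p * q) = q / p * a ^ 2 + p / q * b ^ 2 - 2 * (a * b) := by
    field_simp
    ring
  rw [e] at h
  linarith

/-- Finite Schur test, symmetric kernel. -/
theorem fin {ι : Type*} (s : Finset ι) (c : ι → ι → ℝ) (p r y : ι → ℝ)
    (hc : ∀ i ∈ s, ∀ j ∈ s, 0 ≤ c i j) (hsymm : ∀ i ∈ s, ∀ j ∈ s, c i j = c j i)
    (hp : ∀ i ∈ s, 0 < p i)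
    (hrow : ∀ i ∈ s, ∑ j ∈ s, c i j * p j ≤ r i * p i) :
    ∑ i ∈ s, ∑ j ∈ s, c i j * (y i * y j) ≤ ∑ i ∈ s, r i * y i ^ 2 := by
  have h1 : ∑ i ∈ s, ∑ j ∈ s, c i j * (y i * y j) ≤
      ∑ i ∈ s, ∑ j ∈ s, (c i j * (p j / p i * y i ^ 2) / 2 + c i j * (p i / p j * y j ^ 2) / 2) := by
    refine Finset.sum_le_sum fun i hi => Finset.sum_le_sum fun j hj => ?_
    have := mul_le_mul_of_nonneg_left (young (p i) (p j) (y i) (y j) (hp i hi) (hp j hj))
      (hc i hi j hj)
    linarith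
  have h2 : ∑ i ∈ s, ∑ j ∈ s, (c i j * (p i / p j * y j ^ 2) / 2) =
      ∑ i ∈ s, ∑ j ∈ s, (c i j * (p j / p i * y i ^ 2) / 2) := by
    rw [Finset.sum_comm]
    refine Finset.sum_congr rfl fun i hi => Finset.sum_congr rfl fun j hj => ?_
    rw [hsymm j hj i hi]
  have h3 : ∑ i ∈ s, ∑ j ∈ s, (c i j * (p j / p i * y i ^ 2)) ≤ ∑ i ∈ s, r i * y i ^ 2 := by
    refine Finset.sum_le_sum fun i hi => ?_
    have e : ∑ j ∈ s, (c i j * (p j / p i * y i ^ 2)) = (∑ j ∈ s, c i j * p j) * (y i ^ 2 / p i) := by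
      rw [Finset.sum_mul]
      refine Finset.sum_congr rfl fun j _ => ?_
      ring
    rw [e]
    have hpi := hp i hi
    calc (∑ j ∈ s, c i j * p j) * (y i ^ 2 / p i) ≤ (r i * p i) * (y i ^ 2 / p i) :=
          mul_le_mul_of_nonneg_right (hrow i hi) (by positivity)
      _ = r i * y i ^ 2 := by field_simp
  have h4 : ∑ i ∈ s, ∑ j ∈ s, (c i j * (p j / p i * y i ^ 2) / 2 + c i j * (p i / p j * y j ^ 2) / 2) =
      ∑ i ∈ s, ∑ j ∈ s, (c i j * (p j / p i * y i ^ 2)) := by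
    simp_rw [Finset.sum_add_distrib]
    rw [h2, ← Finset.sum_add_distrib]
    refine Finset.sum_congr rfl fun i _ => ?_
    rw [← Finset.sum_add_distrib]
    refine Finset.sum_congr rfl fun j _ => ?_
    ring
  rw [h4] at h1
  exact h1.trans h3

/-- Finite Schur test for complex vectors: a hermitian or bilinear form whose coefficients are
bounded by `c`. -/
theorem finC {ι : Type*} (s : Finset ι) (c : ι → ι → ℝ) (p r : ι → ℝ) (x : ι → ℂ)
    (T : ι → ι → ℝ)
    (hT : ∀ i ∈ s, ∀ j ∈ s, |T i j| ≤ c i j * (‖x i‖ * ‖x j‖))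
    (hc : ∀ i ∈ s, ∀ j ∈ s, 0 ≤ c i j) (hsymm : ∀ i ∈ s, ∀ j ∈ s, c i j = c j i)
    (hp : ∀ i ∈ s, 0 < p i)
    (hrow : ∀ i ∈ s, ∑ j ∈ s, c i j * p j ≤ r i * p i) :
    |∑ i ∈ s, ∑ j ∈ s, T i j| ≤ ∑ i ∈ s, r i * ‖x i‖ ^ 2 := by
  refine le_trans ?_ (fin s c p r (fun i => ‖x i‖) hc hsymm hp hrow)
  refine (Finset.abs_sum_le_sum_abs _ _).trans (Finset.sum_le_sum fun i hi => ?_)
  exact (Finset.abs_sum_le_sum_abs _ _).trans (Finset.sum_le_sum fun j hj => hT i hi j hj)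

/-- Rectangular finite Schur test (cross block): `∑_i ∑_j c i j u i v j ≤ (α ∑ u² + β ∑ v²)/2`. -/
theorem rect {ι κ : Type*} (s : Finset ι) (t : Finset κ) (c : ι → κ → ℝ) (p : ι → ℝ) (q : κ → ℝ)
    (r : ι → ℝ) (r' : κ → ℝ) (u : ι → ℝ) (v : κ → ℝ)
    (hc : ∀ i ∈ s, ∀ j ∈ t, 0 ≤ c i j) (hp : ∀ i ∈ s, 0 < p i) (hq : ∀ j ∈ t, 0 < q j)
    (hrow : ∀ i ∈ s, ∑ j ∈ t, c i j * q j ≤ r i * p i)
    (hcol : ∀ j ∈ t, ∑ i ∈ s, c i j * p i ≤ r' j * q j) :
    2 * ∑ i ∈ s, ∑ j ∈ t, c i j * (u i * v j) ≤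
      ∑ i ∈ s, r i * u i ^ 2 + ∑ j ∈ t, r' j * v j ^ 2 := by
  have h1 : 2 * ∑ i ∈ s, ∑ j ∈ t, c i j * (u i * v j) ≤
      ∑ i ∈ s, ∑ j ∈ t, (c i j * (q j / p i * u i ^ 2)) +
      ∑ j ∈ t, ∑ i ∈ s, (c i j * (p i / q j * v j ^ 2)) := by
    rw [Finset.sum_comm (s := t) (t := s), ← Finset.sum_add_distrib, Finset.mul_sum]
    refine Finset.sum_le_sum fun i hi => ?_
    rw [← Finset.sum_add_distrib, Finset.mul_sum]
    refine Finset.sum_le_sum fun j hj => ?_
    have := mul_le_mul_of_nonneg_left (young (p i) (q j) (u i) (v j) (hp i hi) (hq j hj))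
      (hc i hi j hj)
    linarith
  refine h1.trans (add_le_add ?_ ?_)
  · refine Finset.sum_le_sum fun i hi => ?_
    have e : ∑ j ∈ t, (c i j * (q j / p i * u i ^ 2)) = (∑ j ∈ t, c i j * q j) * (u i ^ 2 / p i) := by
      rw [Finset.sum_mul]
      exact Finset.sum_congr rfl fun j _ => by ring
    rw [e]
    have hpi := hp i hi
    calc (∑ j ∈ t, c i j * q j) * (u i ^ 2 / p i) ≤ (r i * p i) * (u i ^ 2 / p i) :=
          mul_le_mul_of_nonneg_right (hrow i hi) (by positivity)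
      _ = r i * u i ^ 2 := by field_simp
  · refine Finset.sum_le_sum fun j hj => ?_
    have e : ∑ i ∈ s, (c i j * (p i / q j * v j ^ 2)) = (∑ i ∈ s, c i j * p i) * (v j ^ 2 / q j) := by
      rw [Finset.sum_mul]
      exact Finset.sum_congr rfl fun i _ => by ring
    rw [e]
    have hqj := hq j hj
    calc (∑ i ∈ s, c i j * p i) * (v j ^ 2 / q j) ≤ (r' j * q j) * (v j ^ 2 / q j) :=
          mul_le_mul_of_nonneg_right (hcol j hj) (by positivity)
      _ = r' j * v j ^ 2 := by field_simp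

/-- Infinite Schur test in `ENNReal` (no summability needed). -/
theorem enn {ι : Type*} (c : ι → ι → ℝ≥0∞) (p r y : ι → ℝ≥0∞)
    (hsymm : ∀ i j, c i j = c j i) (hp : ∀ i, p i ≠ 0) (hp' : ∀ i, p i ≠ ∞)
    (hrow : ∀ i, ∑' j, c i j * p j ≤ r i * p i) :
    ∑' i, ∑' j, c i j * (y i * y j) ≤ ∑' i, r i * y i ^ 2 := by
  have hy : ∀ i j, y i * y j ≤ (p j / p i * y i ^ 2 + p i / p j * y j ^ 2) / 2 := by
    intro i j
    rcases eq_or_ne (y i) ∞ with hi | hi
    · rcases eq_or_ne (y j) 0 with hj | hj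
      · simp [hj]
      · have : p j / p i * y i ^ 2 = ∞ := by
          rw [hi]
          simp only [ne_eq, OfNat.ofNat_ne_zero, not_false_eq_true, ENNReal.top_pow]
          refine ENNReal.mul_top ?_
          simp [ENNReal.div_eq_zero_iff, hp j, hp' i]
        rw [this]
        simp [ENNReal.top_div]
    rcases eq_or_ne (y j) ∞ with hj | hj
    · have : p i / p j * y j ^ 2 = ∞ := by
          rw [hj]
          simp only [ne_eq, OfNat.ofNat_ne_zero, not_false_eq_true, ENNReal.top_pow]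
          refine ENNReal.mul_top ?_
          simp [ENNReal.div_eq_zero_iff, hp i, hp' j]
      rw [this]
      simp [ENNReal.top_div]
    lift y i to NNReal using hi with a ha
    lift y j to NNReal using hj with b hb
    have hpi := hp' i
    have hpj := hp' j
    have hpi0 := hp i
    have hpj0 := hp j
    lift p i to NNReal using hpi with P hP
    lift p j to NNReal using hpj with Q hQ
    have hP0 : P ≠ 0 := by simpa using hpi0
    have hQ0 : Q ≠ 0 := by simpa using hpj0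
    rw [← ENNReal.coe_div hP0, ← ENNReal.coe_div hQ0]
    have h2 : ((2 : NNReal) : ℝ≥0∞) = 2 := by norm_num
    rw [← h2, ← ENNReal.coe_pow, ← ENNReal.coe_pow, ← ENNReal.coe_mul, ← ENNReal.coe_mul,
      ← ENNReal.coe_mul, ← ENNReal.coe_add, ← ENNReal.coe_div (by norm_num)]
    rw [ENNReal.coe_le_coe, ← NNReal.coe_le_coe]
    push_cast
    exact young P Q a b (by positivity) (by positivity)
  have h1 : ∑' i, ∑' j, c i j * (y i * y j) ≤
      ∑' i, ∑' j, (c i j * (p j / p i * y i ^ 2) / 2 + c i j * (p i / p j * y j ^ 2) / 2) := by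
    refine ENNReal.tsum_le_tsum fun i => ENNReal.tsum_le_tsum fun j => ?_
    calc c i j * (y i * y j) ≤ c i j * ((p j / p i * y i ^ 2 + p i / p j * y j ^ 2) / 2) := by
          gcongr
          exact hy i j
      _ = _ := by
          rw [ENNReal.add_div, mul_add, mul_div_assoc, mul_div_assoc, mul_div_assoc, mul_div_assoc,
            mul_div_assoc, mul_div_assoc]
  have h2 : ∑' i, ∑' j, (c i j * (p i / p j * y j ^ 2) / 2) =
      ∑' i, ∑' j, (c i j * (p j / p i * y i ^ 2) / 2) := by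
    rw [ENNReal.tsum_comm]
    refine tsum_congr fun i => tsum_congr fun j => ?_
    rw [hsymm j i]
  have h3 : ∑' i, ∑' j, (c i j * (p j / p i * y i ^ 2)) ≤ ∑' i, r i * y i ^ 2 := by
    refine ENNReal.tsum_le_tsum fun i => ?_
    have e : ∑' j, (c i j * (p j / p i * y i ^ 2)) = (∑' j, c i j * p j) * ((p i)⁻¹ * y i ^ 2) := by
      rw [← ENNReal.tsum_mul_right]
      refine tsum_congr fun j => ?_
      rw [div_eq_mul_inv]
      ring
    rw [e]
    calc (∑' j, c i j * p j) * ((p i)⁻¹ * y i ^ 2) ≤ (r i * p i) * ((p i)⁻¹ * y i ^ 2) := by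
          gcongr
          exact hrow i
      _ = r i * (p i * (p i)⁻¹) * y i ^ 2 := by ring
      _ = r i * y i ^ 2 := by rw [ENNReal.mul_inv_cancel (hp i) (hp' i), mul_one]
  refine h1.trans (le_trans (le_of_eq ?_) h3)
  simp_rw [ENNReal.tsum_add]
  rw [h2, ← ENNReal.tsum_add]
  refine tsum_congr fun i => ?_
  rw [← ENNReal.tsum_add]
  refine tsum_congr fun j => ?_
  exact ENNReal.add_halves _

end Pool.Agent.Helper46.RC.Schur
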